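import Pool.Agent.Helper49.TG.Defs

/-!
# TG: basic facts on contexts, values, loops and conjugates
-/

set_option autoImplicit false

namespace Pool.Helper49.TG

section grammar
variable {J T : Type} {g : BG J T}

theorem Cx.plug {A B : J} {β δ x : List T} (h : Cx g A B β δ) (hx : Yd g B x) :
    Yd g A (β ++ x ++ δ) := by
  induction h with
  | nil => simpa using hx
  | left h h₁ h₂ ih =>
    have := Yd.bin h (ih hx) h₂
    simpa [List.append_assoc] using this
  | right h h₁ h₂ ih =>
    have := Yd.bin h h₁ (ih hx)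
    simpa [List.append_assoc] using this

theorem Cx.comp {A B C : J} {β δ β' δ' : List T} (h : Cx g A B β δ) (h' : Cx g B C β' δ') :
    Cx g A C (β ++ β') (δ' ++ δ) := by
  induction h with
  | nil => simpa using h'
  | left h h₁ h₂ ih =>
    have := Cx.left h (ih h') h₂
    simpa [List.append_assoc] using this
  | right h h₁ h₂ ih =>
    have := Cx.right h h₁ (ih h')
    simpa [List.append_assoc] using this

/-- add a rule at the hole, going to the left child -/
theorem Cx.snocLeft {A B C D : J} {β δ v : List T} (h : Cx g A B β δ) (hr : g.bin B C D)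
    (hv : Yd g D v) : Cx g A C β (v ++ δ) := by
  simpa using h.comp (Cx.left hr Cx.nil hv)

/-- add a rule at the hole, going to the right child -/
theorem Cx.snocRight {A B C D : J} {β δ u : List T} (h : Cx g A B β δ) (hr : g.bin B C D)
    (hu : Yd g C u) : Cx g A D (β ++ u) δ := by
  simpa using h.comp (Cx.right hr hu Cx.nil)

theorem Bd.of_cx {𝒮 : Set J} {N : ℕ} {A B : J} {β x δ : List T} (h : Bd g 𝒮 N A (β ++ x ++ δ))
    (hc : Cx g A B β δ) : Bd g 𝒮 N B x := by
  intro D hD β' y δ' h1 h2 h3
  refine h D hD (β ++ β') y (δ' ++ δ) (hc.comp h1) h2 ?_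
  rw [← h3]
  simp [List.append_assoc]

end grammar

section values
variable {G J T Y : Type} [Group G]

@[simp] theorem ev_nil (π : T → G) : ev π [] = 1 := rfl
@[simp] theorem ev_cons (π : T → G) (a : T) (w : List T) : ev π (a :: w) = π a * ev π w := by
  simp [ev]
@[simp] theorem ev_append (π : T → G) (v w : List T) : ev π (v ++ w) = ev π v * ev π w := by
  simp [ev]
@[simp] theorem tw_nil (τ : Y → List T) : tw τ [] = [] := rfl
@[simp] theorem tw_cons (τ : Y → List T) (a : Y) (w : List Y) : tw τ (a :: w) = τ a ++ tw τ w := by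
  simp [tw]
@[simp] theorem tw_append (τ : Y → List T) (v w : List Y) : tw τ (v ++ w) = tw τ v ++ tw τ w := by
  simp [tw]

/-- `ev π (tw τ u)` is the value of `u` for the letter values `ev π (τ y)`. -/
theorem ev_tw (π : T → G) (τ : Y → List T) (u : List Y) :
    ev π (tw τ u) = ev (fun y => ev π (τ y)) u := by
  induction u with
  | nil => rfl
  | cons a u ih => simp [ih]

theorem tw_tw {X : Type} (τ : Y → List T) (σ : X → List Y) (u : List X) :
    tw τ (tw σ u) = tw (fun x => tw τ (σ x)) u := by
  induction u with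
  | nil => rfl
  | cons a u ih => simp [ih]

theorem ev_tw_mem (π : T → G) (τ : Y → List T) (u : List Y) : ev π (tw τ u) ∈ Gt π τ := by
  induction u with
  | nil => simpa using (Gt π τ).one_mem
  | cons a u ih =>
    rw [tw_cons, ev_append]
    exact (Gt π τ).mul_mem (Subgroup.subset_closure ⟨a, rfl⟩) ih

/-- In a torsion group every element of `Gt π τ` is the value of a positive word. -/
theorem exists_word (hG : ∀ x : G, IsOfFinOrder x) (π : T → G) (τ : Y → List T) {a : G}
    (ha : a ∈ Gt π τ) : ∃ u : List Y, ev π (tw τ u) = a := by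
  unfold Gt at ha
  induction ha using Subgroup.closure_induction with
  | mem x hx =>
    obtain ⟨y, rfl⟩ := hx
    exact ⟨[y], by simp⟩
  | one => exact ⟨[], by simp⟩
  | mul x y _ _ hx hy =>
    obtain ⟨u, rfl⟩ := hx
    obtain ⟨v, rfl⟩ := hy
    exact ⟨u ++ v, by simp⟩
  | inv x _ hx =>
    obtain ⟨u, rfl⟩ := hx
    have hpow : ∀ n : ℕ, ev π (tw τ (List.replicate n u).flatten) = ev π (tw τ u) ^ n := by
      intro n
      induction n with
      | zero => simp
      | succ n ih => rw [List.replicate_succ, List.flatten_cons, tw_append, ev_append, ih, pow_succ']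
    refine ⟨(List.replicate (orderOf (ev π (tw τ u)) - 1) u).flatten, ?_⟩
    rw [hpow]
    have h0 : 0 < orderOf (ev π (tw τ u)) := (hG _).orderOf_pos
    apply eq_inv_of_mul_eq_one_left
    rw [← pow_succ, Nat.sub_add_cancel h0, pow_orderOf_eq_one]

/-! ### Loops -/

variable {g : BG J T} {π : T → G} {A B : J}

theorem Lp.one : Lp g π A 1 1 := ⟨[], [], Cx.nil, rfl, rfl⟩

theorem Lp.mul {m n m' n' : G} (h : Lp g π A m n) (h' : Lp g π A m' n') :
    Lp g π A (m * m') (n' * n) := by
  obtain ⟨β, δ, h1, rfl, rfl⟩ := h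
  obtain ⟨β', δ', h2, rfl, rfl⟩ := h'
  exact ⟨_, _, h1.comp h2, by simp, by simp⟩

theorem Lp.pow {m n : G} (h : Lp g π A m n) (k : ℕ) : Lp g π A (m ^ k) (n ^ k) := by
  induction k with
  | zero => simpa using Lp.one
  | succ k ih =>
    rw [pow_succ, pow_succ']
    exact ih.mul h

theorem Lp.inv (hG : ∀ x : G, IsOfFinOrder x) {m n : G} (h : Lp g π A m n) :
    Lp g π A m⁻¹ n⁻¹ := by
  have hm : 0 < orderOf m := (hG m).orderOf_pos
  have hn : 0 < orderOf n := (hG n).orderOf_pos
  have hk : 0 < orderOf m * orderOf n := Nat.mul_pos hm hn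
  have e1 : m ^ (orderOf m * orderOf n - 1) = m⁻¹ := by
    apply eq_inv_of_mul_eq_one_left
    rw [← pow_succ, Nat.sub_add_cancel hk, pow_mul, pow_orderOf_eq_one, one_pow]
  have e2 : n ^ (orderOf m * orderOf n - 1) = n⁻¹ := by
    apply eq_inv_of_mul_eq_one_left
    rw [← pow_succ, Nat.sub_add_cancel hk, mul_comm, pow_mul, pow_orderOf_eq_one, one_pow]
  rw [← e1, ← e2]
  exact h.pow _

/-- The group `P_A` of the left values of loops with right value `1`. -/
def Pg (hG : ∀ x : G, IsOfFinOrder x) (g : BG J T) (π : T → G) (A : J) : Subgroup G where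
  carrier := {p | Lp g π A p 1}
  one_mem' := Lp.one
  mul_mem' := by
    intro a b ha hb
    simpa using ha.mul hb
  inv_mem' := by
    intro a ha
    simpa using ha.inv hG

/-- The group `Q_A` of the right values of loops with left value `1`. -/
def Qg (hG : ∀ x : G, IsOfFinOrder x) (g : BG J T) (π : T → G) (A : J) : Subgroup G where
  carrier := {q | Lp g π A 1 q}
  one_mem' := Lp.one
  mul_mem' := by
    intro a b ha hb
    simpa using Lp.mul hb ha
  inv_mem' := by
    intro a ha
    simpa using ha.inv hG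

/-- The group of the left values of loops. -/
def Ml (hG : ∀ x : G, IsOfFinOrder x) (g : BG J T) (π : T → G) (A : J) : Subgroup G where
  carrier := {m | ∃ n, Lp g π A m n}
  one_mem' := ⟨1, Lp.one⟩
  mul_mem' := by
    rintro a b ⟨n, ha⟩ ⟨n', hb⟩
    exact ⟨_, ha.mul hb⟩
  inv_mem' := by
    rintro a ⟨n, ha⟩
    exact ⟨_, ha.inv hG⟩

variable {hG : ∀ x : G, IsOfFinOrder x}

theorem mem_Pg {p : G} : p ∈ Pg hG g π A ↔ Lp g π A p 1 := Iff.rfl
theorem mem_Qg {q : G} : q ∈ Qg hG g π A ↔ Lp g π A 1 q := Iff.rfl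
theorem mem_Ml {m : G} : m ∈ Ml hG g π A ↔ ∃ n, Lp g π A m n := Iff.rfl

end values

section conj
variable {G : Type} [Group G]

theorem mem_cj {a x : G} {H : Subgroup G} : x ∈ cj a H ↔ a⁻¹ * x * a ∈ H := by
  unfold cj
  rw [Subgroup.mem_map]
  constructor
  · rintro ⟨y, hy, rfl⟩
    have : a⁻¹ * (MulAut.conj a).toMonoidHom y * a = y := by
      simp [mul_assoc]
    rw [this]
    exact hy
  · intro h
    exact ⟨_, h, by simp [mul_assoc]⟩

theorem cj_cj (a b : G) (H : Subgroup G) : cj a (cj b H) = cj (a * b) H := by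
  ext x
  rw [mem_cj, mem_cj, mem_cj]
  simp [mul_assoc]

theorem cj_one (H : Subgroup G) : cj 1 H = H := by
  ext x
  simp [mem_cj]

theorem cj_mono {a : G} {H K : Subgroup G} (h : H ≤ K) : cj a H ≤ cj a K := by
  intro x hx
  rw [mem_cj] at hx ⊢
  exact h hx

theorem cj_self {b : G} {K : Subgroup G} (hb : b ∈ K) : cj b K = K := by
  ext x
  rw [mem_cj]
  constructor
  · intro h
    have := K.mul_mem (K.mul_mem hb h) (K.inv_mem hb)
    simpa [mul_assoc] using this
  · intro h
    exact K.mul_mem (K.mul_mem (K.inv_mem hb) h) hb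

/-- conjugation by an element of `K` does not change the relative index in `K` -/
theorem relIndex_cj {b : G} {H K : Subgroup G} (hb : b ∈ K) :
    (cj b H).relIndex K = H.relIndex K := by
  have h1 : (cj b H).relIndex (cj b K) = H.relIndex K := by
    unfold cj
    exact Subgroup.relIndex_map_map_of_injective _ _ (MulAut.conj b).injective
  rwa [cj_self hb] at h1

end conj

end Pool.Helper49.TG
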