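import Mathlib

/-!
# TG-F: the mismatch of the phases

A line is divided into blocks `j = 0, 1, …, K - 1`, from `a j` to `a (j + 1)`; block `j` consists of
a piece of length `y j ≤ T`, then `n 0` tokens of length `l 0` (run 0), then `n 1` tokens of length
`l 1` (run 1), then `n 2` tokens of length `l 2` (run 2); run `i` of block `j` starts at
`st y l n a i j` and ends at `st y l n a (i + 1) j`, and `a (j + 1) = st y l n a 3 j`.
`dL`, `dR` are monotone interval functions, which are `≤ l i + 1` on runs `i = 0, 1` and `> b i` on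
tokens of run `i`.  A left pointer `s` moves to the right, a right pointer `e` to the left, in steps
`≤ N`, and the values of `dL`, `dR` on the parts covered in the same time differ at most by the
factor `c`.  Claim: `e 0 - s 0` is bounded.

Proof.  Write `c₁ j = st 0 j`, `c₂ j = st 1 j`, `c₃ j = st 2 j` (starts of the runs),
`P = T + n 0 l 0 + n 1 l 1 + n 2 l 2 ≥` the length of each block.  `dR < 2` on a single point, so:
(M) if the left pointer passes a complete token in the time `[t₁, t₂]`, i.e. `s t₁ ≤` start and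
end `≤ s t₂`, then `e t₂ < e t₁`: `c * dR ≥ dL > b i ≥ c`, so `dR ≥ 2` (`b 0 ≥ c`,
`b 1 ≥ c (l 0 + 1) ≥ c`, `b 2 ≥ c`).  Likewise, if the right pointer passes a complete token then
the left one moves.
For `s 0 ≤ v ≤ s k` let `F v` be the first `t` with `v ≤ s t` and `H v` the last `t ≤ k` with
`s t ≤ v`; `s (F v) ≤ v + N`, and `v ≤ s (H v) + N` (if `H v = k` then `v ≤ s k`).

Step 1: `s k < s 0 + 2 P`.  Suppose not.  Let `j` be least with `s 0 ≤ a j`; then `a j < s 0 + P`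
(or `j = 0`), `a (j + 1) ≤ s k`, and `j < K` since `s k ≤ e k ≤ e 0 ≤ a K` and `a` is strictly
increasing.  Let `t_a = F (c₁ j)`, `t_b = H (c₂ j)`, `t_c = H (c₃ j)`, and `t_b' = t_b` if
`s t_b = c₂ j`, `t_b' = t_b + 1` otherwise; so `c₂ j ≤ s t_b' ≤ c₂ j + N` and
`e t_b - N ≤ e t_b' ≤ e t_b`.
(i) On the time `[t_a, t_b]` the left pointer is in run 0, `dL ≤ l 0 + 1`, so
`dR (e t_b) (e t_a) ≤ c (l 0 + 1) ≤ b 1, b 2`: the interval `[e t_b, e t_a]` contains no complete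
token of a run 1 or 2.
(ii) `M₁`: with `u_i = F (c₁ j + 2 i l 0)`, `i = 0, …, I`, `I = (n 0 - 1) / 2`, the left pointer
passes a token of run 0 in `[u_i, u_{i+1}]` (the token starting at `c₁ j + (2 i + 1) l 0`; `N ≤ l 0`),
so `e` decreases by at least one each time and `e t_a - e t_b ≥ I`.  (`u_I ≤ t_b` since
`s (u_I) ≤ c₁ j + 2 I l 0 + N ≤ c₂ j`.)
(iii) Let `v = e t_b`.  There is `j' < K` with `v ≤ c₂ j'` and `a j' ≤ v + 2 l 2`: let `j''` be the
block with `a j'' ≤ v < a (j'' + 1)`.  If `v ≤ c₂ j''` take `j' = j''`.  If `c₂ j'' < v < c₃ j''`,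
then the interval `[v, v + I]`, `I ≥ 2 l 1 + 2 l 2`, contains the next complete token of run 1, or,
if `v + 2 l 1 > c₃ j''`, the first token of run 2: against (i).  If `c₃ j'' ≤ v`, then either
`v + 2 l 2 ≤ a (j'' + 1)` and it contains a complete token of run 2, against (i), or
`v + 2 l 2 > a (j'' + 1)` and `j' = j'' + 1` works; `j' < K` since
`a (j'' + 1) < v + I ≤ e t_a ≤ a K`.
(iv) There is `t₁ ∈ [t_b', t_c]` with `e t₁ ≤ c₁ j'` and `s t₁ ≤ c₂ j + 3 l 1`.  If `e t_b' ≤ c₁ j'`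
take `t₁ = t_b'` (`s t_b' ≤ c₂ j + N`).  Otherwise let `t_d` be the last time in `[t_b', t_c]` with
`c₁ j' ≤ e t_d`; in the time `[t_b', t_d]` the right pointer is in run 0 of block `j'`
(`e t_b' ≤ e t_b = v ≤ c₂ j'`), so `dL ≤ c (l 0 + 1) ≤ b 1` on `[s t_b', s t_d]`; this interval starts
at `≤ c₂ j + N ≤ c₂ j + l 1`, so if `s t_d ≥ c₂ j + 2 l 1` it would contain the token
`[c₂ j + l 1, c₂ j + 2 l 1]`; hence `s t_d < c₂ j + 2 l 1 < c₃ j - N ≤ s t_c`, so `t_d < t_c` and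
`t₁ = t_d + 1` has `e t₁ < c₁ j'` and `s t₁ ≤ c₂ j + 2 l 1 + N`.
(v) In the time `[t₁, t_c]` the left pointer passes from `≤ c₂ j + 3 l 1` to `≥ c₃ j - N`; as in (ii)
(now with the first `t ≥ t₁` with `c₂ j + (3 + 2 i) l 1 ≤ s t`) `e` decreases by at least
`I' = (n 1 - 6) / 2`.
(vi) In the time `[t_b', t_c]` the left pointer is in run 1, so `dR (e t_c) (e t_b') ≤ c (l 1 + 1) ≤
b 2`, so `[e t_c, e t_b']` contains no complete token of a run 2.  But
`e t_c ≤ e t₁ - I' ≤ c₁ j' - I' ≤ a j' + T - I' ≤ a j' - 4 l 2` (in particular `j' ≠ 0`), and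
`e t_b' ≥ e t_b - N ≥ a j' - 3 l 2`.  So it contains the token
`[a j' - 4 l 2, a j' - 3 l 2]` of run 2 of block `j' - 1` (`n 2 ≥ 4`).  Contradiction.

Step 2: `e 0 - e k ≤ (2 P + 3) P`.  Suppose not.  Then `[e k, e 0]` contains at least `2 P + 1`
complete blocks.  While the right pointer passes a block, it passes complete tokens of run 0
(`n 0 ≥ 3`), so the left pointer moves; the times are disjoint for different blocks, so
`s k - s 0 ≥ 2 P`, against step 1.  Hence `e 0 - s 0 = (e 0 - e k) + (e k - s k) + (s k - s 0)` is at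
most `Λ = (2 P + 3) P + 2 N + 1 + 2 P`.
-/

set_option autoImplicit false

namespace Pool.Helper49.TG

/-- The start of run `i` in block `j`. -/
def st (y l n a : ℕ → ℕ) (i j : ℕ) : ℕ := a j + y j + ∑ i' ∈ Finset.range i, n i' * l i'

private lemma monoS24 {s : ℕ → ℕ} {k : ℕ} (hs : ∀ t < k, s t ≤ s (t + 1)) :
    ∀ t₁ t₂, t₁ ≤ t₂ → t₂ ≤ k → s t₁ ≤ s t₂ := by
  intro t₁ t₂ h12 h2
  induction t₂, h12 using Nat.le_induction with
  | base => exact le_rfl
  | succ t _ ih => exact (ih (by omega)).trans (hs t (by omega))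

private lemma antiE24 {e : ℕ → ℕ} {k : ℕ} (he : ∀ t < k, e (t + 1) ≤ e t) :
    ∀ t₁ t₂, t₁ ≤ t₂ → t₂ ≤ k → e t₂ ≤ e t₁ := by
  intro t₁ t₂ h12 h2
  induction t₂, h12 using Nat.le_induction with
  | base => exact le_rfl
  | succ t _ ih => exact (he t (by omega)).trans (ih (by omega))

private lemma splitS24 {s : ℕ → ℕ} {k N : ℕ}
    (hs : ∀ t < k, s t ≤ s (t + 1) ∧ s (t + 1) ≤ s t + N) {t₀ t₁ v : ℕ} (h01 : t₀ ≤ t₁)
    (h1 : t₁ ≤ k) (hv0 : s t₀ ≤ v) (hv1 : v ≤ s t₁) :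
    ∃ t t', t₀ ≤ t ∧ t ≤ t' ∧ t' ≤ t + 1 ∧ t' ≤ t₁ ∧ s t ≤ v ∧ v ≤ s t' ∧ s t' ≤ v + N ∧
      v ≤ s t + N := by
  classical
  have hex : ∃ t', t₀ ≤ t' ∧ v ≤ s t' := ⟨t₁, h01, hv1⟩
  obtain ⟨h2, h3⟩ := Nat.find_spec hex
  have h4 : Nat.find hex ≤ t₁ := Nat.find_min' hex ⟨h01, hv1⟩
  rcases Nat.eq_or_lt_of_le h2 with h5 | h5
  · refine ⟨t₀, t₀, le_rfl, le_rfl, by omega, h01, hv0, ?_, by omega, ?_⟩
    · rw [h5]; exact h3
    · rw [← h5] at h3; omega
  · have h6 : ¬ (t₀ ≤ Nat.find hex - 1 ∧ v ≤ s (Nat.find hex - 1)) :=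
      Nat.find_min hex (by omega)
    have h7 : s (Nat.find hex - 1) < v := by
      by_contra h
      exact h6 ⟨by omega, by omega⟩
    have h8 := hs (Nat.find hex - 1) (by omega)
    have h9 : Nat.find hex - 1 + 1 = Nat.find hex := by omega
    rw [h9] at h8
    exact ⟨Nat.find hex - 1, Nat.find hex, by omega, by omega, by omega, h4, by omega, h3,
      by omega, by omega⟩

private lemma splitE24 {e : ℕ → ℕ} {k N : ℕ}
    (he : ∀ t < k, e (t + 1) ≤ e t ∧ e t ≤ e (t + 1) + N) {t₀ t₁ v : ℕ} (h01 : t₀ ≤ t₁)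
    (h1 : t₁ ≤ k) (hv0 : v ≤ e t₀) (hv1 : e t₁ ≤ v) :
    ∃ t t', t₀ ≤ t ∧ t ≤ t' ∧ t' ≤ t + 1 ∧ t' ≤ t₁ ∧ v ≤ e t ∧ e t' ≤ v ∧ v ≤ e t' + N ∧
      e t ≤ v + N := by
  classical
  have hex : ∃ t', t₀ ≤ t' ∧ e t' ≤ v := ⟨t₁, h01, hv1⟩
  obtain ⟨h2, h3⟩ := Nat.find_spec hex
  have h4 : Nat.find hex ≤ t₁ := Nat.find_min' hex ⟨h01, hv1⟩
  rcases Nat.eq_or_lt_of_le h2 with h5 | h5
  · refine ⟨t₀, t₀, le_rfl, le_rfl, by omega, h01, hv0, ?_, by omega, ?_⟩
    · rw [h5]; exact h3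
    · rw [← h5] at h3; omega
  · have h6 : ¬ (t₀ ≤ Nat.find hex - 1 ∧ e (Nat.find hex - 1) ≤ v) :=
      Nat.find_min hex (by omega)
    have h7 : v < e (Nat.find hex - 1) := by
      by_contra h
      exact h6 ⟨by omega, by omega⟩
    have h8 := he (Nat.find hex - 1) (by omega)
    have h9 : Nat.find hex - 1 + 1 = Nat.find hex := by omega
    rw [h9] at h8
    exact ⟨Nat.find hex - 1, Nat.find hex, by omega, by omega, by omega, h4, by omega, h3,
      by omega, by omega⟩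

private lemma next24 {x v l : ℕ} (hx : x ≤ v) (hl : 1 ≤ l) :
    ∃ r, v ≤ x + r * l ∧ x + r * l < v + l := by
  refine ⟨(v - x + l - 1) / l, ?_, ?_⟩
  · have h1 := Nat.div_add_mod (v - x + l - 1) l
    have h2 := Nat.mod_lt (v - x + l - 1) (by omega : l > 0)
    rw [Nat.mul_comm] at h1
    omega
  · have h1 := Nat.div_add_mod (v - x + l - 1) l
    rw [Nat.mul_comm] at h1
    omega

/-- passing a token: the other pointer moves -/
private lemma two24 {c b d d' : ℕ} (hc : c ≤ b) (hb : b < d) (hd : d ≤ c * d') : 2 ≤ d' := by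
  by_contra h
  have h1 : d' ≤ 1 := by omega
  have h2 : c * d' ≤ c * 1 := Nat.mul_le_mul_left c h1
  omega

private lemma passS24 {s e : ℕ → ℕ} {k N c b l x R : ℕ} {dL dR : ℕ → ℕ → ℕ}
    (hs : ∀ t < k, s t ≤ s (t + 1) ∧ s (t + 1) ≤ s t + N)
    (he : ∀ t < k, e (t + 1) ≤ e t ∧ e t ≤ e (t + 1) + N)
    (hmL : ∀ p q p' q', p' ≤ p → q ≤ q' → dL p q ≤ dL p' q') (h1R : ∀ p, dR p p ≤ 1)
    (hcmp : ∀ t₁ t₂, t₁ ≤ t₂ → t₂ ≤ k → dL (s t₁) (s t₂) ≤ c * dR (e t₂) (e t₁))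
    (hcb : c ≤ b) (hNl : N ≤ l)
    (htok : ∀ r < R, b < dL (x + r * l) (x + (r + 1) * l)) {t₁ t₂ : ℕ} (h12 : t₁ ≤ t₂)
    (h2k : t₂ ≤ k) (hst : s t₁ ≤ x + l) :
    ∀ I : ℕ, x + 2 * I * l ≤ s t₂ → 2 * I ≤ R → e t₂ + I ≤ e t₁ := by
  have key : ∀ I : ℕ, x + 2 * I * l ≤ s t₂ → 2 * I ≤ R →
      ∃ u, t₁ ≤ u ∧ u ≤ t₂ ∧ s u ≤ x + 2 * I * l + l ∧ e u + I ≤ e t₁ := by
    intro I
    induction I with
    | zero => intro _ _; exact ⟨t₁, le_rfl, h12, by omega, by omega⟩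
    | succ I ih =>
      intro h1 h2
      have e1 : 2 * (I + 1) * l = 2 * I * l + l + l := by ring
      have e2 : (2 * I + 1) * l = 2 * I * l + l := by ring
      have e3 : (2 * I + 1 + 1) * l = 2 * I * l + l + l := by ring
      rw [e1] at h1
      obtain ⟨u, hu1, hu2, hu3, hu4⟩ := ih (by omega) (by omega)
      obtain ⟨t, t', a1, a2, a3, a4, a5, a6, a7, a8⟩ :=
        splitS24 hs (v := x + (2 * I * l + l + l)) hu2 h2k (by omega) h1
      refine ⟨t', by omega, a4, by rw [e1]; omega, ?_⟩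
      have h3 := htok (2 * I + 1) (by omega)
      rw [e2, e3] at h3
      have h4 : dL (x + (2 * I * l + l)) (x + (2 * I * l + l + l)) ≤ dL (s u) (s t') :=
        hmL _ _ _ _ (by omega) a6
      have h5 := hcmp u t' (by omega) (by omega)
      have h6 := two24 hcb h3 (h4.trans h5)
      have h7 : e t' ≤ e u := antiE24 (fun t ht => (he t ht).1) u t' (by omega) (by omega)
      have h8 : e t' ≠ e u := by
        intro h
        have := h1R (e u)
        rw [h] at h6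
        omega
      omega
  intro I h1 h2
  obtain ⟨u, hu1, hu2, -, hu4⟩ := key I h1 h2
  have := antiE24 (fun t ht => (he t ht).1) u t₂ hu2 h2k
  omega

private lemma aMono24 {a : ℕ → ℕ} (ha : ∀ j, a j < a (j + 1)) : StrictMono a :=
  strictMono_nat_of_lt_succ ha

private lemma step1_24 (N T c l0 l1 l2 n0 n1 n2 b0 b1 b2 : ℕ) (hN : 1 ≤ N) (hNl : N ≤ l0)
    (hl01 : l0 ≤ l1) (hl12 : l1 ≤ l2) (hb0 : c ≤ b0) (hb1 : c * (l0 + 1) ≤ b1)
    (hb2 : c * (l1 + 1) ≤ b2) (hn0 : 4 * l1 + 4 * l2 + 20 ≤ n0)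
    (hn1 : 2 * T + 8 * l2 + 20 ≤ n1) (hn2 : 4 ≤ n2) (K : ℕ) (a y c1 c2 c3 : ℕ → ℕ)
    (ha0 : a 0 = 0) (hy : ∀ j, y j ≤ T) (hc1 : ∀ j, c1 j = a j + y j)
    (hc2 : ∀ j, c2 j = c1 j + n0 * l0) (hc3 : ∀ j, c3 j = c2 j + n1 * l1)
    (ha : ∀ j, a (j + 1) = c3 j + n2 * l2) (dL dR : ℕ → ℕ → ℕ)
    (hmL : ∀ p q p' q', p' ≤ p → q ≤ q' → dL p q ≤ dL p' q')
    (hmR : ∀ p q p' q', p' ≤ p → q ≤ q' → dR p q ≤ dR p' q')
    (h1R : ∀ p, dR p p ≤ 1)
    (r0L : ∀ j < K, dL (c1 j) (c2 j) ≤ l0 + 1) (r0R : ∀ j < K, dR (c1 j) (c2 j) ≤ l0 + 1)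
    (r1L : ∀ j < K, dL (c2 j) (c3 j) ≤ l1 + 1)
    (t0L : ∀ j < K, ∀ r < n0, b0 < dL (c1 j + r * l0) (c1 j + (r + 1) * l0))
    (t1L : ∀ j < K, ∀ r < n1, b1 < dL (c2 j + r * l1) (c2 j + (r + 1) * l1))
    (t1R : ∀ j < K, ∀ r < n1, b1 < dR (c2 j + r * l1) (c2 j + (r + 1) * l1))
    (t2R : ∀ j < K, ∀ r < n2, b2 < dR (c3 j + r * l2) (c3 j + (r + 1) * l2))
    (k : ℕ) (s e : ℕ → ℕ)
    (hs : ∀ t < k, s t ≤ s (t + 1) ∧ s (t + 1) ≤ s t + N)
    (he : ∀ t < k, e (t + 1) ≤ e t ∧ e t ≤ e (t + 1) + N)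
    (hse : s k ≤ e k) (heK : e 0 ≤ a K)
    (hcmpL : ∀ t₁ t₂, t₁ ≤ t₂ → t₂ ≤ k → dL (s t₁) (s t₂) ≤ c * dR (e t₂) (e t₁))
    (hcmpR : ∀ t₁ t₂, t₁ ≤ t₂ → t₂ ≤ k → dR (e t₂) (e t₁) ≤ c * dL (s t₁) (s t₂)) :
    s k < s 0 + 2 * (T + n0 * l0 + n1 * l1 + n2 * l2) := by
  classical
  by_contra hcon
  have hmonoS := monoS24 (fun t ht => (hs t ht).1)
  have hantiE := antiE24 (fun t ht => (he t ht).1)
  set m0 := n0 * l0 with hm0
  set m1 := n1 * l1 with hm1
  set m2 := n2 * l2 with hm2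
  have hl0 : 1 ≤ l0 := hN.trans hNl
  have hm0' : (n0 - 1) * l0 + l0 = m0 := by
    rw [hm0]
    obtain ⟨n, rfl⟩ : ∃ n, n0 = n + 1 := ⟨n0 - 1, by omega⟩
    simp only [Nat.add_sub_cancel]
    ring
  have hm1' : (n1 - 3) * l1 + l1 + l1 + l1 = m1 := by
    rw [hm1]
    obtain ⟨n, rfl⟩ : ∃ n, n1 = n + 3 := ⟨n1 - 3, by omega⟩
    simp only [Nat.add_sub_cancel]
    ring
  have hm2' : (n2 - 4) * l2 + l2 + l2 + l2 + l2 = m2 := by
    rw [hm2]
    obtain ⟨n, rfl⟩ : ∃ n, n2 = n + 4 := ⟨n2 - 4, by omega⟩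
    simp only [Nat.add_sub_cancel]
    ring
  have hamono : StrictMono a := aMono24 (fun j => by
    rw [ha, hc3, hc2, hc1]; omega)
  have haP : ∀ j, a (j + 1) ≤ a j + (T + m0 + m1 + m2) := by
    intro j
    have := hy j
    rw [ha, hc3, hc2, hc1]
    omega
  -- the block
  have hex : ∃ j, s 0 ≤ a j := ⟨s 0, hamono.le_apply⟩
  obtain ⟨j, hj, hjmin⟩ : ∃ j, s 0 ≤ a j ∧ ∀ i < j, ¬ s 0 ≤ a i :=
    ⟨Nat.find hex, Nat.find_spec hex, fun i hi => Nat.find_min hex hi⟩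
  have haj : a j ≤ s 0 + (T + m0 + m1 + m2) := by
    rcases j with _ | j
    · rw [ha0]; omega
    · have h1 := hjmin j (by omega)
      have h2 := haP j
      omega
  have haj1 : a (j + 1) ≤ s k := by
    have := haP j
    omega
  have hjK : j < K := by
    have h1 : a (j + 1) ≤ a K := by
      have := hantiE 0 k (by omega) le_rfl
      omega
    have := hamono.le_iff_le.1 h1
    omega
  have q1 := hc1 j
  have q2 := hc2 j
  have q3 := hc3 j
  have q4 := ha j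
  -- the times
  obtain ⟨ta0, ta, _, p2, _, p4, _, p6, p7, _⟩ :=
    splitS24 hs (t₀ := 0) (t₁ := k) (v := c1 j) (by omega) le_rfl (by omega) (by omega)
  obtain ⟨tb, tb', r1, r2, r3, r4, r5, r6, r7, r8⟩ :=
    splitS24 hs (t₀ := ta) (t₁ := k) (v := c2 j) p4 le_rfl (by omega) (by omega)
  obtain ⟨tc, tc', z1, z2, z3, z4, z5, z6, z7, z8⟩ :=
    splitS24 hs (t₀ := tb') (t₁ := k) (v := c3 j) r4 le_rfl (by omega) (by omega)
  -- (i)
  have hi : dR (e tb) (e ta) ≤ b1 := by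
    have h1 := hcmpR ta tb r1 (by omega)
    have h2 : dL (s ta) (s tb) ≤ l0 + 1 := (hmL _ _ _ _ p6 r5).trans (r0L j hjK)
    exact (h1.trans (Nat.mul_le_mul_left c h2)).trans hb1
  have hb12 : c * (l0 + 1) ≤ b2 := (Nat.mul_le_mul_left c (by omega)).trans hb2
  have hi2 : dR (e tb) (e ta) ≤ b2 := by
    have h1 := hcmpR ta tb r1 (by omega)
    have h2 : dL (s ta) (s tb) ≤ l0 + 1 := (hmL _ _ _ _ p6 r5).trans (r0L j hjK)
    exact (h1.trans (Nat.mul_le_mul_left c h2)).trans hb12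
  -- (ii)
  obtain ⟨I, hI⟩ : ∃ I, I = (n0 - 1) / 2 := ⟨_, rfl⟩
  have hI2 : 2 * I ≤ n0 - 1 := by omega
  have hI3 : 2 * l1 + 2 * l2 ≤ I := by omega
  have hii : e tb + I ≤ e ta := by
    refine passS24 hs he hmL h1R hcmpL hb0 hNl (t0L j hjK) r1 (by omega) (by omega) I ?_
      (by omega)
    have : 2 * I * l0 ≤ (n0 - 1) * l0 := Nat.mul_le_mul_right l0 hI2
    omega
  have heta : e ta ≤ a K := (hantiE 0 ta (by omega) (by omega)).trans heK
  -- (iii)
  obtain ⟨j', hj'K, hj'1, hj'2⟩ : ∃ j' < K, e tb ≤ c2 j' ∧ a j' ≤ e tb + 2 * l2 := by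
    have hex2 : ∃ i, e tb < a i := ⟨K, by omega⟩
    obtain ⟨i, hi1, hi2⟩ : ∃ i, e tb < a i ∧ ∀ i' < i, ¬ e tb < a i' :=
      ⟨Nat.find hex2, Nat.find_spec hex2, fun i hi => Nat.find_min hex2 hi⟩
    have hi0 : i ≠ 0 := by
      rintro rfl
      rw [ha0] at hi1
      omega
    obtain ⟨i, rfl⟩ : ∃ i', i = i' + 1 := ⟨i - 1, by omega⟩
    have hia : a i ≤ e tb := by
      have := hi2 i (by omega)
      omega
    have hiK : i < K := by
      have : a i < a K := by omega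
      exact hamono.lt_iff_lt.1 this
    have w1 := hc1 i
    have w2 := hc2 i
    have w3 := hc3 i
    have w4 := ha i
    rcases Nat.lt_or_ge (c2 i) (e tb) with hcase | hcase
    · rcases Nat.lt_or_ge (e tb) (c3 i) with hcase2 | hcase2
      · -- run 1
        exfalso
        obtain ⟨r, hr1, hr2⟩ := next24 (x := c2 i) (v := e tb) (l := l1) (by omega) (by omega)
        rcases Nat.lt_or_ge r n1 with hr | hr
        · have h1 := t1R i hiK r hr
          have e1 : (r + 1) * l1 = r * l1 + l1 := by ring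
          rw [e1] at h1
          have h2 : dR (c2 i + r * l1) (c2 i + (r * l1 + l1)) ≤ dR (e tb) (e ta) :=
            hmR _ _ _ _ hr1 (by omega)
          omega
        · have h0 : n1 * l1 ≤ r * l1 := Nat.mul_le_mul_right l1 hr
          have h1 := t2R i hiK 0 (by omega)
          have h2 : dR (c3 i + 0 * l2) (c3 i + (0 + 1) * l2) ≤ dR (e tb) (e ta) :=
            hmR _ _ _ _ (by omega) (by omega)
          omega
      · -- run 2
        obtain ⟨r, hr1, hr2⟩ := next24 (x := c3 i) (v := e tb) (l := l2) hcase2 (by omega)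
        rcases Nat.lt_or_ge r n2 with hr | hr
        · exfalso
          have h1 := t2R i hiK r hr
          have e1 : (r + 1) * l2 = r * l2 + l2 := by ring
          rw [e1] at h1
          have h2 : dR (c3 i + r * l2) (c3 i + (r * l2 + l2)) ≤ dR (e tb) (e ta) :=
            hmR _ _ _ _ hr1 (by omega)
          omega
        · have h0 : n2 * l2 ≤ r * l2 := Nat.mul_le_mul_right l2 hr
          have w5 := hc1 (i + 1)
          have w6 := hc2 (i + 1)
          refine ⟨i + 1, ?_, by omega, by omega⟩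
          have : a (i + 1) < a K := by omega
          exact hamono.lt_iff_lt.1 this
    · exact ⟨i, hiK, hcase, by omega⟩
  have v1 := hc1 j'
  have v2 := hc2 j'
  have v3 := hy j'
  have htb' : e tb' ≤ e tb := hantiE tb tb' r2 (by omega)
  have htbN : e tb ≤ e tb' + N := by
    rcases Nat.eq_or_lt_of_le r2 with h | h
    · rw [← h]; omega
    · have h2 : tb' = tb + 1 := by omega
      rw [h2]
      exact (he tb (by omega)).2
  -- the small token of run 1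
  have htok1 : ∀ u, tb' ≤ u → u ≤ k → c2 j + 2 * l1 ≤ s u → ¬ dR (e u) (e tb') ≤ l0 + 1 := by
    intro u hu huk hsu hd
    have h1 := hcmpL tb' u hu huk
    have h2 := (h1.trans (Nat.mul_le_mul_left c hd)).trans hb1
    have h3 := t1L j hjK 1 (by omega)
    have h4 : dL (c2 j + 1 * l1) (c2 j + (1 + 1) * l1) ≤ dL (s tb') (s u) :=
      hmL _ _ _ _ (by omega) (by omega)
    omega
  -- (iv)
  obtain ⟨t1, h11, h12, h13, h14⟩ : ∃ t1, tb' ≤ t1 ∧ t1 ≤ tc ∧ e t1 ≤ c1 j' ∧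
      s t1 ≤ c2 j + 3 * l1 := by
    rcases Nat.lt_or_ge (c1 j') (e tb') with hA | hA
    · rcases Nat.lt_or_ge (c1 j') (e tc) with hB | hB
      · exfalso
        refine htok1 tc z1 (by omega) (by omega) ?_
        exact (hmR _ _ _ _ hB.le (by omega)).trans (r0R j' hj'K)
      · obtain ⟨td, td', g1, g2, g3, g4, g5, g6, g7, g8⟩ :=
          splitE24 he (t₀ := tb') (t₁ := tc) (v := c1 j') z1 (by omega) hA.le hB
        refine ⟨td', by omega, g4, g6, ?_⟩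
        have h1 : s td < c2 j + 2 * l1 := by
          by_contra h
          refine htok1 td g1 (by omega) (by omega) ?_
          exact (hmR _ _ _ _ g5 (by omega)).trans (r0R j' hj'K)
        rcases Nat.eq_or_lt_of_le g2 with h | h
        · rw [← h]; omega
        · have h2 : td' = td + 1 := by omega
          have h3 := (hs td (by omega)).2
          rw [h2]
          omega
    · exact ⟨tb', le_rfl, z1, hA, by omega⟩
  -- (v)
  obtain ⟨I', hI'⟩ : ∃ I', I' = (n1 - 3) / 2 := ⟨_, rfl⟩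
  have hv : e tc + I' ≤ e t1 := by
    have hcb1 : c ≤ b1 := by
      have : c * 1 ≤ c * (l0 + 1) := Nat.mul_le_mul_left c (by omega)
      omega
    refine passS24 (x := c2 j + 2 * l1) (l := l1) (R := n1 - 2) (b := b1) hs he hmL h1R hcmpL
      hcb1 (by omega) ?_ h12 (by omega) (by omega) I' ?_ (by omega)
    · intro r hr
      have h1 := t1L j hjK (r + 2) (by omega)
      have e1 : c2 j + (r + 2) * l1 = c2 j + 2 * l1 + r * l1 := by ring
      have e2 : c2 j + (r + 2 + 1) * l1 = c2 j + 2 * l1 + (r + 1) * l1 := by ring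
      rw [e1, e2] at h1
      exact h1
    · have h1 : 2 * I' * l1 ≤ (n1 - 3) * l1 := Nat.mul_le_mul_right l1 (by omega)
      omega
  -- (vi)
  have hvi : dR (e tc) (e tb') ≤ b2 := by
    have h1 := hcmpR tb' tc z1 (by omega)
    have h2 : dL (s tb') (s tc) ≤ l1 + 1 := (hmL _ _ _ _ r6 z5).trans (r1L j hjK)
    exact (h1.trans (Nat.mul_le_mul_left c h2)).trans hb2
  have hj'0 : j' ≠ 0 := by
    rintro rfl
    omega
  obtain ⟨i, rfl⟩ : ∃ i, j' = i + 1 := ⟨j' - 1, by omega⟩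
  have h1 := t2R i (by omega) (n2 - 4) (by omega)
  have e1 : (n2 - 4 + 1) * l2 = (n2 - 4) * l2 + l2 := by ring
  rw [e1] at h1
  have u1 := ha i
  have h2 : dR (c3 i + (n2 - 4) * l2) (c3 i + ((n2 - 4) * l2 + l2)) ≤ dR (e tc) (e tb') :=
    hmR _ _ _ _ (by omega) (by omega)
  omega

private lemma step2_24 (N c l0 n0 b0 P : ℕ) (hN : 1 ≤ N) (hNl : N ≤ l0) (hb0 : c ≤ b0)
    (hn0 : 20 ≤ n0) (K : ℕ) (a y c1 : ℕ → ℕ) (hc1 : ∀ j, c1 j = a j + y j)
    (ha : ∀ j, c1 j + n0 * l0 ≤ a (j + 1)) (haP : ∀ j, a (j + 1) ≤ a j + P) (ha0 : a 0 = 0)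
    (dL dR : ℕ → ℕ → ℕ)
    (hmR : ∀ p q p' q', p' ≤ p → q ≤ q' → dR p q ≤ dR p' q') (h1L : ∀ p, dL p p ≤ 1)
    (t0R : ∀ j < K, ∀ r < n0, b0 < dR (c1 j + r * l0) (c1 j + (r + 1) * l0))
    (k : ℕ) (s e : ℕ → ℕ)
    (hs : ∀ t < k, s t ≤ s (t + 1) ∧ s (t + 1) ≤ s t + N)
    (he : ∀ t < k, e (t + 1) ≤ e t ∧ e t ≤ e (t + 1) + N) (heK : e 0 ≤ a K)
    (hcmpR : ∀ t₁ t₂, t₁ ≤ t₂ → t₂ ≤ k → dR (e t₂) (e t₁) ≤ c * dL (s t₁) (s t₂))
    (hstep1 : s k < s 0 + 2 * P) : e 0 ≤ e k + (2 * P + 3) * P := by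
  classical
  by_contra hcon
  have hmonoS := monoS24 (fun t ht => (hs t ht).1)
  have hantiE := antiE24 (fun t ht => (he t ht).1)
  have hl0 : 1 ≤ l0 := hN.trans hNl
  have hm0 : 20 * l0 ≤ n0 * l0 := Nat.mul_le_mul_right l0 hn0
  have hamono : StrictMono a := aMono24 (fun j => by
    have h1 := ha j
    have h2 := hc1 j
    omega)
  have hex : ∃ j, e k ≤ a j := ⟨e k, hamono.le_apply⟩
  obtain ⟨j, hj, hjmin⟩ : ∃ j, e k ≤ a j ∧ ∀ i < j, ¬ e k ≤ a i :=
    ⟨Nat.find hex, Nat.find_spec hex, fun i hi => Nat.find_min hex hi⟩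
  have haj : a j ≤ e k + P := by
    rcases j with _ | j
    · rw [ha0]; omega
    · have h1 := hjmin j (by omega)
      have h2 := haP j
      omega
  have hai : ∀ i, a (j + i) ≤ e k + P + i * P := by
    intro i
    induction i with
    | zero => simpa using haj
    | succ i ih =>
      have h1 := haP (j + i)
      have e1 : (i + 1) * P = i * P + P := by ring
      rw [← Nat.add_assoc, e1]
      omega
  have hJ : a (j + 2 * P) ≤ e 0 := by
    have h1 := hai (2 * P)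
    have e1 : (2 * P + 3) * P = 2 * P * P + P + P + P := by ring
    rw [e1] at hcon
    omega
  have hJK : j + 2 * P ≤ K := hamono.le_iff_le.1 (hJ.trans heK)
  have key : ∀ i ≤ 2 * P, ∃ u ≤ k, a (j + (2 * P - i)) ≤ e u ∧ s 0 + i ≤ s u := by
    intro i
    induction i with
    | zero =>
      intro _
      exact ⟨0, by omega, by simpa using hJ, by omega⟩
    | succ i ih =>
      intro hi
      obtain ⟨u, hu, hu1, hu2⟩ := ih (by omega)
      obtain ⟨J, hJ'⟩ : ∃ J, J = j + (2 * P - (i + 1)) := ⟨_, rfl⟩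
      have e1 : j + (2 * P - i) = J + 1 := by omega
      rw [e1] at hu1
      rw [← hJ']
      have hJ1 : a J ≤ a (J + 1) := (hamono (by omega)).le
      have hJ2 : a j ≤ a J := hamono.monotone (by omega)
      obtain ⟨t, t', g1, g2, g3, g4, g5, g6, g7, g8⟩ :=
        splitE24 he (t₀ := u) (t₁ := k) (v := a J) hu le_rfl (by omega) (by omega)
      refine ⟨t, by omega, g5, ?_⟩
      have h1 := t0R J (by omega) 1 (by omega)
      have h2 : dR (c1 J + 1 * l0) (c1 J + (1 + 1) * l0) ≤ dR (e t) (e u) := by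
        have w1 := hc1 J
        have w2 := ha J
        exact hmR _ _ _ _ (by omega) (by omega)
      have h3 := hcmpR u t g1 (by omega)
      have h4 := two24 hb0 h1 (h2.trans h3)
      have h5 : s u ≤ s t := hmonoS u t g1 (by omega)
      have h6 : s u ≠ s t := by
        intro h
        have := h1L (s u)
        rw [← h] at h4
        omega
      omega
  obtain ⟨u, hu, -, hu2⟩ := key (2 * P) le_rfl
  have := hmonoS u k hu le_rfl
  omega

theorem mismatch (N T c : ℕ) (l n b : ℕ → ℕ) (hN : 1 ≤ N) (hNl : N ≤ l 0) (hl01 : l 0 ≤ l 1)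
    (hl12 : l 1 ≤ l 2) (hb0 : c ≤ b 0) (hb1 : c * (l 0 + 1) ≤ b 1) (hb2 : c * (l 1 + 1) ≤ b 2)
    (hn0 : 4 * l 1 + 4 * l 2 + 20 ≤ n 0) (hn1 : 2 * T + 8 * l 2 + 20 ≤ n 1) (hn2 : 4 ≤ n 2) :
    ∃ Λ : ℕ, ∀ (K : ℕ) (a y : ℕ → ℕ), a 0 = 0 → (∀ j, y j ≤ T) →
      (∀ j, a (j + 1) = st y l n a 3 j) →
      ∀ dL dR : ℕ → ℕ → ℕ,
      (∀ p q p' q', p' ≤ p → q ≤ q' → dL p q ≤ dL p' q' ∧ dR p q ≤ dR p' q') →
      (∀ p, dL p p ≤ 1 ∧ dR p p ≤ 1) →
      (∀ j < K, ∀ i < 2, dL (st y l n a i j) (st y l n a (i + 1) j) ≤ l i + 1 ∧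
        dR (st y l n a i j) (st y l n a (i + 1) j) ≤ l i + 1) →
      (∀ j < K, ∀ i < 3, ∀ r < n i,
        b i < dL (st y l n a i j + r * l i) (st y l n a i j + (r + 1) * l i) ∧
        b i < dR (st y l n a i j + r * l i) (st y l n a i j + (r + 1) * l i)) →
      ∀ (k : ℕ) (s e : ℕ → ℕ),
      (∀ t < k, s t ≤ s (t + 1) ∧ s (t + 1) ≤ s t + N ∧ e (t + 1) ≤ e t ∧ e t ≤ e (t + 1) + N) →
      s k ≤ e k → e k ≤ s k + (2 * N + 1) → e 0 ≤ a K →
      (∀ t₁ t₂, t₁ ≤ t₂ → t₂ ≤ k → dL (s t₁) (s t₂) ≤ c * dR (e t₂) (e t₁) ∧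
        dR (e t₂) (e t₁) ≤ c * dL (s t₁) (s t₂)) →
      e 0 ≤ s 0 + Λ := by
  refine ⟨(2 * (T + n 0 * l 0 + n 1 * l 1 + n 2 * l 2) + 3) *
    (T + n 0 * l 0 + n 1 * l 1 + n 2 * l 2) + (2 * N + 1) +
    2 * (T + n 0 * l 0 + n 1 * l 1 + n 2 * l 2), ?_⟩
  intro K a y ha0 hy ha dL dR hm h1 hrun htok k s e hstep hsk hek heK hcmp
  have s0 : ∀ j, st y l n a 0 j = a j + y j := fun j => by simp [st]
  have s1 : ∀ j, st y l n a 1 j = a j + y j + n 0 * l 0 := fun j => by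
    simp [st, Finset.sum_range_succ]
  have s2 : ∀ j, st y l n a 2 j = a j + y j + n 0 * l 0 + n 1 * l 1 := fun j => by
    simp only [st, Finset.sum_range_succ, Finset.sum_range_zero, zero_add]
    ring
  have s3 : ∀ j, st y l n a 3 j = a j + y j + n 0 * l 0 + n 1 * l 1 + n 2 * l 2 := fun j => by
    simp only [st, Finset.sum_range_succ, Finset.sum_range_zero, zero_add]
    ring
  have hs : ∀ t < k, s t ≤ s (t + 1) ∧ s (t + 1) ≤ s t + N := fun t ht =>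
    ⟨(hstep t ht).1, (hstep t ht).2.1⟩
  have he : ∀ t < k, e (t + 1) ≤ e t ∧ e t ≤ e (t + 1) + N := fun t ht =>
    ⟨(hstep t ht).2.2.1, (hstep t ht).2.2.2⟩
  have hr0 : ∀ j < K, dL (a j + y j) (a j + y j + n 0 * l 0) ≤ l 0 + 1 ∧
      dR (a j + y j) (a j + y j + n 0 * l 0) ≤ l 0 + 1 := fun j hj => by
    have := hrun j hj 0 (by omega)
    rw [s0, show (0 : ℕ) + 1 = 1 from rfl, s1] at this
    exact this
  have hr1 : ∀ j < K, dL (a j + y j + n 0 * l 0) (a j + y j + n 0 * l 0 + n 1 * l 1) ≤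
      l 1 + 1 := fun j hj => by
    have := (hrun j hj 1 (by omega)).1
    rw [s1, show (1 : ℕ) + 1 = 2 from rfl, s2] at this
    exact this
  have ht0 : ∀ j < K, ∀ r < n 0,
      b 0 < dL (a j + y j + r * l 0) (a j + y j + (r + 1) * l 0) ∧
      b 0 < dR (a j + y j + r * l 0) (a j + y j + (r + 1) * l 0) := fun j hj r hr => by
    have := htok j hj 0 (by omega) r hr
    rw [s0] at this
    exact this
  have ht1 : ∀ j < K, ∀ r < n 1,
      b 1 < dL (a j + y j + n 0 * l 0 + r * l 1) (a j + y j + n 0 * l 0 + (r + 1) * l 1) ∧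
      b 1 < dR (a j + y j + n 0 * l 0 + r * l 1) (a j + y j + n 0 * l 0 + (r + 1) * l 1) :=
    fun j hj r hr => by
    have := htok j hj 1 (by omega) r hr
    rw [s1] at this
    exact this
  have ht2 : ∀ j < K, ∀ r < n 2,
      b 2 < dR (a j + y j + n 0 * l 0 + n 1 * l 1 + r * l 2)
        (a j + y j + n 0 * l 0 + n 1 * l 1 + (r + 1) * l 2) := fun j hj r hr => by
    have := (htok j hj 2 (by omega) r hr).2
    rw [s2] at this
    exact this
  have ha' : ∀ j, a (j + 1) = a j + y j + n 0 * l 0 + n 1 * l 1 + n 2 * l 2 := fun j => by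
    rw [ha, s3]
  have hst1 := step1_24 N T c (l 0) (l 1) (l 2) (n 0) (n 1) (n 2) (b 0) (b 1) (b 2) hN hNl hl01
    hl12 hb0 hb1 hb2 hn0 hn1 hn2 K a y (fun j => a j + y j) (fun j => a j + y j + n 0 * l 0)
    (fun j => a j + y j + n 0 * l 0 + n 1 * l 1) ha0 hy (fun _ => rfl) (fun _ => rfl)
    (fun _ => rfl) ha' dL dR (fun p q p' q' h h' => (hm p q p' q' h h').1)
    (fun p q p' q' h h' => (hm p q p' q' h h').2) (fun p => (h1 p).2)
    (fun j hj => (hr0 j hj).1) (fun j hj => (hr0 j hj).2) hr1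
    (fun j hj r hr => (ht0 j hj r hr).1) (fun j hj r hr => (ht1 j hj r hr).1)
    (fun j hj r hr => (ht1 j hj r hr).2) ht2 k s e hs he hsk heK
    (fun t₁ t₂ h h' => (hcmp t₁ t₂ h h').1) (fun t₁ t₂ h h' => (hcmp t₁ t₂ h h').2)
  have hst2 := step2_24 N c (l 0) (n 0) (b 0) (T + n 0 * l 0 + n 1 * l 1 + n 2 * l 2) hN hNl hb0
    (by omega) K a y (fun j => a j + y j) (fun _ => rfl)
    (fun j => by rw [ha']; omega) (fun j => by have := hy j; rw [ha']; omega) ha0 dL dR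
    (fun p q p' q' h h' => (hm p q p' q' h h').2) (fun p => (h1 p).1)
    (fun j hj r hr => (ht0 j hj r hr).2) k s e hs he heK
    (fun t₁ t₂ h h' => (hcmp t₁ t₂ h h').2) hst1
  omega

end Pool.Helper49.TG
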