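import Pool.Agent.Helper49.TG.Basic
import Pool.Agent.Helper49.TG.Mismatch

/-!
# TG-G: the block structure of the substituted words

`blk τ E n y = τ y ++ E₀^{n 0} ++ E₁^{n 1} ++ E₂^{n 2}`.

* `blocks`: `a j` is the length of `tw (blk τ E n) (u.take j)` for `j ≤ u.length` and
  `y j = (τ u_j).length`; for `j ≥ u.length` continue with `y j = 0` by recursion (for instance
  define `y j = ((u[j]?).elim 0 fun z => (τ z).length)`, `a` by recursion
  `a (j + 1) = a j + y j + ∑ n i l i`, and prove `a j = (tw (blk τ E n) (u.take j)).length` for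
  `j ≤ u.length` by induction).  For `j < u.length` write `u = u₁ ++ z :: u₂`, `u₁.length = j`; then
  the word is `tw (blk τ E n) u₁ ++ τ z ++ E₀^{n 0} ++ E₁^{n 1} ++ E₂^{n 2} ++ tw (blk τ E n) u₂`.
  For `k < 3` it is `U ++ E_k^{n k} ++ V` with `U.length = st … k j`; and `ev π U ∈ Gt π τ`,
  `ev π V ∈ Gt π τ`, because the values of the `E_k` are `1` and so
  `ev π (blk τ E n z) = ev π (τ z)`, `ev π (tw (blk τ E n) u₁) = ev π (tw τ u₁)` (`ev_tw_mem`).
  Take `g₁ = ev π U`, `g₂ = ev π V`; `take_rep`, `drop_rep` give the last two statements.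
* `take_rep`, `drop_rep`: `i < m`, `r ≤ E.length`: write
  `E^m = E^i ++ E ++ E^(m - i - 1)` and use `List.take_append`, `List.drop_append`; values of powers
  of `E` are `1`.
* `Gt_blk`, `ev_blk`: immediate.
-/

set_option autoImplicit false

namespace Pool.Helper49.TG

/-- The substituted letters. -/
def blk {Y T : Type} (τ : Y → List T) (E : ℕ → List T) (n : ℕ → ℕ) (y : Y) : List T :=
  τ y ++ (List.replicate (n 0) (E 0)).flatten ++ (List.replicate (n 1) (E 1)).flatten ++
    (List.replicate (n 2) (E 2)).flatten

section
variable {G T Y : Type} [Group G] {π : T → G}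

theorem ev_rep {E : List T} (hE : ev π E = 1) (m : ℕ) :
    ev π (List.replicate m E).flatten = 1 := by
  induction m with
  | zero => simp
  | succ m ih => rw [List.replicate_succ, List.flatten_cons, ev_append, ih, hE, one_mul]

theorem len_rep (E : List T) (m : ℕ) : (List.replicate m E).flatten.length = m * E.length := by
  simp

theorem rep_split {E : List T} {m i : ℕ} (hi : i < m) (r : ℕ) :
    (List.replicate m E).flatten =
      (List.replicate i E).flatten ++ E.take r ++
        (E.drop r ++ (List.replicate (m - i - 1) E).flatten) := by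
  have hm : m = i + (1 + (m - i - 1)) := by omega
  conv_lhs => rw [hm, List.replicate_add, List.flatten_append, List.replicate_add,
    List.flatten_append]
  simp [List.append_assoc, ← List.append_assoc (E.take r)]

theorem take_rep {E : List T} (hE : ev π E = 1) (U V : List T) {m i r : ℕ} (hi : i < m)
    (hr : r ≤ E.length) :
    ev π ((U ++ (List.replicate m E).flatten ++ V).take (U.length + i * E.length + r)) =
      ev π U * ev π (E.take r) := by
  have h1 : U ++ (List.replicate m E).flatten ++ V =
      (U ++ (List.replicate i E).flatten ++ E.take r) ++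
        (E.drop r ++ (List.replicate (m - i - 1) E).flatten ++ V) := by
    rw [rep_split hi r]
    simp [List.append_assoc]
  have h2 : (U ++ (List.replicate i E).flatten ++ E.take r).length =
      U.length + i * E.length + r := by
    rw [List.length_append, List.length_append, len_rep, List.length_take, min_eq_left hr]
  rw [h1, ← h2, List.take_left]
  rw [ev_append, ev_append, ev_rep hE, mul_one]

theorem drop_rep {E : List T} (hE : ev π E = 1) (U V : List T) {m i r : ℕ} (hi : i < m)
    (hr : r ≤ E.length) :
    ev π ((U ++ (List.replicate m E).flatten ++ V).drop (U.length + i * E.length + r)) =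
      ev π (E.drop r) * ev π V := by
  have h1 : U ++ (List.replicate m E).flatten ++ V =
      (U ++ (List.replicate i E).flatten ++ E.take r) ++
        (E.drop r ++ (List.replicate (m - i - 1) E).flatten ++ V) := by
    rw [rep_split hi r]
    simp [List.append_assoc]
  have h2 : (U ++ (List.replicate i E).flatten ++ E.take r).length =
      U.length + i * E.length + r := by
    rw [List.length_append, List.length_append, len_rep, List.length_take, min_eq_left hr]
  rw [h1, ← h2, List.drop_left]
  rw [ev_append, ev_append, ev_rep hE, mul_one]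

theorem ev_blk {τ : Y → List T} {E : ℕ → List T} (n : ℕ → ℕ) (hE : ∀ k, ev π (E k) = 1) (y : Y) :
    ev π (blk τ E n y) = ev π (τ y) := by
  unfold blk
  rw [ev_append, ev_append, ev_append, ev_rep (hE 0), ev_rep (hE 1), ev_rep (hE 2)]
  simp

theorem Gt_blk {τ : Y → List T} {E : ℕ → List T} (n : ℕ → ℕ) (hE : ∀ k, ev π (E k) = 1) :
    Gt π (blk τ E n) = Gt π τ := by
  unfold Gt
  congr 2
  funext y
  exact ev_blk n hE y

/-- the lengths of the blocks -/
def yl (τ : Y → List T) (u : List Y) (j : ℕ) : ℕ := (u[j]?).elim 0 fun z => (τ z).length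

/-- the starts of the blocks -/
def al (τ : Y → List T) (E : ℕ → List T) (n : ℕ → ℕ) (u : List Y) : ℕ → ℕ
  | 0 => 0
  | j + 1 => al τ E n u j + yl τ u j +
      ∑ i' ∈ Finset.range 3, n i' * (E i').length

theorem al_eq (τ : Y → List T) (E : ℕ → List T) (n : ℕ → ℕ) (u : List Y) {j : ℕ}
    (hj : j ≤ u.length) : al τ E n u j = (tw (blk τ E n) (u.take j)).length := by
  induction j with
  | zero => simp [al]
  | succ j ih =>
    have hj' : j < u.length := hj
    have h1 : u.take (j + 1) = u.take j ++ [u[j]] := by
      rw [List.take_add_one, List.getElem?_eq_getElem hj']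
      rfl
    have h2 : yl τ u j = (τ u[j]).length := by
      unfold yl
      rw [List.getElem?_eq_getElem hj']
      rfl
    rw [al, ih hj'.le, h1, tw_append, tw_cons, tw_nil, List.append_nil, List.length_append, blk,
      List.length_append, List.length_append, List.length_append, len_rep, len_rep, len_rep, h2,
      Finset.sum_range_succ, Finset.sum_range_succ, Finset.sum_range_succ, Finset.sum_range_zero]
    ring

theorem blocks (π : T → G) (τ : Y → List T) (E : ℕ → List T) (n : ℕ → ℕ)
    (hE : ∀ k, ev π (E k) = 1) {T₀ : ℕ} (hT : ∀ y, (τ y).length ≤ T₀) (u : List Y) :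
    ∃ a y : ℕ → ℕ, a 0 = 0 ∧ (∀ j, y j ≤ T₀) ∧
      (∀ j, a (j + 1) = st y (fun k => (E k).length) n a 3 j) ∧
      a u.length = (tw (blk τ E n) u).length ∧
      ∀ j < u.length, ∀ k < 3, ∃ g₁ ∈ Gt π τ, ∃ g₂ ∈ Gt π τ, ∀ i < n k, ∀ r ≤ (E k).length,
        ev π ((tw (blk τ E n) u).take
          (st y (fun k => (E k).length) n a k j + i * (E k).length + r)) =
            g₁ * ev π ((E k).take r) ∧
        ev π ((tw (blk τ E n) u).drop
          (st y (fun k => (E k).length) n a k j + i * (E k).length + r)) =
            ev π ((E k).drop r) * g₂ := by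
  refine ⟨al τ E n u, yl τ u, rfl, ?_, ?_, ?_, ?_⟩
  · intro j
    unfold yl
    cases h : u[j]? with
    | none => simp
    | some z => simpa using hT z
  · intro j
    rfl
  · rw [al_eq τ E n u le_rfl, List.take_length]
  · intro j hj k hk
    have hu : u = u.take j ++ u[j] :: u.drop (j + 1) := by
      rw [List.cons_getElem_drop_succ, List.take_append_drop]
    have hy : yl τ u j = (τ u[j]).length := by
      unfold yl
      rw [List.getElem?_eq_getElem hj]
      rfl
    have ha := al_eq τ E n u hj.le
    -- the word before and after the run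
    have key : ∀ U V : List T, tw (blk τ E n) u = U ++ (List.replicate (n k) (E k)).flatten ++ V →
        U.length = st (yl τ u) (fun k => (E k).length) n (al τ E n u) k j →
        ev π U ∈ Gt π τ → ev π V ∈ Gt π τ →
        ∃ g₁ ∈ Gt π τ, ∃ g₂ ∈ Gt π τ, ∀ i < n k, ∀ r ≤ (E k).length,
        ev π ((tw (blk τ E n) u).take
          (st (yl τ u) (fun k => (E k).length) n (al τ E n u) k j + i * (E k).length + r)) =
            g₁ * ev π ((E k).take r) ∧
        ev π ((tw (blk τ E n) u).drop
          (st (yl τ u) (fun k => (E k).length) n (al τ E n u) k j + i * (E k).length + r)) =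
            ev π ((E k).drop r) * g₂ := by
      intro U V hw hU h1 h2
      refine ⟨ev π U, h1, ev π V, h2, ?_⟩
      intro i hi r hr
      rw [hw, ← hU]
      exact ⟨take_rep (hE k) U V hi hr, drop_rep (hE k) U V hi hr⟩
    have h1 : ev π (tw (blk τ E n) (u.take j)) ∈ Gt π τ := by
      rw [← Gt_blk n hE]
      exact ev_tw_mem π _ _
    have h2 : ev π (tw (blk τ E n) (u.drop (j + 1))) ∈ Gt π τ := by
      rw [← Gt_blk n hE]
      exact ev_tw_mem π _ _
    have h3 : ev π (τ u[j]) ∈ Gt π τ := Subgroup.subset_closure ⟨u[j], rfl⟩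
    have hw : tw (blk τ E n) u = tw (blk τ E n) (u.take j) ++ (blk τ E n u[j] ++
        tw (blk τ E n) (u.drop (j + 1))) := by
      conv_lhs => rw [hu]
      rw [tw_append, tw_cons]
    have hk' : k = 0 ∨ k = 1 ∨ k = 2 := by omega
    rcases hk' with rfl | rfl | rfl
    · refine key (tw (blk τ E n) (u.take j) ++ τ u[j])
        ((List.replicate (n 1) (E 1)).flatten ++ (List.replicate (n 2) (E 2)).flatten ++
          tw (blk τ E n) (u.drop (j + 1))) ?_ ?_ ?_ ?_
      · rw [hw, blk]; simp only [List.append_assoc]
      · rw [List.length_append, ← ha, ← hy]; simp [st]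
      · rw [ev_append]; exact (Gt π τ).mul_mem h1 h3
      · rw [ev_append, ev_append, ev_rep (hE 1), ev_rep (hE 2)]; simpa using h2
    · refine key (tw (blk τ E n) (u.take j) ++ τ u[j] ++ (List.replicate (n 0) (E 0)).flatten)
        ((List.replicate (n 2) (E 2)).flatten ++
          tw (blk τ E n) (u.drop (j + 1))) ?_ ?_ ?_ ?_
      · rw [hw, blk]; simp only [List.append_assoc]
      · rw [List.length_append, List.length_append, ← ha, ← hy, len_rep]; simp [st]
      · rw [ev_append, ev_append, ev_rep (hE 0), mul_one]; exact (Gt π τ).mul_mem h1 h3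
      · rw [ev_append, ev_rep (hE 2)]; simpa using h2
    · refine key (tw (blk τ E n) (u.take j) ++ τ u[j] ++ (List.replicate (n 0) (E 0)).flatten ++
        (List.replicate (n 1) (E 1)).flatten) (tw (blk τ E n) (u.drop (j + 1))) ?_ ?_ ?_ ?_
      · rw [hw, blk]; simp only [List.append_assoc]
      · rw [List.length_append, List.length_append, List.length_append, ← ha, ← hy, len_rep,
          len_rep]
        simp [st, Finset.sum_range_succ]
        ring
      · rw [ev_append, ev_append, ev_append, ev_rep (hE 0), ev_rep (hE 1), mul_one, mul_one]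
        exact (Gt π τ).mul_mem h1 h3
      · exact h2

end

end Pool.Helper49.TG
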