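import Pool.Agent.Helper49.TG.Value
import Pool.Agent.Helper49.WR.CFGraded

/-!
# TG-M: binary grammars of context-free languages, inverse homomorphisms

* `exists_BG`.  `L = g₀.language` for a `ContextFreeGrammar.{0} T` `g₀`.  Take `F` with
  `FormsOK g₀ F` (`Pool.Helper49.WR.exists_forms`), `J = {α // α ∈ F}`, `S` the form
  `[nonterminal initial]`, and
  `leaf α w := (α = [] ∧ w = []) ∨ ∃ t, α = [terminal t] ∧ w = [t]`,
  `bin α β γ := (∃ t, α = terminal t :: γ ∧ β = [terminal t]) ∨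
      ∃ r ∈ g₀.rules, α = nonterminal r.input :: γ ∧ β = r.output`.
  By two inductions `Yd g α w ↔ Yields g₀ α w` (`Yields` of Pool.Agent.Helper1.FIM, see
  `cfWG_sound`, `cfWG_complete` in WR/CFGraded.lean for the same argument with more data), and
  `Yields.of_derives`, `Yields.derives`, `ContextFreeGrammar.mem_language_iff`.
* `inv_hom`.  Let `Σ` be the finite set of the words `σ` with `σ = []` or `σ <:+ τ y` for some `y`,
  and `J' = J × Σ × Σ`.  `(A, p, q)` will derive those `v` for which `A` derives the word read from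
  `p ++ tw τ v` until `q` remains.  Define `leaf' (A, p, q) v := v.length ≤ 1 ∧ ∃ x, g.leaf A x ∧
  p ++ tw τ v = x ++ q` and `bin' (A, p, q) (B, p₁, m) (C, m₁, q₁) := g.bin A B C ∧ p₁ = p ∧ m₁ = m ∧
  q₁ = q`, `S' = (S, [], [])`.
  Soundness: `Yd g' (A, p, q) v → ∃ x, Yd g A x ∧ p ++ tw τ v = x ++ q` by induction.
  Completeness: if `Yd g A x` then for all `p, q ∈ Σ` and `v` with `p ++ tw τ v = x ++ q` such that
  `v = []` or `q.length < (τ y).length` for the last letter `y` of `v`, `Yd g' (A, p, q) v`.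
  Induction on the derivation.  Leaf `x = []`: `p ++ tw τ v = q` forces `v = []` by the condition on
  the last letter (lengths).  Leaf `x = [t]`: if `v = v₀ ++ [y]` then
  `|p| + |tw τ v₀| + |τ y| = 1 + |q| ≤ |τ y|`, so `p = []` and `v₀ = []` (`τ` has nonempty values).
  `x = x₁ ++ x₂`: if `|x₁| ≤ |p|` put `v₁ = []`, `m = p.drop |x₁|`, `v₂ = v`.  Otherwise
  `x₁ = p ++ x₁'`, `x₁' ≠ []`, `tw τ v = x₁' ++ (x₂ ++ q)`; let `v₁` be the shortest initial part of
  `v` with `|x₁'| ≤ |tw τ v₁|` (it is not empty), `v = v₁ ++ v₂`, `tw τ v₁ = x₁' ++ m`; by minimality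
  `m` is shorter than the last letter of `v₁` and a suffix of it; `m ++ tw τ v₂ = x₂ ++ q`.
-/

set_option autoImplicit false

namespace Pool.Helper49.TG

open Pool.Agent.Helper1.FIM (Yields)

theorem exists_BG {T : Type} {L : Language T} (h : L.IsContextFree) :
    ∃ (J : Type) (_ : Finite J) (g : BG J T) (S : J), ∀ w : List T, Yd g S w ↔ w ∈ L := by
  classical
  obtain ⟨g₀, rfl⟩ := h
  obtain ⟨F, hF⟩ := Pool.Helper49.WR.exists_forms g₀
  let g : BG {α // α ∈ F} T :=
    { leaf := fun α w => (α.1 = [] ∧ w = []) ∨ ∃ t, α.1 = [Symbol.terminal t] ∧ w = [t]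
      bin := fun α β γ => (∃ t, α.1 = Symbol.terminal t :: γ.1 ∧ β.1 = [Symbol.terminal t]) ∨
        ∃ r ∈ g₀.rules, α.1 = Symbol.nonterminal r.input :: γ.1 ∧ β.1 = r.output
      leaf_len := by
        rintro A w (⟨-, rfl⟩ | ⟨t, -, rfl⟩) <;> simp }
  have hs : ∀ (α : {α // α ∈ F}) (w : List T), Yd g α w → Yields g₀ α.1 w := by
    intro α w h
    induction h with
    | @leaf A w h =>
      rcases h with ⟨h1, rfl⟩ | ⟨t, h1, rfl⟩
      · rw [h1]
        exact Yields.nil
      · rw [h1]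
        exact Yields.term t [] [] Yields.nil
    | @bin A B C u v h _ _ ih₁ ih₂ =>
      rcases h with ⟨t, h5, h6⟩ | ⟨r, hr, h5, h6⟩
      · rw [h6] at ih₁
        rw [h5]
        cases ih₁ with
        | term _ _ w hw =>
          cases hw
          exact Yields.term t _ _ ih₂
      · rw [h6] at ih₁
        rw [h5]
        exact Yields.nonterm r hr _ _ _ ih₁ ih₂
  have hc : ∀ (α : List (Symbol T g₀.NT)) (w : List T), Yields g₀ α w → ∀ hα : α ∈ F,
      Yd g ⟨α, hα⟩ w := by
    intro α w h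
    induction h with
    | nil =>
      intro hα
      exact Yd.leaf (Or.inl ⟨rfl, rfl⟩)
    | term a γ w h ih =>
      intro hα
      have h1 : Yd g ⟨[Symbol.terminal a], hF.term _ _ hα⟩ [a] :=
        Yd.leaf (Or.inr ⟨a, rfl, rfl⟩)
      exact Yd.bin (A := ⟨Symbol.terminal a :: γ, hα⟩) (Or.inl ⟨a, rfl, rfl⟩) h1
        (ih (hF.tail _ _ hα))
    | nonterm r hr γ w₁ w₂ h₁ h₂ ih₁ ih₂ =>
      intro hα
      exact Yd.bin (A := ⟨Symbol.nonterminal r.input :: γ, hα⟩) (Or.inr ⟨r, hr, rfl, rfl⟩)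
        (ih₁ (hF.out r hr)) (ih₂ (hF.tail _ _ hα))
  refine ⟨{α // α ∈ F}, inferInstance, g, ⟨_, hF.init⟩, fun w => ?_⟩
  rw [ContextFreeGrammar.mem_language_iff]
  exact ⟨fun h => (hs _ _ h).derives, fun h => hc _ _ (Yields.of_derives h) _⟩

/-- the shortest initial part of `v` whose word covers the nonempty word `a` -/
private theorem split_min36 {T Y : Type} {τ : Y → List T} (hτ : ∀ y, τ y ≠ []) {v : List Y}
    {a b : List T} (ha : a ≠ []) (h : tw τ v = a ++ b) :
    ∃ (v₀ : List Y) (y : Y) (v₂ : List Y) (m : List T), v = (v₀ ++ [y]) ++ v₂ ∧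
      tw τ (v₀ ++ [y]) = a ++ m ∧ b = m ++ tw τ v₂ ∧ m.length < (τ y).length ∧ m <:+ τ y := by
  induction v generalizing a with
  | nil =>
    rw [tw_nil] at h
    have := (List.append_eq_nil_iff.1 h.symm).1
    exact absurd this ha
  | cons y₀ v' ih =>
    rw [tw_cons] at h
    rcases List.append_eq_append_iff.1 h with ⟨a', h1, h2⟩ | ⟨m, h1, h2⟩
    · by_cases ha' : a' = []
      · subst ha'
        refine ⟨[], y₀, v', [], by simp, ?_, ?_, ?_, List.nil_suffix⟩
        · simp [h1]
        · simpa using h2.symm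
        · exact List.length_pos_iff.2 (hτ y₀)
      · obtain ⟨v₀, y, v₂, m, e1, e2, e3, e4, e5⟩ := ih ha' h2
        refine ⟨y₀ :: v₀, y, v₂, m, ?_, ?_, e3, e4, e5⟩
        · rw [e1]
          simp
        · rw [List.cons_append, tw_cons, e2, h1, List.append_assoc]
    · refine ⟨[], y₀, v', m, by simp, ?_, h2, ?_, ?_⟩
      · simpa using h1
      · rw [h1, List.length_append]
        have := List.length_pos_iff.2 ha
        omega
      · rw [h1]
        exact List.suffix_append _ _

theorem inv_hom {J T Y : Type} [Finite J] [Finite Y] (g : BG J T) (S : J) (τ : Y → List T)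
    (hτ : ∀ y, τ y ≠ []) :
    ∃ (J' : Type) (_ : Finite J') (g' : BG J' Y) (S' : J'),
      ∀ v : List Y, Yd g' S' v ↔ Yd g S (tw τ v) := by
  classical
  let Sg : Set (List T) := {σ | σ = [] ∨ ∃ y, σ <:+ τ y}
  have hfin : Sg.Finite := by
    have h1 : Sg ⊆ {[]} ∪ ⋃ y, {σ | σ ∈ (τ y).tails} := by
      rintro σ (h | ⟨y, h⟩)
      · exact Or.inl h
      · refine Or.inr (Set.mem_iUnion.2 ⟨y, ?_⟩)
        exact (List.mem_tails _ _).2 h
    refine Set.Finite.subset ?_ h1
    refine (Set.finite_singleton _).union (Set.finite_iUnion fun y => ?_)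
    exact List.finite_toSet _
  haveI : Finite Sg := hfin
  have hnil : ([] : List T) ∈ Sg := Or.inl rfl
  have hsuf : ∀ {σ m : List T}, σ ∈ Sg → m <:+ σ → m ∈ Sg := by
    rintro σ m (h | ⟨y, h⟩) hm
    · left
      rw [h] at hm
      exact List.suffix_nil.1 hm
    · exact Or.inr ⟨y, hm.trans h⟩
  let g' : BG (J × Sg × Sg) Y :=
    { leaf := fun A v => v.length ≤ 1 ∧ ∃ x, g.leaf A.1 x ∧ A.2.1.1 ++ tw τ v = x ++ A.2.2.1
      bin := fun A B C => g.bin A.1 B.1 C.1 ∧ B.2.1 = A.2.1 ∧ C.2.1 = B.2.2 ∧ C.2.2 = A.2.2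
      leaf_len := fun A v h => h.1 }
  have hsound : ∀ (A : J × Sg × Sg) (v : List Y), Yd g' A v →
      ∃ x, Yd g A.1 x ∧ A.2.1.1 ++ tw τ v = x ++ A.2.2.1 := by
    intro A v h
    induction h with
    | @leaf A v h =>
      obtain ⟨-, x, hx, h2⟩ := h
      exact ⟨x, Yd.leaf hx, h2⟩
    | @bin A B C u v h _ _ ih₁ ih₂ =>
      obtain ⟨hb, h1, h2, h3⟩ := h
      obtain ⟨x₁, y₁, e₁⟩ := ih₁
      obtain ⟨x₂, y₂, e₂⟩ := ih₂
      refine ⟨x₁ ++ x₂, Yd.bin hb y₁ y₂, ?_⟩
      rw [h1] at e₁
      rw [h2, h3] at e₂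
      rw [tw_append, ← List.append_assoc, e₁, List.append_assoc, e₂, List.append_assoc]
  have hcomp : ∀ (A : J) (x : List T), Yd g A x → ∀ (p q : Sg) (v : List Y),
      p.1 ++ tw τ v = x ++ q.1 →
      (v = [] ∨ ∃ v₀ y, v = v₀ ++ [y] ∧ q.1.length < (τ y).length) → Yd g' (A, p, q) v := by
    intro A x h
    induction h with
    | @leaf A x h =>
      intro p q v h1 h2
      have hx := g.leaf_len A x h
      refine Yd.leaf ⟨?_, x, h, h1⟩
      rcases h2 with rfl | ⟨v₀, y, rfl, h3⟩
      · simp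
      · have h4 := congrArg List.length h1
        simp only [tw_append, tw_cons, tw_nil, List.length_append, List.append_nil] at h4
        have h5 : (tw τ v₀).length = 0 := by omega
        have h6 : v₀ = [] := by
          cases v₀ with
          | nil => rfl
          | cons z v₀ =>
            rw [tw_cons, List.length_append] at h5
            have := List.length_pos_iff.2 (hτ z)
            omega
        rw [h6]
        simp
    | @bin A B C x₁ x₂ h _ _ ih₁ ih₂ =>
      intro p q v h1 h2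
      rw [List.append_assoc] at h1
      rcases List.append_eq_append_iff.1 h1 with ⟨a', h3, h4⟩ | ⟨m, h3, h4⟩
      · by_cases ha' : a' = []
        · -- `x₁ = p`
          subst ha'
          rw [List.append_nil] at h3
          rw [List.nil_append] at h4
          have e1 : Yd g' (B, p, ⟨[], hnil⟩) [] := by
            refine ih₁ p ⟨[], hnil⟩ [] ?_ (Or.inl rfl)
            simp [h3]
          have e2 : Yd g' (C, ⟨[], hnil⟩, q) v := by
            refine ih₂ ⟨[], hnil⟩ q v ?_ h2
            simpa using h4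
          have e3 : g'.bin (A, p, q) (B, p, ⟨[], hnil⟩) (C, ⟨[], hnil⟩, q) := ⟨h, rfl, rfl, rfl⟩
          exact Yd.bin e3 e1 e2
        · obtain ⟨v₀, y, v₂, m, e1, e2, e3, e4, e5⟩ := split_min36 hτ ha' h4
          have hm : m ∈ Sg := Or.inr ⟨y, e5⟩
          have f1 : Yd g' (B, p, ⟨m, hm⟩) (v₀ ++ [y]) := by
            refine ih₁ p ⟨m, hm⟩ _ ?_ (Or.inr ⟨v₀, y, rfl, e4⟩)
            rw [e2, h3, List.append_assoc]
          have f2 : Yd g' (C, ⟨m, hm⟩, q) v₂ := by
            refine ih₂ ⟨m, hm⟩ q v₂ e3.symm ?_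
            rcases h2 with h2 | ⟨v₀', y', h2, h5⟩
            · rw [h2] at e1
              have := (List.append_eq_nil_iff.1 e1.symm).2
              exact Or.inl this
            · rcases List.eq_nil_or_concat v₂ with h6 | ⟨v₃, z, h6⟩
              · exact Or.inl h6
              · right
                refine ⟨v₃, z, by rw [h6, List.concat_eq_append], ?_⟩
                have h7 : v₀' ++ [y'] = ((v₀ ++ [y]) ++ v₃) ++ [z] := by
                  rw [← h2, e1, h6, List.concat_eq_append, List.append_assoc (v₀ ++ [y])]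
                have h8 := List.append_inj_right' h7 rfl
                have h9 : y' = z := by simpa using h8
                rw [← h9]
                exact h5
          rw [e1]
          have f3 : g'.bin (A, p, q) (B, p, ⟨m, hm⟩) (C, ⟨m, hm⟩, q) := ⟨h, rfl, rfl, rfl⟩
          exact Yd.bin f3 f1 f2
      · -- `p = x₁ ++ m`
        have hm : m ∈ Sg := by
          refine hsuf p.2 ?_
          rw [h3]
          exact List.suffix_append _ _
        have e1 : Yd g' (B, p, ⟨m, hm⟩) [] := by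
          refine ih₁ p ⟨m, hm⟩ [] ?_ (Or.inl rfl)
          simp [h3]
        have e2 : Yd g' (C, ⟨m, hm⟩, q) v := ih₂ ⟨m, hm⟩ q v h4.symm h2
        have e3 : g'.bin (A, p, q) (B, p, ⟨m, hm⟩) (C, ⟨m, hm⟩, q) := ⟨h, rfl, rfl, rfl⟩
        exact Yd.bin e3 e1 e2
  refine ⟨J × Sg × Sg, inferInstance, g', (S, ⟨[], hnil⟩, ⟨[], hnil⟩), fun v => ⟨?_, ?_⟩⟩
  · intro h
    obtain ⟨x, hx, e⟩ := hsound _ _ h
    simp only [List.nil_append, List.append_nil] at e
    rw [e]
    exact hx
  · intro h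
    refine hcomp S _ h _ _ v (by simp) ?_
    rcases List.eq_nil_or_concat v with h6 | ⟨v₃, z, h6⟩
    · exact Or.inl h6
    · right
      refine ⟨v₃, z, by rw [h6, List.concat_eq_append], ?_⟩
      exact List.length_pos_iff.2 (hτ z)

end Pool.Helper49.TG
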