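import Pool.Agent.Helper49.TG.Basic

/-!
# TG-E: counting cosets along a spine

* `Lp.diff`: `Cx g A B β δ`, `Cx g A B β' δ'`, `Cx g B A γ η`: then `(β γ, η δ)` and `(β' γ, η δ')`
  are loops at `A`; multiply the first with the inverse (`Lp.inv`) of the second:
  `(βγ (β'γ)⁻¹, (ηδ')⁻¹ ηδ) = (β β'⁻¹, δ'⁻¹ δ)` (values).
* `Lp.left_iff`: if `(m, n)` is a loop, then `m ∈ P ↔ n ∈ Q`: `(m, 1)` a loop gives
  `(m, n) (m, 1)⁻¹ = (1, n)`; conversely `(1, n)⁻¹ (m, n) = (m, 1)`.  (Mind the order in `Lp.mul`.)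
* `count`.  Abbreviate `w = α ++ x ++ ω`, `L i = Lc … i`, `R i = Rc … i`, `X t = x.take (s t - |α|)`,
  `D t = x.drop (e t - |α|)`.  Since `|α| ≤ s t ≤ |α ++ x|`, `w.take (s t) = α ++ X t`, so `L (s t)`
  is the right coset `P (ev π (X t))`; similarly `w.drop (e t) = D t ++ ω` and `R (e t)` is the left
  coset `(ev π (D t)) Q`.
  (1) If `B t = B t'` and `L (s t) = L (s t')` then `R (e t) = R (e t')`, and conversely: by
  `Lp.diff` `(ev (X t) (ev (X t'))⁻¹, (ev (D t'))⁻¹ ev (D t))` is a loop at `A` (the return context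
  exists by `hcls.reach`), and `Lp.left_iff`.  Hence
  `#{R (e t) : t ∈ [t₁, t₂]} ≤ card J * #{L (s t) : t ∈ [t₁, t₂]}`: the map `t ↦ R (e t)` factors
  through `t ↦ (B t, L (s t))`.  Same with `L` and `R` exchanged.
  (2) For `i ∈ [e t₂, e t₁]` there is `t ∈ [t₁, t₂]` with `i ≤ e t ≤ i + N`
  (the last `t` with `i ≤ e t`); `w.drop i = z ++ w.drop (e t)`, `z = (w.take (e t)).drop i` of
  length `≤ N`, so `R i` is determined by `z` and `R (e t)` (left multiplication by `ev π z` acts on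
  `G ⧸ Q`).  So `dR ≤ nW T N * #{R (e t) : t ∈ [t₁, t₂]}` (the set of words of length `≤ N` is
  finite: `List.finite_length_le`).  Similarly for `L`: for `i ∈ [s t₁, s t₂]` take the last
  `t ∈ [t₁, t₂]` with `s t ≤ i`, then `i ≤ s t + N`, and `w.take i = w.take (s t) ++ z`; right
  multiplication acts on the right cosets.
  (3) `{L (s t) : t ∈ [t₁, t₂]} ⊆ L '' [s t₁, s t₂]`.
-/

set_option autoImplicit false

namespace Pool.Helper49.TG

section
variable {G J T : Type} [Group G] (hG : ∀ x : G, IsOfFinOrder x) (g : BG J T) (π : T → G) (A : J)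

/-- The right coset of `P_A` reached at position `i` of `w` when starting at the end of `α`. -/
def Lc (α w : List T) (i : ℕ) : Quotient (QuotientGroup.rightRel (Pg hG g π A)) :=
  Quotient.mk _ ((ev π α)⁻¹ * ev π (w.take i))

/-- The left coset of `Q_A` reached at position `i` of `w` when reading backwards from the
beginning of `ω`. -/
def Rc (ω w : List T) (i : ℕ) : G ⧸ Qg hG g π A :=
  ((ev π (w.drop i) * (ev π ω)⁻¹ : G) : G ⧸ Qg hG g π A)

/-- The number of cosets seen from the left on `[a, b]`. -/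
noncomputable def dL (α w : List T) (a b : ℕ) : ℕ := (Lc hG g π A α w '' Set.Icc a b).ncard

/-- The number of cosets seen from the right on `[a, b]`. -/
noncomputable def dR (ω w : List T) (a b : ℕ) : ℕ := (Rc hG g π A ω w '' Set.Icc a b).ncard

end

section
variable {G J T : Type} [Group G] {hG : ∀ x : G, IsOfFinOrder x} {g : BG J T} {π : T → G} {A B : J}

theorem Lp.diff (hG : ∀ x : G, IsOfFinOrder x) {β δ β' δ' γ η : List T} (h : Cx g A B β δ)
    (h' : Cx g A B β' δ') (hr : Cx g B A γ η) :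
    Lp g π A (ev π β * (ev π β')⁻¹) ((ev π δ')⁻¹ * ev π δ) := by
  have h1 : Lp g π A (ev π (β ++ γ)) (ev π (η ++ δ)) := ⟨_, _, h.comp hr, rfl, rfl⟩
  have h2 : Lp g π A (ev π (β' ++ γ)) (ev π (η ++ δ')) := ⟨_, _, h'.comp hr, rfl, rfl⟩
  have h3 := h1.mul (h2.inv hG)
  have e1 : ev π (β ++ γ) * (ev π (β' ++ γ))⁻¹ = ev π β * (ev π β')⁻¹ := by
    rw [ev_append, ev_append]
    group
  have e2 : (ev π (η ++ δ'))⁻¹ * ev π (η ++ δ) = (ev π δ')⁻¹ * ev π δ := by
    rw [ev_append, ev_append]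
    group
  rwa [e1, e2] at h3

theorem Lp.left_iff (hG : ∀ x : G, IsOfFinOrder x) {m n : G} (h : Lp g π A m n) :
    Lp g π A m 1 ↔ Lp g π A 1 n := by
  constructor
  · intro h1
    have h2 := (h1.inv hG).mul h
    rwa [inv_mul_cancel, inv_one, mul_one] at h2
  · intro h1
    have h2 := (h1.inv hG).mul h
    rwa [mul_inv_cancel, inv_one, one_mul] at h2

theorem ncard_image_le {X Y : Type*} {I : Set ℕ} (_hI : I.Finite) {f : ℕ → X} {k : ℕ → Y}
    (h : ∀ t ∈ I, ∀ t' ∈ I, k t = k t' → f t = f t') {U : Set Y} (hU : U.Finite)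
    (hk : ∀ t ∈ I, k t ∈ U) : (f '' I).ncard ≤ U.ncard := by
  classical
  have h1 : ∀ a : X, a ∈ f '' I → ∃ t, t ∈ I ∧ f t = a := fun a ha => ha
  choose! c hc using h1
  refine Set.ncard_le_ncard_of_injOn (fun a => k (c a)) (fun a ha => hk _ (hc a ha).1) ?_ hU
  intro a ha a' ha' h2
  rw [← (hc a ha).2, ← (hc a' ha').2]
  exact h _ (hc a ha).1 _ (hc a' ha').1 h2

theorem exists_up {s : ℕ → ℕ} {N t₁ t₂ : ℕ} (h12 : t₁ ≤ t₂)
    (hs : ∀ t, t₁ ≤ t → t < t₂ → s (t + 1) ≤ s t + N) {i : ℕ} (h1 : s t₁ ≤ i) (h2 : i ≤ s t₂) :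
    ∃ t, t₁ ≤ t ∧ t ≤ t₂ ∧ s t ≤ i ∧ i ≤ s t + N := by
  induction t₂, h12 using Nat.le_induction with
  | base => exact ⟨t₁, le_rfl, le_rfl, h1, by omega⟩
  | succ m hm ih =>
    by_cases h : i ≤ s m
    · obtain ⟨t, a1, a2, a3, a4⟩ := ih (fun t b1 b2 => hs t b1 (by omega)) h
      exact ⟨t, a1, by omega, a3, a4⟩
    · have := hs m hm (by omega)
      exact ⟨m, hm, by omega, by omega, by omega⟩

theorem exists_dn {e : ℕ → ℕ} {N t₁ t₂ : ℕ} (h12 : t₁ ≤ t₂)
    (he : ∀ t, t₁ ≤ t → t < t₂ → e t ≤ e (t + 1) + N) {i : ℕ} (h1 : e t₂ ≤ i) (h2 : i ≤ e t₁) :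
    ∃ t, t₁ ≤ t ∧ t ≤ t₂ ∧ i ≤ e t ∧ e t ≤ i + N := by
  induction t₂, h12 using Nat.le_induction with
  | base => exact ⟨t₁, le_rfl, le_rfl, h2, by omega⟩
  | succ m hm ih =>
    by_cases h : e m ≤ i
    · obtain ⟨t, a1, a2, a3, a4⟩ := ih (fun t b1 b2 => he t b1 (by omega)) h
      exact ⟨t, a1, by omega, a3, a4⟩
    · have := he m hm (by omega)
      exact ⟨m, hm, by omega, by omega, by omega⟩

theorem mono_up {s : ℕ → ℕ} {t₁ t₂ : ℕ} (h12 : t₁ ≤ t₂)
    (hs : ∀ t, t₁ ≤ t → t < t₂ → s t ≤ s (t + 1)) : s t₁ ≤ s t₂ := by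
  induction t₂, h12 using Nat.le_induction with
  | base => exact le_rfl
  | succ m hm ih =>
    have h1 := ih (fun t b1 b2 => hs t b1 (by omega))
    have h2 := hs m hm (by omega)
    omega

theorem mono_dn {e : ℕ → ℕ} {t₁ t₂ : ℕ} (h12 : t₁ ≤ t₂)
    (he : ∀ t, t₁ ≤ t → t < t₂ → e (t + 1) ≤ e t) : e t₂ ≤ e t₁ := by
  induction t₂, h12 using Nat.le_induction with
  | base => exact le_rfl
  | succ m hm ih =>
    have h1 := ih (fun t b1 b2 => he t b1 (by omega))
    have h2 := he m hm (by omega)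
    omega

theorem count [Finite J] [Finite T] {𝒮 𝒞 : Set J} (hcls : Cls g 𝒮 𝒞) (hA : A ∈ 𝒞)
    {α x ω : List T} {N k : ℕ} {B : ℕ → J} {s e : ℕ → ℕ}
    (h0 : ∀ t ≤ k, B t ∈ 𝒞 ∧ α.length ≤ s t ∧ s t ≤ e t ∧ e t ≤ (α ++ x).length ∧
      Cx g A (B t) (x.take (s t - α.length)) (x.drop (e t - α.length)))
    (hstep : ∀ t < k, s t ≤ s (t + 1) ∧ s (t + 1) ≤ s t + N ∧ e (t + 1) ≤ e t ∧
      e t ≤ e (t + 1) + N)
    {t₁ t₂ : ℕ} (h12 : t₁ ≤ t₂) (h2 : t₂ ≤ k) :
    dL hG g π A α (α ++ x ++ ω) (s t₁) (s t₂) ≤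
        nW T N * Nat.card J * dR hG g π A ω (α ++ x ++ ω) (e t₂) (e t₁) ∧
      dR hG g π A ω (α ++ x ++ ω) (e t₂) (e t₁) ≤
        nW T N * Nat.card J * dL hG g π A α (α ++ x ++ ω) (s t₁) (s t₂) := by
  classical
  set w := α ++ x ++ ω with hw
  have hs : ∀ t, t₁ ≤ t → t < t₂ → s t ≤ s (t + 1) := fun t _ b => (hstep t (by omega)).1
  have hs' : ∀ t, t₁ ≤ t → t < t₂ → s (t + 1) ≤ s t + N := fun t _ b => (hstep t (by omega)).2.1
  have he : ∀ t, t₁ ≤ t → t < t₂ → e (t + 1) ≤ e t := fun t _ b => (hstep t (by omega)).2.2.1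
  have he' : ∀ t, t₁ ≤ t → t < t₂ → e t ≤ e (t + 1) + N := fun t _ b => (hstep t (by omega)).2.2.2
  -- the cosets at the nodes
  have hL : ∀ t ≤ k, (ev π α)⁻¹ * ev π (w.take (s t)) = ev π (x.take (s t - α.length)) := by
    intro t ht
    obtain ⟨-, b1, b2, b3, -⟩ := h0 t ht
    rw [List.length_append] at b3
    have : w.take (s t) = α ++ x.take (s t - α.length) := by
      rw [hw, List.append_assoc, List.take_append, List.take_append, List.take_of_length_le b1,
        show s t - α.length - x.length = 0 by omega, List.take_zero, List.append_nil]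
    rw [this, ev_append, inv_mul_cancel_left]
  have hR : ∀ t ≤ k, ev π (w.drop (e t)) * (ev π ω)⁻¹ = ev π (x.drop (e t - α.length)) := by
    intro t ht
    obtain ⟨-, b1, b2, b3, -⟩ := h0 t ht
    rw [List.length_append] at b3
    have : w.drop (e t) = x.drop (e t - α.length) ++ ω := by
      rw [hw, List.append_assoc, List.drop_append, List.drop_append, List.drop_eq_nil_of_le (by omega),
        show e t - α.length - x.length = 0 by omega, List.drop_zero, List.nil_append]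
    rw [this, ev_append, mul_inv_cancel_right]
  have key : ∀ t ≤ k, ∀ t' ≤ k, B t = B t' →
      (Lc hG g π A α w (s t) = Lc hG g π A α w (s t') ↔
        Rc hG g π A ω w (e t) = Rc hG g π A ω w (e t')) := by
    intro t ht t' ht' hB
    obtain ⟨c1, -, -, -, c2⟩ := h0 t ht
    obtain ⟨-, -, -, -, d2⟩ := h0 t' ht'
    rw [← hB] at d2
    obtain ⟨γ, η, hr⟩ := hcls.reach _ c1 _ hA
    have h3 := Lp.left_iff hG (Lp.diff (π := π) hG d2 c2 hr)
    unfold Lc Rc
    rw [hL t ht, hL t' ht', hR t ht, hR t' ht', Quotient.eq, QuotientGroup.rightRel_apply,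
      QuotientGroup.eq, mem_Pg, mem_Qg]
    exact h3
  have hI : (Set.Icc t₁ t₂).Finite := Set.finite_Icc _ _
  have hLI : ((fun t => Lc hG g π A α w (s t)) '' Set.Icc t₁ t₂).Finite := hI.image _
  have hRI : ((fun t => Rc hG g π A ω w (e t)) '' Set.Icc t₁ t₂).Finite := hI.image _
  have hJ : (Set.univ : Set J).Finite := Set.finite_univ
  have hW : ({z : List T | z.length ≤ N}).Finite := List.finite_length_le T N
  -- (1)
  have one1 : ((fun t => Lc hG g π A α w (s t)) '' Set.Icc t₁ t₂).ncard ≤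
      Nat.card J * ((fun t => Rc hG g π A ω w (e t)) '' Set.Icc t₁ t₂).ncard := by
    rw [← Set.ncard_univ J, ← Set.ncard_prod]
    refine ncard_image_le hI (k := fun t => (B t, Rc hG g π A ω w (e t))) ?_ (hJ.prod hRI) ?_
    · intro t ht t' ht' h3
      have h4 := Prod.ext_iff.1 h3
      exact (key t (ht.2.trans h2) t' (ht'.2.trans h2) h4.1).2 h4.2
    · intro t ht
      exact ⟨Set.mem_univ _, ⟨t, ht, rfl⟩⟩
  have one2 : ((fun t => Rc hG g π A ω w (e t)) '' Set.Icc t₁ t₂).ncard ≤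
      Nat.card J * ((fun t => Lc hG g π A α w (s t)) '' Set.Icc t₁ t₂).ncard := by
    rw [← Set.ncard_univ J, ← Set.ncard_prod]
    refine ncard_image_le hI (k := fun t => (B t, Lc hG g π A α w (s t))) ?_ (hJ.prod hLI) ?_
    · intro t ht t' ht' h3
      have h4 := Prod.ext_iff.1 h3
      exact (key t (ht.2.trans h2) t' (ht'.2.trans h2) h4.1).1 h4.2
    · intro t ht
      exact ⟨Set.mem_univ _, ⟨t, ht, rfl⟩⟩
  -- (2)
  have two1 : dL hG g π A α w (s t₁) (s t₂) ≤
      nW T N * ((fun t => Lc hG g π A α w (s t)) '' Set.Icc t₁ t₂).ncard := by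
    have ex : ∀ i, i ∈ Set.Icc (s t₁) (s t₂) → ∃ t, t ∈ Set.Icc t₁ t₂ ∧ s t ≤ i ∧ i ≤ s t + N := by
      rintro i ⟨hi1, hi2⟩
      obtain ⟨t, a1, a2, a3, a4⟩ := exists_up h12 hs' hi1 hi2
      exact ⟨t, ⟨a1, a2⟩, a3, a4⟩
    choose! c hc using ex
    unfold dL nW
    rw [← Set.ncard_prod]
    refine ncard_image_le (Set.finite_Icc _ _)
      (k := fun i => ((w.drop (s (c i))).take (i - s (c i)), Lc hG g π A α w (s (c i)))) ?_
      (hW.prod hLI) ?_
    · intro i hi j hj h3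
      obtain ⟨h4, h5⟩ := Prod.ext_iff.1 h3
      simp only at h4 h5
      have t1 : ∀ i ∈ Set.Icc (s t₁) (s t₂), w.take i = w.take (s (c i)) ++ (w.drop (s (c i))).take (i - s (c i)) := by
        intro i hi
        rw [← List.take_add, Nat.add_sub_cancel' (hc i hi).2.1]
      unfold Lc at h5 ⊢
      rw [Quotient.eq, QuotientGroup.rightRel_apply] at h5 ⊢
      rw [t1 i hi, t1 j hj, ← h4, ev_append, ev_append]
      convert h5 using 1
      group
    · intro i hi
      refine ⟨?_, ⟨c i, (hc i hi).1, rfl⟩⟩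
      have := (hc i hi).2.2
      simp only [Set.mem_ofPred_eq, List.length_take, List.length_drop]
      omega
  have two2 : dR hG g π A ω w (e t₂) (e t₁) ≤
      nW T N * ((fun t => Rc hG g π A ω w (e t)) '' Set.Icc t₁ t₂).ncard := by
    have ex : ∀ i, i ∈ Set.Icc (e t₂) (e t₁) → ∃ t, t ∈ Set.Icc t₁ t₂ ∧ i ≤ e t ∧ e t ≤ i + N := by
      rintro i ⟨hi1, hi2⟩
      obtain ⟨t, a1, a2, a3, a4⟩ := exists_dn h12 he' hi1 hi2
      exact ⟨t, ⟨a1, a2⟩, a3, a4⟩
    choose! c hc using ex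
    unfold dR nW
    rw [← Set.ncard_prod]
    refine ncard_image_le (Set.finite_Icc _ _)
      (k := fun i => ((w.drop i).take (e (c i) - i), Rc hG g π A ω w (e (c i)))) ?_
      (hW.prod hRI) ?_
    · intro i hi j hj h3
      obtain ⟨h4, h5⟩ := Prod.ext_iff.1 h3
      simp only at h4 h5
      have t1 : ∀ i ∈ Set.Icc (e t₂) (e t₁), w.drop i = (w.drop i).take (e (c i) - i) ++ w.drop (e (c i)) := by
        intro i hi
        conv_lhs => rw [← List.take_append_drop (e (c i) - i) (w.drop i)]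
        rw [List.drop_drop, Nat.add_sub_cancel' (hc i hi).2.1]
      unfold Rc at h5 ⊢
      rw [QuotientGroup.eq] at h5 ⊢
      rw [t1 i hi, t1 j hj, ← h4, ev_append, ev_append]
      convert h5 using 1
      group
    · intro i hi
      refine ⟨?_, ⟨c i, (hc i hi).1, rfl⟩⟩
      have := (hc i hi).2.2
      simp only [Set.mem_ofPred_eq, List.length_take]
      omega
  -- (3)
  have three1 : ((fun t => Lc hG g π A α w (s t)) '' Set.Icc t₁ t₂).ncard ≤ dL hG g π A α w (s t₁) (s t₂) := by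
    refine Set.ncard_le_ncard ?_ ((Set.finite_Icc _ _).image _)
    rintro _ ⟨t, ht, rfl⟩
    exact ⟨s t, ⟨mono_up ht.1 (fun a b c => hs a b (lt_of_lt_of_le c ht.2)),
      mono_up ht.2 (fun a b c => hs a (ht.1.trans b) c)⟩, rfl⟩
  have three2 : ((fun t => Rc hG g π A ω w (e t)) '' Set.Icc t₁ t₂).ncard ≤ dR hG g π A ω w (e t₂) (e t₁) := by
    refine Set.ncard_le_ncard ?_ ((Set.finite_Icc _ _).image _)
    rintro _ ⟨t, ht, rfl⟩
    exact ⟨e t, ⟨mono_dn ht.2 (fun a b c => he a (ht.1.trans b) c),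
      mono_dn ht.1 (fun a b c => he a b (lt_of_lt_of_le c ht.2))⟩, rfl⟩
  constructor
  · calc dL hG g π A α w (s t₁) (s t₂)
        ≤ nW T N * ((fun t => Lc hG g π A α w (s t)) '' Set.Icc t₁ t₂).ncard := two1
      _ ≤ nW T N * (Nat.card J * dR hG g π A ω w (e t₂) (e t₁)) :=
          Nat.mul_le_mul_left _ (one1.trans (Nat.mul_le_mul_left _ three2))
      _ = _ := (mul_assoc _ _ _).symm
  · calc dR hG g π A ω w (e t₂) (e t₁)
        ≤ nW T N * ((fun t => Rc hG g π A ω w (e t)) '' Set.Icc t₁ t₂).ncard := two2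
      _ ≤ nW T N * (Nat.card J * dL hG g π A α w (s t₁) (s t₂)) :=
          Nat.mul_le_mul_left _ (one2.trans (Nat.mul_le_mul_left _ three1))
      _ = _ := (mul_assoc _ _ _).symm

end

end Pool.Helper49.TG
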