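import Mathlib

/-!
# Project TG: finitely generated torsion co-context-free groups are finite

Common definitions: binary grammars with words, derivations, contexts, values in a group,
loop groups, words of a level.

Conventions.  `g : BG J T` is a binary grammar with nonterminals `J` and letters `T`, `S : J` its
start symbol; `π : T → G` gives the values of the letters in a group `G` all of whose elements have
finite order (`hG`).  `Yd g A x`: the word `x` is derived from `A`.  `Cx g A B β δ`: there is a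
derivation tree with root `A` and one hole `B`, with the word `β` left and `δ` right of the hole.
A node of a derivation tree of `w` from `S` is given by `Cx g S A α ω`, `Yd g A x`,
`α ++ x ++ ω = w`.
-/

set_option autoImplicit false

namespace Pool.Helper49.TG

/-- A binary grammar; a leaf carries a word of length at most one. -/
structure BG (J T : Type) where
  leaf : J → List T → Prop
  bin : J → J → J → Prop
  leaf_len : ∀ A w, leaf A w → w.length ≤ 1

/-- Derivations. -/
inductive Yd {J T : Type} (g : BG J T) : J → List T → Prop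
  | leaf {A : J} {w : List T} (h : g.leaf A w) : Yd g A w
  | bin {A B C : J} {u v : List T} (h : g.bin A B C) (h₁ : Yd g B u) (h₂ : Yd g C v) :
      Yd g A (u ++ v)

/-- Contexts. -/
inductive Cx {J T : Type} (g : BG J T) : J → J → List T → List T → Prop
  | nil {A : J} : Cx g A A [] []
  | left {A B C D : J} {β δ v : List T} (h : g.bin A B C) (h₁ : Cx g B D β δ)
      (h₂ : Yd g C v) : Cx g A D β (δ ++ v)
  | right {A B C D : J} {β δ u : List T} (h : g.bin A B C) (h₁ : Yd g B u)
      (h₂ : Cx g C D β δ) : Cx g A D (u ++ β) δ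

/-- The value of a word. -/
def ev {G T : Type} [Group G] (π : T → G) (w : List T) : G := (w.map π).prod

/-- The word `τ y₁ ⋯ τ y_n` of `u = y₁ ⋯ y_n`. -/
def tw {Y T : Type} (τ : Y → List T) (u : List Y) : List T := u.flatMap τ

/-- The subgroup generated by the values of the words `τ y`. -/
def Gt {G T Y : Type} [Group G] (π : T → G) (τ : Y → List T) : Subgroup G :=
  Subgroup.closure (Set.range fun y => ev π (τ y))

/-- The pairs of values of the loops at `A`. -/
def Lp {G J T : Type} [Group G] (g : BG J T) (π : T → G) (A : J) (m n : G) : Prop :=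
  ∃ β δ, Cx g A A β δ ∧ ev π β = m ∧ ev π δ = n

/-- The number of words of length at most `N`. -/
noncomputable def nW (T : Type) (N : ℕ) : ℕ := Set.ncard {w : List T | w.length ≤ N}

/-- The conjugate `a H a⁻¹`. -/
def cj {G : Type} [Group G] (a : G) (H : Subgroup G) : Subgroup G :=
  H.map (MulAut.conj a).toMonoidHom

/-- Locally finite subgroups. -/
def LF {G : Type} [Group G] (K : Subgroup G) : Prop :=
  ∀ L : Subgroup G, L ≤ K → L.FG → (L : Set G).Finite

/-- The nodes with label in `𝒮` of the derivations of `x` from `A` have yields of length `≤ N`. -/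
def Bd {J T : Type} (g : BG J T) (𝒮 : Set J) (N : ℕ) (A : J) (x : List T) : Prop :=
  ∀ B ∈ 𝒮, ∀ β y δ, Cx g A B β δ → Yd g B y → β ++ y ++ δ = x → y.length ≤ N

/-- `𝒮` is tame for the level `τ`: in all derivations from `S` of words `tw τ u` with value in `Γ`,
the nodes with label in `𝒮` have yields of length `≤ N`. -/
def Tame {G J T Y : Type} [Group G] (g : BG J T) (S : J) (π : T → G) (τ : Y → List T)
    (𝒮 : Set J) (N : ℕ) (Γ : Subgroup G) : Prop :=
  ∀ u : List Y, ev π (tw τ u) ∈ Γ → ∀ A ∈ 𝒮, ∀ α x ω, Cx g S A α ω → Yd g A x →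
    α ++ x ++ ω = tw τ u → x.length ≤ N

/-- `𝒞` is a class of mutually reachable nonterminals whose rules lead to `𝒮 ∪ 𝒞`. -/
structure Cls {J T : Type} (g : BG J T) (𝒮 𝒞 : Set J) : Prop where
  reach : ∀ A ∈ 𝒞, ∀ B ∈ 𝒞, ∃ β δ, Cx g A B β δ
  rule : ∀ A ∈ 𝒞, ∀ B C u v, g.bin A B C → Yd g B u → Yd g C v →
    (B ∈ 𝒮 ∨ B ∈ 𝒞) ∧ (C ∈ 𝒮 ∨ C ∈ 𝒞)

/-- The class is linear: no rule of `𝒞` has both children in `𝒞`. -/
def Lin {J T : Type} (g : BG J T) (𝒮 𝒞 : Set J) : Prop :=
  ∀ A ∈ 𝒞, ∀ B C u v, g.bin A B C → Yd g B u → Yd g C v →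
    (B ∈ 𝒮 ∧ C ∈ 𝒮) ∨ (B ∈ 𝒮 ∧ C ∈ 𝒞) ∨ (B ∈ 𝒞 ∧ C ∈ 𝒮)

/-- `A` is rich: there are `β, γ, δ` such that `A` derives `β A γ A δ`. -/
def Rich {J T : Type} (g : BG J T) (A : J) : Prop :=
  ∃ β γ δ, ∀ x, Yd g A x → Cx g A A β (γ ++ x ++ δ) ∧ Cx g A A (β ++ x ++ γ) δ

end Pool.Helper49.TG
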