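import Pool.Agent.Helper49.TG.Count

/-!
# TG-H: rich nonterminals

* `rich_coset`.  Let `β, γ, δ` be as in `Rich`, and `b, c, d` their values, `v = ev π x`,
  `v' = ev π x'`.  Loops at `A` (values): `(b v c, d)`, `(b v' c, d)`, `(b, c v d)`.  Then
  `(b v c, d) (b v' c, d)⁻¹ = (b v v'⁻¹ b⁻¹, 1)`, and conjugating,
  `(b, n)⁻¹ (b v v'⁻¹ b⁻¹, 1) (b, n) = (v v'⁻¹, 1)` with `n = c v d`.  (`Lp.mul`, `Lp.inv`; the
  second components multiply in the opposite order.)
* `Ml_le_normalizer`: if `(m, n)` is a loop and `(p, 1)` is a loop then `(m p m⁻¹, n⁻¹ 1 n)` is one;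
  for the converse direction of the normalizer use `m⁻¹`.
* `rich_of_not_lin`.  There are `D ∈ 𝒞` and a rule `D → B C` with derivations of `B` and `C` that
  violates `Lin`; with `hcls.rule`, `B, C ∈ 𝒞`.  For `A ∈ 𝒞` take (by `hcls.reach`) contexts
  `Cx g A D β₀ δ₀`, `Cx g B A β₁ δ₁`, `Cx g C A β₂ δ₂` and put `β = β₀ ++ β₁`, `γ = δ₁ ++ β₂`,
  `δ = δ₂ ++ δ₀`.  For `Yd g A x`: hole in `B`: `C` derives `β₂ ++ x ++ δ₂` (`Cx.plug`); hole in `C`:
  `B` derives `β₁ ++ x ++ δ₁`.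
* `rich_count`.  For every `B ∈ 𝒞` fix a context `Cx g A B β_B δ_B` and, if `B` derives a word, such
  a word `v_B`.  Let `Z` be the set of the right cosets of `Ml A` of the elements `ev π β_B` and
  `ev π β_B * ev π v_B`, `B ∈ 𝒞`; it has at most `2 * card J` elements.
  (1) If `Cx g A B α' ω'` then `ev π α'` lies in the coset of `ev π β_B` (`Lp.diff`).
  (2) If moreover `Yd g B y` then `ev π (α' ++ y)` lies in the coset of `ev π β_B * ev π v_B`:
  `p := ev π y * (ev π v_B)⁻¹` is the left value of a loop `Cx g B B β' δ'` with right value `1`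
  (`rich_coset`), so `Cx g A B (α' ++ β') (δ' ++ ω')` and by (1)
  `ev π α' * p * (ev π β_B)⁻¹ ∈ Ml A`; and
  `ev π α' * ev π y * (ev π β_B * ev π v_B)⁻¹ = ev π α' * p * (ev π β_B)⁻¹`.
  (3) Claim: if `B ∈ 𝒞`, `Cx g A B α' ω'`, `Yd g B y`, `α' ++ y ++ ω' = x` and `i ≤ y.length`, then
  there is `i' ≤ i` with `i ≤ i' + (2 * N + 1)` such that the coset of `ev π (α' ++ y.take i')` is in
  `Z`.  Induction on the derivation of `y`.  Leaf: `i' = 0`, (1).  `y = u ++ v` by `B → C₁ C₂`: if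
  `i ≤ |u|` and `C₁ ∈ 𝒞`: induction for `u` (context `Cx.snocLeft`); if `i ≤ |u|` and `C₁ ∈ 𝒮`:
  `|u| ≤ N` by `hb`, `i' = 0`; if `i > |u|` and `C₂ ∈ 𝒞`: induction for `v` (`Cx.snocRight`); if
  `i > |u|` and `C₂ ∈ 𝒮`: `|v| ≤ N`; if `C₁ ∈ 𝒞` then `i' = |u|` by (2), otherwise `|u| ≤ N` and
  `i' = 0`.
  (4) With `B = A`, `α' = ω' = []`: every coset of `ev π (x.take i)`, `i ≤ x.length`, is
  `c · ev π z` with `c ∈ Z` and `z = (x.take i).drop i'` of length `≤ 2 * N + 1`.  So there are at most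
  `2 * card J * nW T (2 * N + 1)` of them (`List.finite_length_le`).
-/

set_option autoImplicit false

namespace Pool.Helper49.TG

section
variable {G J T : Type} [Group G] {g : BG J T} {π : T → G} {𝒮 𝒞 : Set J}

theorem rich_coset (hG : ∀ x : G, IsOfFinOrder x) {A : J} (hr : Rich g A) {x x' : List T}
    (hx : Yd g A x) (hx' : Yd g A x') : Lp g π A (ev π x * (ev π x')⁻¹) 1 := by
  obtain ⟨β, γ, δ, h⟩ := hr
  have h1 : Lp g π A (ev π (β ++ x ++ γ)) (ev π δ) := ⟨_, _, (h x hx).2, rfl, rfl⟩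
  have h2 : Lp g π A (ev π (β ++ x' ++ γ)) (ev π δ) := ⟨_, _, (h x' hx').2, rfl, rfl⟩
  have h3 : Lp g π A (ev π β) (ev π (γ ++ x ++ δ)) := ⟨_, _, (h x hx).1, rfl, rfl⟩
  have h4 := ((h3.inv hG).mul (h1.mul (h2.inv hG))).mul h3
  simp only [ev_append] at h4
  convert h4 using 1 <;> group

theorem Ml_le_normalizer (hG : ∀ x : G, IsOfFinOrder x) (A : J) :
    Ml hG g π A ≤ Subgroup.normalizer (Pg hG g π A : Set G) := by
  have key : ∀ m n : G, Lp g π A m n → ∀ p, Lp g π A p 1 → Lp g π A (m * p * m⁻¹) 1 := by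
    intro m n h p hp
    have h1 := (h.mul hp).mul (h.inv hG)
    convert h1 using 1
    group
  rintro m ⟨n, h⟩
  rw [Subgroup.mem_normalizer_iff]
  intro p
  constructor
  · intro hp
    exact key m n h p hp
  · intro hp
    have h1 := key _ _ (h.inv hG) _ hp
    have e1 : m⁻¹ * (m * p * m⁻¹) * m⁻¹⁻¹ = p := by group
    rw [e1] at h1
    exact h1

theorem rich_of_not_lin (hcls : Cls g 𝒮 𝒞) (h : ¬ Lin g 𝒮 𝒞) : ∀ A ∈ 𝒞, Rich g A := by
  unfold Lin at h
  push Not at h
  obtain ⟨D, hD, B, C, u, v, hr, hu, hv, h1, h2, h3⟩ := h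
  have h4 := hcls.rule D hD B C u v hr hu hv
  have hB : B ∈ 𝒞 := by
    rcases h4.1 with h5 | h5
    · rcases h4.2 with h6 | h6
      · exact absurd h6 (h1 h5)
      · exact absurd h6 (h2 h5)
    · exact h5
  have hC : C ∈ 𝒞 := by
    rcases h4.2 with h6 | h6
    · exact absurd h6 (h3 hB)
    · exact h6
  intro A hA
  obtain ⟨β₀, δ₀, c0⟩ := hcls.reach A hA D hD
  obtain ⟨β₁, δ₁, c1⟩ := hcls.reach B hB A hA
  obtain ⟨β₂, δ₂, c2⟩ := hcls.reach C hC A hA
  refine ⟨β₀ ++ β₁, δ₁ ++ β₂, δ₂ ++ δ₀, fun x hx => ⟨?_, ?_⟩⟩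
  · have := (c0.snocLeft hr (c2.plug hx)).comp c1
    simpa [List.append_assoc] using this
  · have := (c0.snocRight hr (c1.plug hx)).comp c2
    simpa [List.append_assoc] using this

private theorem rc_qeq99 {A : J} {hG : ∀ x : G, IsOfFinOrder x} {a b : G}
    (h : b * a⁻¹ ∈ Ml hG g π A) :
    (Quotient.mk (QuotientGroup.rightRel (Ml hG g π A)) a) =
      Quotient.mk (QuotientGroup.rightRel (Ml hG g π A)) b := by
  rw [Quotient.eq, QuotientGroup.rightRel_apply]
  exact h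

private theorem rc_one99 (hG : ∀ x : G, IsOfFinOrder x) (hcls : Cls g 𝒮 𝒞) {A B : J} (hA : A ∈ 𝒞)
    (hB : B ∈ 𝒞) {α ω β δ : List T} (h : Cx g A B α ω) (h' : Cx g A B β δ) :
    (Quotient.mk (QuotientGroup.rightRel (Ml hG g π A)) (ev π α)) =
      Quotient.mk (QuotientGroup.rightRel (Ml hG g π A)) (ev π β) := by
  obtain ⟨γ, η, hr⟩ := hcls.reach B hB A hA
  exact rc_qeq99 ⟨_, Lp.diff hG h' h hr⟩

private theorem rc_two99 (hG : ∀ x : G, IsOfFinOrder x) (hcls : Cls g 𝒮 𝒞)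
    (hrich : ∀ A ∈ 𝒞, Rich g A) {A B : J} (hA : A ∈ 𝒞)
    (hB : B ∈ 𝒞) {α ω β δ y v : List T} (h : Cx g A B α ω) (h' : Cx g A B β δ) (hy : Yd g B y)
    (hv : Yd g B v) :
    (Quotient.mk (QuotientGroup.rightRel (Ml hG g π A)) (ev π (α ++ y))) =
      Quotient.mk (QuotientGroup.rightRel (Ml hG g π A)) (ev π β * ev π v) := by
  obtain ⟨β', δ', c, e1, e2⟩ := rich_coset (π := π) hG (hrich B hB) hy hv
  have h1 := rc_one99 (π := π) hG hcls hA hB (h.comp c) h'
  rw [Quotient.eq, QuotientGroup.rightRel_apply, ev_append, e1] at h1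
  apply rc_qeq99
  rw [ev_append]
  convert h1 using 1
  group

private theorem rc_claim99 (hG : ∀ x : G, IsOfFinOrder x) (hcls : Cls g 𝒮 𝒞) {A : J} (hA : A ∈ 𝒞)
    {x : List T} {N : ℕ} (hb : Bd g 𝒮 N A x)
    {Z : Set (Quotient (QuotientGroup.rightRel (Ml hG g π A)))}
    (h1 : ∀ B ∈ 𝒞, ∀ α ω, Cx g A B α ω →
      Quotient.mk (QuotientGroup.rightRel (Ml hG g π A)) (ev π α) ∈ Z)
    (h2 : ∀ B ∈ 𝒞, ∀ α ω y, Cx g A B α ω → Yd g B y →
      Quotient.mk (QuotientGroup.rightRel (Ml hG g π A)) (ev π (α ++ y)) ∈ Z)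
    {B : J} {y : List T} (hy : Yd g B y) (hB : B ∈ 𝒞) : ∀ α ω, Cx g A B α ω → α ++ y ++ ω = x →
      ∀ i ≤ y.length, ∃ i' ≤ i, i ≤ i' + (2 * N + 1) ∧
        Quotient.mk (QuotientGroup.rightRel (Ml hG g π A)) (ev π (α ++ y.take i')) ∈ Z := by
  induction hy with
  | @leaf B w h =>
    intro α ω hc _ i hi
    refine ⟨0, Nat.zero_le _, ?_, ?_⟩
    · have := g.leaf_len B w h
      omega
    · rw [List.take_zero, List.append_nil]
      exact h1 B hB α ω hc
  | @bin B C₁ C₂ u v h hu hv ihu ihv =>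
    intro α ω hc he i hi
    have hr := hcls.rule B hB C₁ C₂ u v h hu hv
    have c1 := hc.snocLeft h hv
    have c2 := hc.snocRight h hu
    have eu : α ++ u ++ (v ++ ω) = x := by rw [← he]; simp [List.append_assoc]
    have ev' : (α ++ u) ++ v ++ ω = x := by rw [← he]; simp [List.append_assoc]
    have hzero : i ≤ 2 * N + 1 → ∃ i' ≤ i, i ≤ i' + (2 * N + 1) ∧
        Quotient.mk (QuotientGroup.rightRel (Ml hG g π A))
          (ev π (α ++ (u ++ v).take i')) ∈ Z := by
      intro h3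
      refine ⟨0, Nat.zero_le _, by omega, ?_⟩
      rw [List.take_zero, List.append_nil]
      exact h1 B hB α ω hc
    rw [List.length_append] at hi
    rcases Nat.lt_or_ge u.length i with h3 | h3
    · rcases hr.2 with h4 | h4
      · -- `C₂ ∈ 𝒮`
        have hvN : v.length ≤ N := hb C₂ h4 _ _ _ c2 hv ev'
        rcases hr.1 with h5 | h5
        · have huN : u.length ≤ N := hb C₁ h5 _ _ _ c1 hu eu
          exact hzero (by omega)
        · refine ⟨u.length, h3.le, by omega, ?_⟩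
          rw [List.take_left]
          exact h2 C₁ h5 α _ u c1 hu
      · obtain ⟨i', a1, a2, a3⟩ := ihv h4 _ _ c2 ev' (i - u.length) (by omega)
        refine ⟨u.length + i', by omega, by omega, ?_⟩
        rw [List.take_length_add_append, ← List.append_assoc]
        exact a3
    · rcases hr.1 with h4 | h4
      · have huN : u.length ≤ N := hb C₁ h4 _ _ _ c1 hu eu
        exact hzero (by omega)
      · obtain ⟨i', a1, a2, a3⟩ := ihu h4 _ _ c1 eu i h3
        refine ⟨i', a1, a2, ?_⟩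
        rw [List.take_append_of_le_length (a1.trans h3)]
        exact a3

theorem rich_count (hG : ∀ x : G, IsOfFinOrder x) [Finite J] [Finite T] (hcls : Cls g 𝒮 𝒞)
    (hrich : ∀ A ∈ 𝒞, Rich g A) {A : J} (hA : A ∈ 𝒞) {x : List T} (hx : Yd g A x) {N : ℕ}
    (hb : Bd g 𝒮 N A x) :
    ((fun i : ℕ => (Quotient.mk (QuotientGroup.rightRel (Ml hG g π A)) (ev π (x.take i)))) ''
      Set.Iic x.length).ncard ≤ 2 * Nat.card J * nW T (2 * N + 1) := by
  classical
  let q : G → Quotient (QuotientGroup.rightRel (Ml hG g π A)) := Quotient.mk _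
  let bb : J → List T := fun B => if h : ∃ β, ∃ δ, Cx g A B β δ then h.choose else []
  let vv : J → List T := fun B => if h : ∃ v, Yd g B v then h.choose else []
  have hbb : ∀ B α ω, Cx g A B α ω → ∃ δ, Cx g A B (bb B) δ := by
    intro B α ω h
    have h' : ∃ β, ∃ δ, Cx g A B β δ := ⟨α, ω, h⟩
    have e : bb B = h'.choose := dif_pos h'
    rw [e]
    exact h'.choose_spec
  have hvv : ∀ B y, Yd g B y → Yd g B (vv B) := by
    intro B y h
    have h' : ∃ v, Yd g B v := ⟨y, h⟩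
    have e : vv B = h'.choose := dif_pos h'
    rw [e]
    exact h'.choose_spec
  let Z : Set (Quotient (QuotientGroup.rightRel (Ml hG g π A))) :=
    Set.range (fun B => q (ev π (bb B))) ∪ Set.range (fun B => q (ev π (bb B) * ev π (vv B)))
  have hZf : Z.Finite := (Set.finite_range _).union (Set.finite_range _)
  have hr : ∀ f : J → Quotient (QuotientGroup.rightRel (Ml hG g π A)),
      (Set.range f).ncard ≤ Nat.card J := by
    intro f
    rw [← Set.image_univ, ← Set.ncard_univ J]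
    exact Set.ncard_image_le Set.finite_univ
  have hZ : Z.ncard ≤ 2 * Nat.card J := by
    refine (Set.ncard_union_le _ _).trans ?_
    have a1 := hr (fun B => q (ev π (bb B)))
    have a2 := hr (fun B => q (ev π (bb B) * ev π (vv B)))
    omega
  have h1 : ∀ B ∈ 𝒞, ∀ α ω, Cx g A B α ω → q (ev π α) ∈ Z := by
    intro B hB α ω h
    obtain ⟨δ, h'⟩ := hbb B α ω h
    left
    exact ⟨B, (rc_one99 (π := π) hG hcls hA hB h h').symm⟩
  have h2 : ∀ B ∈ 𝒞, ∀ α ω y, Cx g A B α ω → Yd g B y → q (ev π (α ++ y)) ∈ Z := by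
    intro B hB α ω y h hy
    obtain ⟨δ, h'⟩ := hbb B α ω h
    right
    exact ⟨B, (rc_two99 (π := π) hG hcls hrich hA hB h h' hy (hvv B y hy)).symm⟩
  have h3 : ∀ i, i ∈ Set.Iic x.length → ∃ i', i' ≤ i ∧ i ≤ i' + (2 * N + 1) ∧
      q (ev π (x.take i')) ∈ Z := by
    intro i hi
    obtain ⟨i', a1, a2, a3⟩ := rc_claim99 hG hcls hA hb h1 h2 hx hA [] [] Cx.nil (by simp) i hi
    exact ⟨i', a1, a2, by simpa using a3⟩
  choose! c hc using h3
  have hW : ({z : List T | z.length ≤ 2 * N + 1}).Finite := List.finite_length_le T _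
  have h4 : ((fun i : ℕ => q (ev π (x.take i))) '' Set.Iic x.length).ncard ≤
      ({z : List T | z.length ≤ 2 * N + 1} ×ˢ Z).ncard := by
    refine ncard_image_le (Set.finite_Iic _)
      (k := fun i => ((x.drop (c i)).take (i - c i), q (ev π (x.take (c i))))) ?_
      (hW.prod hZf) ?_
    · intro i hi j hj h5
      obtain ⟨h6, h7⟩ := Prod.ext_iff.1 h5
      simp only at h6 h7
      have t1 : ∀ i ∈ Set.Iic x.length, x.take i = x.take (c i) ++ (x.drop (c i)).take (i - c i) := by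
        intro i hi
        rw [← List.take_add, Nat.add_sub_cancel' (hc i hi).1]
      have h8 : q (ev π (x.take (c i))) = q (ev π (x.take (c j))) := h7
      change Quotient.mk _ _ = Quotient.mk _ _ at h8
      change Quotient.mk _ _ = Quotient.mk _ _
      rw [Quotient.eq, QuotientGroup.rightRel_apply] at h8 ⊢
      rw [t1 i hi, t1 j hj, ← h6, ev_append, ev_append]
      convert h8 using 1
      group
    · intro i hi
      refine ⟨?_, (hc i hi).2.2⟩
      have := (hc i hi).2.1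
      simp only [Set.mem_ofPred_eq, List.length_take, List.length_drop]
      omega
  refine h4.trans ?_
  rw [Set.ncard_prod, mul_comm]
  exact Nat.mul_le_mul_right _ hZ

end

end Pool.Helper49.TG
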