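import Pool.Agent.Helper49.TG.Basic

/-!
# TG-C: tours

`exists_tour`: for every `b` there is a word `e` over `Y` with value `1`, such that for every
subgroup `H` of infinite relative index in `K := Gt π τ`, the prefix values of `tw τ e` lie in more
than `b` right cosets `H z`, and the suffix values in more than `b` left cosets `z H`.

Proof.  Write `v(u) = ev π (tw τ u)`.  The set of words `u : List Y` of length `≤ b` is finite
(`List.finite_length_le`); let `L` be a list of all of them.  For every word `u` choose a word `ī(u)`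
with value `v(u)⁻¹` (`exists_word`).  Put `e = (L.map fun u => u ++ ī(u)).flatten`.  Its value is
`1`.  For `u ∈ L` write `L = L₁ ++ u :: L₂`; then `e = e₁ ++ u ++ ī(u) ++ e₂` with `v(e₁) = v(e₂) = 1`,
so that `v(u)` is a prefix value of `tw τ e` (take `r = (tw τ (e₁ ++ u)).length`) and `v(u)⁻¹` is a
suffix value (drop the same `r`; use `v(ī(u)) v(e₂) = v(u)⁻¹`).

Claim: if `H.relIndex K = 0`, then for every `b` the elements `v(u)`, `|u| ≤ b`, lie in more than
`b` right cosets `H z`.  Let `C_b` be the set of these right cosets (a finite set, as the set of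
words is finite), as a set of elements of `Quotient (QuotientGroup.rightRel H)`.  `C_b ⊆ C_{b+1}`.
If `C_b = C_{b+1}` for some `b` then `C_b` is closed under the maps `H z ↦ H z v(y)`, `y ∈ Y`, which
are injective, hence permutations of the finite set `C_b`, hence `C_b` is closed under right
multiplication by all elements of `K` (every element of `K` is a product of letters `v(y)`:
`exists_word`, so injectivity is not even needed), so `{H z : z ∈ K}` is contained in the finite set
`C_b` (`H = H v([])`), so `H ∩ K` has finite index in `K`: contradiction.  Hence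
`|C_{b+1}| ≥ |C_b| + 1`, `|C_0| = 1`.
Left cosets: `v(u)⁻¹ H ↔ H v(u)` under inversion: `z = v(u)⁻¹`, `z' = v(u')⁻¹`:
`z⁻¹ z' = v(u) v(u')⁻¹`, so the statement for the left cosets of the suffix values `v(u)⁻¹` is the
same claim.
-/

set_option autoImplicit false

namespace Pool.Helper49.TG

variable {G T Y : Type} [Group G]

private theorem claim38 (hG : ∀ x : G, IsOfFinOrder x) [Finite Y] (π : T → G) (τ : Y → List T)
    (H : Subgroup G) (hH : H.relIndex (Gt π τ) = 0) (b : ℕ) : ∃ s : Finset G, b < s.card ∧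
      (∀ z ∈ s, ∃ u : List Y, u.length ≤ b ∧ ev π (tw τ u) = z) ∧
      ∀ z ∈ s, ∀ z' ∈ s, z * z'⁻¹ ∈ H → z = z' := by
  classical
  set v : List Y → G := fun u => ev π (tw τ u) with hv
  set W : ℕ → Set (List Y) := fun b => {u | u.length ≤ b} with hW
  have hWf : ∀ b, (W b).Finite := fun b => List.finite_length_le Y b
  set q : G → Quotient (QuotientGroup.rightRel H) := Quotient.mk _ with hqd
  have hq : ∀ x y, q x = q y ↔ y * x⁻¹ ∈ H := fun x y => by
    rw [hqd, Quotient.eq, QuotientGroup.rightRel_apply]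
  set C : ℕ → Set (Quotient (QuotientGroup.rightRel H)) := fun b => q '' (v '' W b) with hC
  have hCf : ∀ b, (C b).Finite := fun b => ((hWf b).image v).image q
  have hmono : ∀ b, C b ⊆ C (b + 1) := fun b =>
    Set.image_mono (Set.image_mono fun u hu => Nat.le_succ_of_le hu)
  have hne : ∀ b, C b ≠ C (b + 1) := by
    intro b hb
    have hall : ∀ u : List Y, q (v u) ∈ C b := by
      intro u
      induction u using List.reverseRecOn with
      | nil => exact ⟨_, ⟨[], Nat.zero_le _, rfl⟩, rfl⟩
      | append_singleton u y ih =>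
        obtain ⟨_, ⟨w, hw, rfl⟩, hwq⟩ := ih
        rw [hb]
        refine ⟨_, ⟨w ++ [y], ?_, rfl⟩, ?_⟩
        · change (w ++ [y]).length ≤ b + 1
          rw [List.length_append, List.length_singleton]
          exact Nat.succ_le_succ hw
        · rw [hq] at hwq ⊢
          have e1 : v (u ++ [y]) * (v (w ++ [y]))⁻¹ = v u * (v w)⁻¹ := by
            simp only [hv, tw_append, ev_append]
            group
          rw [e1]
          exact hwq
    have hinK : ∀ k : Gt π τ, q ((k : G)⁻¹) ∈ C b := fun k => by
      obtain ⟨u, hu⟩ := exists_word hG π τ ((Gt π τ).inv_mem k.2)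
      rw [← hu]
      exact hall u
    have hfinC : Finite (C b) := (hCf b).to_subtype
    have hfin : Finite (Gt π τ ⧸ H.subgroupOf (Gt π τ)) := by
      refine Finite.of_injective (β := C b)
        (fun x => ⟨q (((Quotient.out x : Gt π τ) : G)⁻¹), hinK _⟩) ?_
      intro x y hxy
      have h1 := congrArg Subtype.val hxy
      simp only at h1
      rw [hq, inv_inv] at h1
      rw [← QuotientGroup.out_eq' y, ← QuotientGroup.out_eq' x]
      symm
      rw [QuotientGroup.eq, Subgroup.mem_subgroupOf]
      simpa using h1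
    exact Subgroup.index_ne_zero_of_finite (H := H.subgroupOf (Gt π τ)) hH
  have hcard : ∀ b, b < (C b).ncard := by
    intro b
    induction b with
    | zero => exact (Set.ncard_pos (hCf 0)).2 ⟨_, _, ⟨[], Nat.zero_le _, rfl⟩, rfl⟩
    | succ b ih =>
      have := Set.ncard_lt_ncard (ssubset_of_subset_of_ne (hmono b) (hne b)) (hCf (b + 1))
      omega
  obtain ⟨s', hs', hbij⟩ := Set.exists_subset_bijOn (v '' W b) q
  have hs'f : s'.Finite := ((hWf b).image v).subset hs'
  refine ⟨hs'f.toFinset, ?_, ?_, ?_⟩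
  · rw [← Set.ncard_eq_toFinset_card _ hs'f, ← hbij.injOn.ncard_image, hbij.image_eq]
    exact hcard b
  · intro z hz
    obtain ⟨u, hu, rfl⟩ := hs' (hs'f.mem_toFinset.1 hz)
    exact ⟨u, hu, rfl⟩
  · intro z hz z' hz' h
    refine (hbij.injOn (hs'f.mem_toFinset.1 hz') (hs'f.mem_toFinset.1 hz) ?_).symm
    rw [hq]
    exact h

theorem exists_tour (hG : ∀ x : G, IsOfFinOrder x) [Finite Y] (π : T → G) (τ : Y → List T)
    (b : ℕ) : ∃ e : List Y, ev π (tw τ e) = 1 ∧
      (∀ H : Subgroup G, H.relIndex (Gt π τ) = 0 → ∃ s : Finset G, b < s.card ∧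
        (∀ z ∈ s, ∃ r ≤ (tw τ e).length, z = ev π ((tw τ e).take r)) ∧
        ∀ z ∈ s, ∀ z' ∈ s, z * z'⁻¹ ∈ H → z = z') ∧
      (∀ H : Subgroup G, H.relIndex (Gt π τ) = 0 → ∃ s : Finset G, b < s.card ∧
        (∀ z ∈ s, ∃ r ≤ (tw τ e).length, z = ev π ((tw τ e).drop r)) ∧
        ∀ z ∈ s, ∀ z' ∈ s, z⁻¹ * z' ∈ H → z = z') := by
  classical
  have hinv : ∀ u : List Y, ∃ w : List Y, ev π (tw τ w) = (ev π (tw τ u))⁻¹ := fun u =>
    exists_word hG π τ ((Gt π τ).inv_mem (ev_tw_mem π τ u))
  choose i hi using hinv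
  set L : List (List Y) := (List.finite_length_le Y b).toFinset.toList with hL
  have hmem : ∀ u : List Y, u.length ≤ b → u ∈ L := fun u hu => by
    rw [hL, Finset.mem_toList, Set.Finite.mem_toFinset]
    exact hu
  have hone : ∀ M : List (List Y), ev π (tw τ (M.map fun u => u ++ i u).flatten) = 1 := by
    intro M
    induction M with
    | nil => simp
    | cons u M ih =>
      rw [List.map_cons, List.flatten_cons, tw_append, ev_append, ih, tw_append, ev_append, hi,
        mul_inv_cancel, mul_one]
  set e : List Y := (L.map fun u => u ++ i u).flatten with he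
  have hpre : ∀ u : List Y, u.length ≤ b → ∃ r ≤ (tw τ e).length,
      ev π (tw τ u) = ev π ((tw τ e).take r) ∧ (ev π (tw τ u))⁻¹ = ev π ((tw τ e).drop r) := by
    intro u hu
    obtain ⟨M, N, hMN⟩ := List.append_of_mem (hmem u hu)
    have he2 : tw τ e = tw τ ((M.map fun u => u ++ i u).flatten ++ u) ++
        tw τ (i u ++ (N.map fun u => u ++ i u).flatten) := by
      rw [he, hMN, ← tw_append]
      congr 1
      simp [List.append_assoc]
    refine ⟨(tw τ ((M.map fun u => u ++ i u).flatten ++ u)).length, ?_, ?_, ?_⟩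
    · rw [he2, List.length_append]
      exact Nat.le_add_right _ _
    · rw [he2, List.take_left, tw_append, ev_append, hone, one_mul]
    · rw [he2, List.drop_left, tw_append, ev_append, hone, mul_one, hi]
  refine ⟨e, hone L, ?_, ?_⟩
  · intro H hH
    obtain ⟨s, h1, h2, h3⟩ := claim38 hG π τ H hH b
    refine ⟨s, h1, fun z hz => ?_, h3⟩
    obtain ⟨u, hu, rfl⟩ := h2 z hz
    obtain ⟨r, hr, h4, -⟩ := hpre u hu
    exact ⟨r, hr, h4⟩
  · intro H hH
    obtain ⟨s, h1, h2, h3⟩ := claim38 hG π τ H hH b
    refine ⟨s.image fun z => z⁻¹, ?_, fun z hz => ?_, ?_⟩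
    · rw [Finset.card_image_of_injective _ inv_injective]
      exact h1
    · obtain ⟨x, hx, rfl⟩ := Finset.mem_image.1 hz
      obtain ⟨u, hu, rfl⟩ := h2 x hx
      obtain ⟨r, hr, -, h4⟩ := hpre u hu
      exact ⟨r, hr, h4⟩
    · intro z hz z' hz' h
      obtain ⟨x, hx, rfl⟩ := Finset.mem_image.1 hz
      obtain ⟨x', hx', rfl⟩ := Finset.mem_image.1 hz'
      rw [inv_inv] at h
      rw [h3 x hx x' hx' h]

end Pool.Helper49.TG
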