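import Pool.Agent.Helper49.TG.Value
import Pool.Agent.Helper49.TG.Tour
import Pool.Agent.Helper49.TG.RichBasic

/-!
# TG-L: exploring words for rich classes

`mid`: a factor `x` of `tw τ u` that is at least twice as long as all `τ y` contains a complete
letter: with `T₀ ≥ |τ y|` for all `y`, `1 ≤ T₀`, `2 T₀ ≤ |x|` and `α ++ x ++ ω = tw τ u` there are
`u = u₁ ++ y :: u₂` and `σ`, `x'` with `α ++ σ = tw τ u₁`, `x = σ ++ τ y ++ x'`, (and `σ = []` or
`σ <:+ τ z` for some `z`): `split_ceil` for `α ++ (x ++ ω)`: `|σ| ≤ T₀`; `u₂'` is not empty, since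
otherwise `x ++ ω = σ` and `|x| ≤ T₀`; `u₂' = y :: u₂`, `x ++ ω = σ ++ τ y ++ tw τ u₂`, and
`|σ ++ τ y| ≤ 2 T₀ ≤ |x|`.

`explore`.  Let `b = 2 * card J * nW T (2 N + 1)` and let `e` be the tour of `exists_tour`;
`E := tw τ e`, `τ' y = tw τ (y :: e) = τ y ++ E`.  `Tame` for `τ` applies to the words `tw τ' u`,
since `tw τ' u = tw τ (tw (fun y => y :: e) u)` (`tw_tw`).  Let `T₀ ≥ 1` be a bound for all
`|τ' y|` and `Ne = 2 T₀`.  Let `A, α, x, ω` be given with `Ne ≤ |x|`; `Bd g 𝒮 N A x` holds by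
`Tame` (compose contexts with `Cx g S A α ω`).  Suppose the relative index is `0`.  By `mid`
`x = σ ++ τ y ++ E ++ x'` with `α ++ σ = tw τ' u₁`.  Let `p = |σ ++ τ y|`,
`c = ev π (σ ++ τ y)`, `b₀ = ev π α * c = ev π (tw τ' u₁ ++ τ y) ∈ Gt π τ`.  The subgroup
`H' = cj c⁻¹ (Ml A)` equals `cj b₀⁻¹ (cj (ev π α) (Ml A))` (`cj_cj`), so `H'.relIndex (Gt π τ) = 0`
(`relIndex_cj`).  Take the finset `s` of the tour property for `H'`; for `z = ev π (E.take r) ∈ s`
the right coset of `Ml A` of `ev π (x.take (p + r)) = c * z` belongs to the set of `rich_count`,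
and these cosets are different for different `z`, since `(c z) (c z')⁻¹ ∈ Ml A` means
`z z'⁻¹ ∈ H'`.  So that set has more than `b` elements, against `rich_count`.
-/

set_option autoImplicit false

namespace Pool.Helper49.TG

section
variable {G J T Y : Type} [Group G] {g : BG J T} {π : T → G} {S : J} {𝒮 𝒞 : Set J}

theorem mid {τ : Y → List T} {T₀ : ℕ} (hT₀ : 1 ≤ T₀) (hT : ∀ y, (τ y).length ≤ T₀) {u : List Y}
    {α x ω : List T} (h : α ++ x ++ ω = tw τ u) (hx : 2 * T₀ ≤ x.length) :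
    ∃ (u₁ u₂ : List Y) (y : Y) (σ x' : List T), u = u₁ ++ y :: u₂ ∧ α ++ σ = tw τ u₁ ∧
      x = σ ++ τ y ++ x' ∧ σ.length ≤ T₀ ∧ (σ = [] ∨ ∃ z, σ <:+ τ z) := by
  obtain ⟨u₁, u₂', σ, hu, h1, h2, h3⟩ := split_ceil (τ := τ) (u := u) (α := α) (ρ := x ++ ω)
    (by rw [← h, List.append_assoc])
  have hσ : σ.length ≤ T₀ := by
    rcases h3 with h3 | ⟨z, h3⟩
    · rw [h3, List.length_nil]
      exact Nat.zero_le _
    · exact h3.length_le.trans (hT z)
  cases u₂' with
  | nil =>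
    exfalso
    rw [tw_nil, List.append_nil] at h2
    have h4 := congrArg List.length h2
    rw [List.length_append] at h4
    omega
  | cons y u₂ =>
    rw [tw_cons, ← List.append_assoc] at h2
    have h4 : σ ++ τ y <+: x := by
      refine List.prefix_of_prefix_length_le (l₃ := x ++ ω) ?_ (List.prefix_append _ _) ?_
      · rw [h2]
        exact List.prefix_append _ _
      · rw [List.length_append]
        have := hT y
        omega
    obtain ⟨x', hx'⟩ := h4
    exact ⟨u₁, u₂, y, σ, x', hu, h1, hx'.symm, hσ, h3⟩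

theorem explore (hG : ∀ x : G, IsOfFinOrder x) [Finite J] [Finite T] [Finite Y]
    {τ : Y → List T} {N : ℕ} {Γ : Subgroup G} (hT : Tame g S π τ 𝒮 N Γ) (hcls : Cls g 𝒮 𝒞)
    (hrich : ∀ A ∈ 𝒞, Rich g A) :
    ∃ (e : List Y) (Ne : ℕ), ev π (tw τ e) = 1 ∧
      ∀ u, ev π (tw (fun y => tw τ (y :: e)) u) ∈ Γ → ∀ A ∈ 𝒞, ∀ α x ω, Cx g S A α ω →
        Yd g A x → α ++ x ++ ω = tw (fun y => tw τ (y :: e)) u → Ne ≤ x.length →
        (cj (ev π α) (Ml hG g π A)).relIndex (Gt π τ) ≠ 0 := by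
  classical
  obtain ⟨e, he1, he2, -⟩ := exists_tour hG π τ (2 * Nat.card J * nW T (2 * N + 1))
  obtain ⟨T₀, hT₀, hTb⟩ : ∃ T₀ : ℕ, 1 ≤ T₀ ∧ ∀ y, (tw τ (y :: e)).length ≤ T₀ := by
    obtain ⟨M, hM⟩ := (Set.finite_range fun y => (tw τ (y :: e)).length).bddAbove
    exact ⟨M + 1, Nat.le_add_left _ _, fun y => (hM ⟨y, rfl⟩).trans (Nat.le_succ _)⟩
  refine ⟨e, 2 * T₀, he1, ?_⟩
  intro u hu A hA α x ω hcx hyd heq hlen hrel
  have hbd : Bd g 𝒮 N A x := by
    intro B hB β y δ h1 h2 h3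
    refine hT (tw (fun y => y :: e) u) ?_ B hB (α ++ β) y (δ ++ ω) (hcx.comp h1) h2 ?_
    · rw [tw_tw]
      exact hu
    · rw [tw_tw, ← heq, ← h3]
      simp [List.append_assoc]
  obtain ⟨u₁, u₂, y, σ, x', hu12, hασ, hx', -, -⟩ := mid hT₀ hTb heq hlen
  set c : G := ev π (σ ++ τ y) with hc
  have hb0 : ev π α * c ∈ Gt π τ := by
    have h1 : ev π α * c = ev π (tw τ (tw (fun y => y :: e) u₁ ++ [y])) := by
      rw [tw_append, tw_tw, ← hασ, hc]
      simp
    rw [h1]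
    exact ev_tw_mem π τ _
  have hH' : (cj c⁻¹ (Ml hG g π A)).relIndex (Gt π τ) = 0 := by
    have h1 : cj c⁻¹ (Ml hG g π A) = cj (ev π α * c)⁻¹ (cj (ev π α) (Ml hG g π A)) := by
      rw [cj_cj]
      congr 1
      group
    rw [h1, relIndex_cj ((Gt π τ).inv_mem hb0), hrel]
  obtain ⟨s, hs1, hs2, hs3⟩ := he2 _ hH'
  have hcount := rich_count (π := π) hG hcls hrich hA hyd hbd
  refine absurd (lt_of_lt_of_le hs1 (le_trans ?_ hcount)) (lt_irrefl _)
  rw [← Set.ncard_coe_finset]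
  refine Set.ncard_le_ncard_of_injOn
    (fun z => (Quotient.mk (QuotientGroup.rightRel (Ml hG g π A)) (c * z))) ?_ ?_ ?_
  · intro z hz
    obtain ⟨r, hr, hzr⟩ := hs2 z hz
    refine ⟨(σ ++ τ y).length + r, ?_, ?_⟩
    · rw [Set.mem_Iic, hx', tw_cons]
      simp only [List.length_append]
      omega
    · simp only
      congr 1
      have h1 : x = (σ ++ τ y) ++ (tw τ e ++ x') := by
        rw [hx', tw_cons]
        simp [List.append_assoc]
      rw [h1, List.take_length_add_append, ev_append, ← hc, hzr, List.take_append_of_le_length hr]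
  · intro z hz z' hz' h
    have h1 := Quotient.exact h
    rw [← Quotient.eq_iff_equiv, Quotient.eq, QuotientGroup.rightRel_apply] at h1
    refine (hs3 z' hz' z hz ?_).symm
    rw [mem_cj]
    simpa [mul_assoc] using h1
  · exact (Set.finite_Iic _).image _

end

end Pool.Helper49.TG
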