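import Pool.Agent.Helper49.TG.Basic

/-!
# TG-J: words for subgroups, geodesic words

* `exists_level`: `H` is the closure of a finite set `s` (`hfg`), each `h ∈ s` is `ev π (tw τ u_h)`
  for some word `u_h` (`exists_word`).  Choose a letter `y₀` and let `o > 0` be the order of
  `ev π (τ y₀)`; replace `u_h` by the nonempty word `u_h ++ List.replicate o y₀` of the same value.
  Enumerate `s` by `Fin n` (`Finset.equivFin`).
* `geo`: the words `u` over `Y` which are shortest among the words with value in the same coset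
  of `K` (`K` is normalized by `Gt π τ`).
* `geo_factor`: if `v'` is a word with `(ev v')⁻¹ ev v ∈ K` then
  `(ev (u v' w))⁻¹ ev (u v w) = (ev w)⁻¹ ((ev v')⁻¹ ev v) ev w ∈ K`.
* `geo_long`: otherwise all geodesic words have length `< n`, and since every coset `a K`,
  `a ∈ Gt π τ`, contains the value of a geodesic word (take a shortest word among those with value
  in `a K`; there is one by `exists_word`), there are only finitely many cosets
  (`List.finite_length_lt` or `List.finite_length_le`), so that `K.relIndex (Gt π τ) ≠ 0`.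
* `geo_bound`: if there is a word `u₀` with `a⁻¹ ev u₀ ∈ K` take `C = |u₀|`, otherwise `C = 0`.
-/

set_option autoImplicit false

namespace Pool.Helper49.TG

section
variable {G T Y : Type} [Group G] {π : T → G} {τ : Y → List T}

theorem exists_level (hG : ∀ x : G, IsOfFinOrder x) [Nonempty Y] {H : Subgroup G}
    (hH : H ≤ Gt π τ) (hfg : H.FG) :
    ∃ (n : ℕ) (σ : Fin n → List Y), (∀ i, σ i ≠ []) ∧ Gt π (fun i => tw τ (σ i)) = H := by
  classical
  obtain ⟨s, hs⟩ := hfg
  obtain ⟨y0⟩ := (inferInstance : Nonempty Y)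
  have hpow : ∀ n : ℕ, ev π (tw τ (List.replicate n y0)) = ev π (τ y0) ^ n := by
    intro n
    induction n with
    | zero => simp
    | succ n ih => rw [List.replicate_succ, tw_cons, ev_append, ih, pow_succ']
  have hword : ∀ h : s, ∃ u : List Y, u ≠ [] ∧ ev π (tw τ u) = h := by
    intro h
    have hh : (h : G) ∈ Gt π τ := hH (hs ▸ Subgroup.subset_closure h.2)
    obtain ⟨u, hu⟩ := exists_word hG π τ hh
    refine ⟨u ++ List.replicate (orderOf (ev π (τ y0))) y0, ?_, ?_⟩
    · intro he
      have h1 := congrArg List.length he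
      have h2 := (hG (ev π (τ y0))).orderOf_pos
      simp only [List.length_append, List.length_replicate, List.length_nil] at h1
      omega
    · rw [tw_append, ev_append, hu, hpow, pow_orderOf_eq_one, mul_one]
  choose σ h1 h2 using hword
  refine ⟨s.card, fun i => σ (s.equivFin.symm i), fun i => h1 _, ?_⟩
  unfold Gt
  rw [← hs]
  congr 1
  ext x
  constructor
  · rintro ⟨i, rfl⟩
    simp only [h2]
    exact (s.equivFin.symm i).2
  · intro hx
    refine ⟨s.equivFin ⟨x, hx⟩, ?_⟩
    simp only [h2, Equiv.symm_apply_apply]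

/-- Geodesic words with respect to `K`. -/
def geo (π : T → G) (τ : Y → List T) (K : Subgroup G) : Set (List Y) :=
  {u | ∀ u' : List Y, (ev π (tw τ u'))⁻¹ * ev π (tw τ u) ∈ K → u.length ≤ u'.length}

theorem geo_factor {K : Subgroup G} (hn : Gt π τ ≤ Subgroup.normalizer (K : Set G))
    {u v w : List Y} (h : u ++ v ++ w ∈ geo π τ K) : v ∈ geo π τ K := by
  intro v' hv'
  have h1 := h (u ++ v' ++ w) (by
    have hw : (ev π (tw τ w))⁻¹ ∈ Subgroup.normalizer (K : Set G) :=
      hn ((Gt π τ).inv_mem (ev_tw_mem π τ w))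
    have h2 := (Subgroup.mem_normalizer_iff.1 hw _).1 hv'
    simp only [tw_append, ev_append, mul_inv_rev, inv_inv] at h2 ⊢
    convert h2 using 1
    group)
  simp only [List.length_append] at h1
  omega

theorem geo_long (hG : ∀ x : G, IsOfFinOrder x) [Finite Y] {K : Subgroup G}
    (hn : Gt π τ ≤ Subgroup.normalizer (K : Set G)) (hidx : K.relIndex (Gt π τ) = 0) (n : ℕ) :
    ∃ w ∈ geo π τ K, n ≤ w.length := by
  by_contra hcon
  push Not at hcon
  have hfin : Finite {w : List Y // w.length < n} := (List.finite_length_lt Y n).to_subtype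
  let f : {w : List Y // w.length < n} → Gt π τ ⧸ K.subgroupOf (Gt π τ) := fun w =>
    QuotientGroup.mk ⟨ev π (tw τ w.1), ev_tw_mem π τ w.1⟩
  have hf : Function.Surjective f := by
    intro q
    induction q using QuotientGroup.induction_on with
    | _ a =>
      obtain ⟨a, ha⟩ := a
      have hex : ∃ m : ℕ, ∃ u : List Y, u.length = m ∧ a⁻¹ * ev π (tw τ u) ∈ K := by
        obtain ⟨u, hu⟩ := exists_word hG π τ ha
        exact ⟨u.length, u, rfl, by rw [hu, inv_mul_cancel]; exact K.one_mem⟩
      classical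
      obtain ⟨u, hu, huK⟩ := Nat.find_spec hex
      have hgeo : u ∈ geo π τ K := by
        intro u' hu'
        rw [hu]
        apply Nat.find_min' hex
        refine ⟨u', rfl, ?_⟩
        have h1 := K.mul_mem huK (K.inv_mem hu')
        simpa [mul_assoc] using h1
      refine ⟨⟨u, hcon u hgeo⟩, ?_⟩
      show (QuotientGroup.mk _ : Gt π τ ⧸ K.subgroupOf (Gt π τ)) = QuotientGroup.mk _
      symm
      rw [QuotientGroup.eq, Subgroup.mem_subgroupOf]
      exact huK
  have : Finite (Gt π τ ⧸ K.subgroupOf (Gt π τ)) := Finite.of_surjective f hf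
  exact Subgroup.index_ne_zero_of_finite (H := K.subgroupOf (Gt π τ)) hidx

theorem geo_bound (π : T → G) (τ : Y → List T) (K : Subgroup G) (a : G) :
    ∃ C : ℕ, ∀ u ∈ geo π τ K, a⁻¹ * ev π (tw τ u) ∈ K → u.length ≤ C := by
  by_cases hex : ∃ u₀ : List Y, a⁻¹ * ev π (tw τ u₀) ∈ K
  · obtain ⟨u₀, hu₀⟩ := hex
    refine ⟨u₀.length, fun u hu hua => hu u₀ ?_⟩
    have h1 := K.mul_mem (K.inv_mem hu₀) hua
    simpa [mul_assoc] using h1
  · exact ⟨0, fun u _ hua => absurd ⟨u, hua⟩ hex⟩

end

end Pool.Helper49.TG
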