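import Pool.Agent.Helper49.TG.Basic

/-!
# TG-A: conjugates and relative index

`H.relIndex K ≠ 0` means that `H ∩ K` has finite index in `K`.

* `exists_core`: let `C` be the normal core (in `K`) of `H.subgroupOf K`; it has finite index in `K`
  (`Subgroup.normalCore`, `Subgroup.finiteIndex_normalCore`); take `Γ = C.map K.subtype`, then
  `Γ.subgroupOf K = C`.  If `x ∈ Γ` and `b ∈ K` then `b⁻¹ x b ∈ Γ ≤ H`.
* `finite_conj`: `cj b Q` depends only on the coset `b N`, that is if `b⁻¹ b' ∈ N` then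
  `cj b Q = cj b' Q` (`cj n Q = Q` for `n` in the normalizer).  The cosets `b (N ∩ K)`, `b ∈ K`, are
  finite in number: `K ⧸ N.subgroupOf K` is finite.  So the set is the image of a finite type.
* `norm_cj`: the normalizer of `cj b Q` contains `cj b` of the normalizer of `Q`, whose relative
  index in `K` is the one of the normalizer of `Q` (`relIndex_cj`);
  `Subgroup.relIndex_eq_zero_of_le_left` or similar.
* `exists_core_iInf`: finite intersections of the groups of `exists_core`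
  (`Subgroup.relIndex_iInf_ne_zero`).
-/

set_option autoImplicit false

namespace Pool.Helper49.TG

variable {G : Type} [Group G]

theorem exists_core {H K : Subgroup G} (h : H.relIndex K ≠ 0) :
    ∃ Γ : Subgroup G, Γ.relIndex K ≠ 0 ∧ ∀ x ∈ Γ, ∀ b ∈ K, b⁻¹ * x * b ∈ H := by
  have hfi : (H.subgroupOf K).FiniteIndex := ⟨h⟩
  refine ⟨(H.subgroupOf K).normalCore.map K.subtype, ?_, ?_⟩
  · have h1 : ((H.subgroupOf K).normalCore.map K.subtype).subgroupOf K
        = (H.subgroupOf K).normalCore := by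
      unfold Subgroup.subgroupOf
      exact Subgroup.comap_map_eq_self_of_injective K.subtype_injective _
    have h2 : ((H.subgroupOf K).normalCore).index ≠ 0 :=
      (Subgroup.finiteIndex_normalCore (H.subgroupOf K)).index_ne_zero
    unfold Subgroup.relIndex
    rw [h1]
    exact h2
  · rintro x ⟨y, hy, rfl⟩ b hb
    have h3 : (⟨b, hb⟩ : K)⁻¹ * y * ((⟨b, hb⟩ : K)⁻¹)⁻¹ ∈ (H.subgroupOf K).normalCore :=
      (Subgroup.normalCore_normal (H.subgroupOf K)).conj_mem y hy (⟨b, hb⟩ : K)⁻¹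
    have h4 := Subgroup.normalCore_le (H.subgroupOf K) h3
    rw [Subgroup.mem_subgroupOf] at h4
    simpa using h4

theorem exists_core_iInf {ι : Type} [Finite ι] (H : ι → Subgroup G) (K : Subgroup G) :
    ∃ Γ : Subgroup G, Γ.relIndex K ≠ 0 ∧
      ∀ i, (H i).relIndex K ≠ 0 → ∀ x ∈ Γ, ∀ b ∈ K, b⁻¹ * x * b ∈ H i := by
  have h1 : ∀ i, ∃ Γ : Subgroup G, Γ.relIndex K ≠ 0 ∧
      ((H i).relIndex K ≠ 0 → ∀ x ∈ Γ, ∀ b ∈ K, b⁻¹ * x * b ∈ H i) := by
    intro i
    by_cases hi : (H i).relIndex K ≠ 0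
    · obtain ⟨Γ, hΓ, hx⟩ := exists_core hi
      exact ⟨Γ, hΓ, fun _ => hx⟩
    · refine ⟨⊤, ?_, fun h => absurd h hi⟩
      rw [Subgroup.relIndex_top_left]
      exact one_ne_zero
  choose Γ hΓ hx using h1
  refine ⟨⨅ i, Γ i, Subgroup.relIndex_iInf_ne_zero hΓ, ?_⟩
  intro i hi x hxm b hb
  exact hx i hi x ((Subgroup.mem_iInf.mp hxm) i) b hb

theorem finite_conj {Q N K : Subgroup G} (hN : N ≤ Subgroup.normalizer (Q : Set G))
    (h : N.relIndex K ≠ 0) : {R : Subgroup G | ∃ b ∈ K, R = cj b Q}.Finite := by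
  have hfi : (N.subgroupOf K).FiniteIndex := ⟨h⟩
  have hfin : Finite (K ⧸ N.subgroupOf K) := Subgroup.finite_quotient_of_finiteIndex
  have hcj : ∀ n ∈ Subgroup.normalizer (Q : Set G), cj n Q = Q := by
    intro n hn
    ext x
    rw [mem_cj]
    have h1 := (Subgroup.mem_normalizer_iff.mp ((Subgroup.normalizer (Q : Set G)).inv_mem hn)) x
    rw [inv_inv] at h1
    exact h1.symm
  refine (Set.finite_range (fun q : K ⧸ N.subgroupOf K => cj (q.out : G) Q)).subset ?_
  rintro R ⟨b, hb, rfl⟩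
  refine ⟨((⟨b, hb⟩ : K) : K ⧸ N.subgroupOf K), ?_⟩
  obtain ⟨n, hn⟩ := QuotientGroup.mk_out_eq_mul (N.subgroupOf K) (⟨b, hb⟩ : K)
  have h2 : (((((⟨b, hb⟩ : K) : K ⧸ N.subgroupOf K).out : K)) : G) = b * ((n : K) : G) := by
    rw [hn]
    rfl
  have h3 : ((n : K) : G) ∈ N := (Subgroup.mem_subgroupOf.mp n.2)
  show cj ((((⟨b, hb⟩ : K) : K ⧸ N.subgroupOf K).out : K) : G) Q = cj b Q
  rw [h2, ← cj_cj, hcj _ (hN h3)]

theorem norm_cj {Q K : Subgroup G} {b : G} (hb : b ∈ K)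
    (h : (Subgroup.normalizer (Q : Set G)).relIndex K ≠ 0) :
    (Subgroup.normalizer (cj b Q : Set G)).relIndex K ≠ 0 := by
  have hle : cj b (Subgroup.normalizer (Q : Set G)) ≤ Subgroup.normalizer (cj b Q : Set G) := by
    intro n hn
    rw [mem_cj] at hn
    rw [Subgroup.mem_normalizer_iff]
    intro x
    have h1 := (Subgroup.mem_normalizer_iff.mp hn) (b⁻¹ * x * b)
    have h2 : b⁻¹ * n * b * (b⁻¹ * x * b) * (b⁻¹ * n * b)⁻¹ = b⁻¹ * (n * x * n⁻¹) * b := by
      group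
    rw [h2] at h1
    rw [mem_cj, mem_cj]
    exact h1
  intro h0
  apply h
  rw [← relIndex_cj hb]
  exact Subgroup.relIndex_eq_zero_of_le_left hle h0

end Pool.Helper49.TG
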