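import Pool.Agent.Helper49.TG.Basic

/-!
# TG-D: spines and windows

* `spine`.  Induction on the derivation `hx` (generalize nothing else; `Bd.of_cx` passes the bound
  to the child).  Leaf: `k = 0`, `B _ = A`, `x.length ≤ 1`.  `x = u ++ v` by a rule `A → B' C'`:
  `hlin` gives three cases.
  - `B', C' ∈ 𝒮`: `k = 0`, `B _ = A`; `u.length ≤ N` by `hb B' _ [] u ([] ++ v)` with the context
    `Cx.left h Cx.nil h₂`, `v.length ≤ N` by `hb C' _ (u ++ []) v []` with `Cx.right h h₁ Cx.nil`.
  - `B' ∈ 𝒮`, `C' ∈ 𝒞`: `u.length ≤ N`; take `(k, B, p, q)` for `v` and put `k + 1`,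
    `B₁ 0 = A, B₁ (t+1) = B t`, `p₁ 0 = 0, p₁ (t+1) = u.length + p t`, `q₁ 0 = 0, q₁ (t+1) = q t`;
    `(u ++ v).take (u.length + p) = u ++ v.take p`,
    `(u ++ v).drop (u.length + v.length - q) = v.drop (v.length - q)`; contexts by `Cx.right`.
  - `B' ∈ 𝒞`, `C' ∈ 𝒮`: `v.length ≤ N`; `(k, B, p, q)` for `u`, and `q₁ (t+1) = v.length + q t`,
    `(u ++ v).take p = u.take p` as `p ≤ u.length`,
    `(u ++ v).drop (u.length + v.length - (v.length + q)) = u.drop (u.length - q) ++ v`.
* `window`.  Induction on `hx`.  A leaf has length `≤ 1 ≤ m`.  For `x = u ++ v`: if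
  `x.length ≤ 2 * m` take `A` itself.  Otherwise `u` or `v` is longer than `m ≥ N`, so its label is
  not in `𝒮` (by `hb`), hence in `𝒞`; use the induction hypothesis and `Cx.left` / `Cx.right`.
-/

set_option autoImplicit false

namespace Pool.Helper49.TG

variable {J T : Type} {g : BG J T} {𝒮 𝒞 : Set J}

private theorem take_app88 (u v : List T) (p : ℕ) :
    (u ++ v).take (u.length + p) = u ++ v.take p := by
  rw [List.take_append, List.take_of_length_le (by omega), Nat.add_sub_cancel_left]

private theorem drop_app88 (u v : List T) {q : ℕ} (hq : q ≤ v.length) :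
    (u ++ v).drop (u.length + v.length - q) = v.drop (v.length - q) := by
  rw [List.drop_append, List.drop_of_length_le (by omega), List.nil_append]
  congr 1
  omega

private theorem take_app88' (u v : List T) {p : ℕ} (hp : p ≤ u.length) :
    (u ++ v).take p = u.take p := by
  rw [List.take_append, Nat.sub_eq_zero_of_le hp, List.take_zero, List.append_nil]

private theorem drop_app88' (u v : List T) (q : ℕ) :
    (u ++ v).drop (u.length + v.length - (v.length + q)) = u.drop (u.length - q) ++ v := by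
  rw [List.drop_append]
  have h1 : u.length + v.length - (v.length + q) = u.length - q := by omega
  have h2 : u.length + v.length - (v.length + q) - u.length = 0 := by omega
  rw [h2, h1, List.drop_zero]

private theorem bdL88 {N : ℕ} {A B C : J} {u v : List T} (hb : Bd g 𝒮 N A (u ++ v))
    (h : g.bin A B C) (h₂ : Yd g C v) : Bd g 𝒮 N B u := by
  refine Bd.of_cx (β := []) (δ := [] ++ v) ?_ (Cx.left h Cx.nil h₂)
  simpa using hb

private theorem bdR88 {N : ℕ} {A B C : J} {u v : List T} (hb : Bd g 𝒮 N A (u ++ v))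
    (h : g.bin A B C) (h₁ : Yd g B u) : Bd g 𝒮 N C v := by
  refine Bd.of_cx (β := u ++ []) (δ := []) ?_ (Cx.right h h₁ Cx.nil)
  simpa using hb

private theorem lenL88 {N : ℕ} {A B C : J} {u v : List T} (hb : Bd g 𝒮 N A (u ++ v))
    (h : g.bin A B C) (h₁ : Yd g B u) (h₂ : Yd g C v) (hB : B ∈ 𝒮) : u.length ≤ N :=
  hb B hB [] u ([] ++ v) (Cx.left h Cx.nil h₂) h₁ (by simp)

private theorem lenR88 {N : ℕ} {A B C : J} {u v : List T} (hb : Bd g 𝒮 N A (u ++ v))
    (h : g.bin A B C) (h₁ : Yd g B u) (h₂ : Yd g C v) (hC : C ∈ 𝒮) : v.length ≤ N :=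
  hb C hC (u ++ []) v [] (Cx.right h h₁ Cx.nil) h₂ (by simp)

theorem spine (hlin : Lin g 𝒮 𝒞) {N : ℕ} {A : J} (hA : A ∈ 𝒞) {x : List T} (hx : Yd g A x)
    (hb : Bd g 𝒮 N A x) :
    ∃ (k : ℕ) (B : ℕ → J) (p q : ℕ → ℕ), p 0 = 0 ∧ q 0 = 0 ∧
      (∀ t ≤ k, B t ∈ 𝒞 ∧ p t + q t ≤ x.length ∧
        Cx g A (B t) (x.take (p t)) (x.drop (x.length - q t))) ∧
      (∀ t < k, p t ≤ p (t + 1) ∧ p (t + 1) ≤ p t + N ∧ q t ≤ q (t + 1) ∧ q (t + 1) ≤ q t + N) ∧
      x.length ≤ p k + q k + (2 * N + 1) := by
  induction hx with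
  | @leaf A w h =>
    refine ⟨0, fun _ => A, fun _ => 0, fun _ => 0, rfl, rfl, ?_, ?_, ?_⟩
    · intro t _
      refine ⟨hA, by simp, ?_⟩
      rw [List.take_zero, Nat.sub_zero, List.drop_length]
      exact Cx.nil
    · intro t ht
      omega
    · have := g.leaf_len A w h
      omega
  | @bin A B C u v h h₁ h₂ ih₁ ih₂ =>
    have hlen : (u ++ v).length = u.length + v.length := List.length_append
    rcases hlin A hA B C u v h h₁ h₂ with ⟨hB, hC⟩ | ⟨hB, hC⟩ | ⟨hB, hC⟩
    · have hu := lenL88 hb h h₁ h₂ hB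
      have hv := lenR88 hb h h₁ h₂ hC
      refine ⟨0, fun _ => A, fun _ => 0, fun _ => 0, rfl, rfl, ?_, ?_, ?_⟩
      · intro t _
        refine ⟨hA, by simp, ?_⟩
        rw [List.take_zero, Nat.sub_zero, List.drop_length]
        exact Cx.nil
      · intro t ht
        omega
      · omega
    · have hu := lenL88 hb h h₁ h₂ hB
      obtain ⟨k, B', p, q, hp, hq, h3, h4, h5⟩ := ih₂ hC (bdR88 hb h h₁)
      refine ⟨k + 1, fun t => Nat.casesOn t A B', fun t => Nat.casesOn t 0 fun t => u.length + p t,
        fun t => Nat.casesOn t 0 q, rfl, rfl, ?_, ?_, ?_⟩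
      · intro t ht
        cases t with
        | zero =>
          refine ⟨hA, by simp, ?_⟩
          show Cx g A A ((u ++ v).take 0) ((u ++ v).drop ((u ++ v).length - 0))
          rw [List.take_zero, Nat.sub_zero, List.drop_length]
          exact Cx.nil
        | succ t =>
          obtain ⟨h6, h7, h8⟩ := h3 t (by omega)
          refine ⟨h6, ?_, ?_⟩
          · show u.length + p t + q t ≤ (u ++ v).length
            omega
          · show Cx g A (B' t) ((u ++ v).take (u.length + p t))
              ((u ++ v).drop ((u ++ v).length - q t))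
            rw [hlen, take_app88, drop_app88 u v (by omega)]
            exact Cx.right h h₁ h8
      · intro t ht
        cases t with
        | zero =>
          show 0 ≤ u.length + p 0 ∧ u.length + p 0 ≤ 0 + N ∧ 0 ≤ q 0 ∧ q 0 ≤ 0 + N
          omega
        | succ t =>
          have := h4 t (by omega)
          show u.length + p t ≤ u.length + p (t + 1) ∧ u.length + p (t + 1) ≤ u.length + p t + N ∧
            q t ≤ q (t + 1) ∧ q (t + 1) ≤ q t + N
          omega
      · show (u ++ v).length ≤ u.length + p k + q k + (2 * N + 1)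
        omega
    · have hv := lenR88 hb h h₁ h₂ hC
      obtain ⟨k, B', p, q, hp, hq, h3, h4, h5⟩ := ih₁ hB (bdL88 hb h h₂)
      refine ⟨k + 1, fun t => Nat.casesOn t A B', fun t => Nat.casesOn t 0 p,
        fun t => Nat.casesOn t 0 fun t => v.length + q t, rfl, rfl, ?_, ?_, ?_⟩
      · intro t ht
        cases t with
        | zero =>
          refine ⟨hA, by simp, ?_⟩
          show Cx g A A ((u ++ v).take 0) ((u ++ v).drop ((u ++ v).length - 0))
          rw [List.take_zero, Nat.sub_zero, List.drop_length]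
          exact Cx.nil
        | succ t =>
          obtain ⟨h6, h7, h8⟩ := h3 t (by omega)
          refine ⟨h6, ?_, ?_⟩
          · show p t + (v.length + q t) ≤ (u ++ v).length
            omega
          · show Cx g A (B' t) ((u ++ v).take (p t))
              ((u ++ v).drop ((u ++ v).length - (v.length + q t)))
            rw [hlen, take_app88' u v (by omega), drop_app88']
            exact Cx.left h h8 h₂
      · intro t ht
        cases t with
        | zero =>
          show 0 ≤ p 0 ∧ p 0 ≤ 0 + N ∧ 0 ≤ v.length + q 0 ∧ v.length + q 0 ≤ 0 + N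
          omega
        | succ t =>
          have := h4 t (by omega)
          show p t ≤ p (t + 1) ∧ p (t + 1) ≤ p t + N ∧
            v.length + q t ≤ v.length + q (t + 1) ∧ v.length + q (t + 1) ≤ v.length + q t + N
          omega
      · show (u ++ v).length ≤ p k + (v.length + q k) + (2 * N + 1)
        omega

theorem window (hcls : Cls g 𝒮 𝒞) {N m : ℕ} (hNm : N ≤ m) (hm : 1 ≤ m) {A : J} (hA : A ∈ 𝒞)
    {x : List T} (hx : Yd g A x) (hb : Bd g 𝒮 N A x) (hl : m < x.length) :
    ∃ B ∈ 𝒞, ∃ β y δ, Cx g A B β δ ∧ Yd g B y ∧ β ++ y ++ δ = x ∧ m < y.length ∧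
      y.length ≤ 2 * m := by
  induction hx with
  | @leaf A w h =>
    have := g.leaf_len A w h
    omega
  | @bin A B C u v h h₁ h₂ ih₁ ih₂ =>
    have hlen : (u ++ v).length = u.length + v.length := List.length_append
    by_cases h2 : (u ++ v).length ≤ 2 * m
    · exact ⟨A, hA, [], u ++ v, [], Cx.nil, Yd.bin h h₁ h₂, by simp, hl, h2⟩
    · obtain ⟨hB, hC⟩ := hcls.rule A hA B C u v h h₁ h₂
      rcases (by omega : m < u.length ∨ m < v.length) with hu | hv
      · have hB' : B ∈ 𝒞 := by
          rcases hB with hB | hB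
          · have := lenL88 hb h h₁ h₂ hB
            omega
          · exact hB
        obtain ⟨D, hD, β, y, δ, hc, hy, he, h3, h4⟩ := ih₁ hB' (bdL88 hb h h₂) hu
        refine ⟨D, hD, β, y, δ ++ v, Cx.left h hc h₂, hy, ?_, h3, h4⟩
        rw [← he]
        simp
      · have hC' : C ∈ 𝒞 := by
          rcases hC with hC | hC
          · have := lenR88 hb h h₁ h₂ hC
            omega
          · exact hC
        obtain ⟨D, hD, β, y, δ, hc, hy, he, h3, h4⟩ := ih₂ hC' (bdR88 hb h h₁) hv
        refine ⟨D, hD, u ++ β, y, δ, Cx.right h h₁ hc, hy, ?_, h3, h4⟩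
        rw [← he]
        simp

end Pool.Helper49.TG
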