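import Pool.Agent.Helper49.TG.Value
import Pool.Agent.Helper49.TG.Tour
import Pool.Agent.Helper49.TG.Spine
import Pool.Agent.Helper49.TG.Count
import Pool.Agent.Helper49.TG.Blocks

/-!
# TG-N: the step for linear classes

Parameters.  We may enlarge `N` so that `1 ≤ N` (`Tame` is monotone in `N`).  Let `T₀` bound all
`|τ y|`, `c = nW T N * card J`.  Choose tours (`exists_tour`) `e₀, e₁, e₂` for
`b 0 = max c N`, `b 1 = c (l 0 + 1) + l 0`, `b 2 = c (l 1 + 1) + l 1`, where `E k = tw τ (e k)`,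
`l k = |E k|`.  From the tour property for `H = ⊥` (`⊥.relIndex (Gt π τ) = 0` since `Gt π τ` is
infinite) more than `b k` elements are prefix values `ev π ((E k).take r)`, `r ≤ l k`, so
`b k ≤ l k`; hence `N ≤ l 0 ≤ l 1 ≤ l 2`.  (`E k = E 2` for `k > 2`, to have functions on `ℕ`.)
`n 2 = 4`, `n 1 = 2 T₀ + 8 l 2 + 20`, `n 0 = 4 l 1 + 4 l 2 + 20`.
`τ₁ = blk τ E n`, `Γ₁ = Γ ⊓ Γ_V` with `Γ_V` from `value_level` for `τ`, and
`N₁ = max N (Λ + 1)` with `Λ` from `mismatch N T₀ c l n b`.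

Let `ev π (tw τ₁ u) ∈ Γ₁`, `w = tw τ₁ u = α ++ x ++ ω`, `A ∈ 𝒞`.  `w = tw τ u'` with
`u' = tw (fun y => y :: …) u` (`tw_tw`), so `Tame` for `τ` gives the claim for `𝒮` and
`Bd g 𝒮 N A x`, and `value_level` gives
`(cj (ev π α) (Pg A)).relIndex (Gt π τ) = 0`, `(cj (ev π ω)⁻¹ (Qg A)).relIndex (Gt π τ) = 0`.
`spine` gives `k, B, p, q`; put `s t = |α| + p t`, `e t = |α| + |x| - q t`.  `count` applies.
Now apply `mismatch` with `K = |u|`, `a, y` from `blocks`, `dL p q := dL hG g π A α w p q`,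
`dR p q := dR hG g π A ω w p q`:
* monotone: `Set.ncard_le_ncard` (images of finite intervals); single points: `≤ 1`.
* runs (`i < 2`, in fact all `i`): for a position `st i j ≤ p ≤ st (i+1) j = st i j + n i * l i` write
  `p = st i j + i' * l i + r` with `i' < n i`, `r ≤ l i`; by `blocks`
  `Lc … p = mk ((ev π α)⁻¹ * g₁ * ev π ((E i).take r))` takes at most `l i + 1` values; same for
  `Rc`.
* tokens: positions `st i j + i' * l i + r`, `r ≤ l i`:
  `Lc … = mk ((ev π α)⁻¹ * g₁ * z)`, `z = ev π ((E i).take r)`; with `c₁ = (ev π α)⁻¹ * g₁`,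
  `(c₁ z) (c₁ z')⁻¹ ∈ Pg A ↔ z z'⁻¹ ∈ cj c₁⁻¹ (Pg A) = cj g₁⁻¹ (cj (ev π α) (Pg A))`, a subgroup of
  relative index `0` (`relIndex_cj`, `g₁ ∈ Gt π τ`); so by the tour property more than `b i` different
  cosets.  `Rc … = mk (ev π ((E i).drop r) * g₂ * (ev π ω)⁻¹)`; with `c₂ = g₂ (ev π ω)⁻¹`:
  `(z c₂)⁻¹ (z' c₂) ∈ Qg A ↔ z⁻¹ z' ∈ cj c₂ (Qg A) = cj g₂ (cj (ev π ω)⁻¹ (Qg A))`.
* `e 0 = |α ++ x| ≤ |w| = a K`.
The conclusion is `|α| + |x| ≤ |α| + Λ`.
`Gt_blk`, and `τ₁ y ≠ []` since `τ y ≠ []`.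
-/

set_option autoImplicit false

namespace Pool.Helper49.TG

private theorem run_split {n l m : ℕ} (hn : 0 < n) (hm : m ≤ n * l) :
    ∃ i < n, ∃ r ≤ l, m = i * l + r := by
  induction n with
  | zero => omega
  | succ n ih =>
    by_cases h : m ≤ n * l ∧ 0 < n
    · obtain ⟨i, h1, r, h2, h3⟩ := ih h.2 h.1
      exact ⟨i, by omega, r, h2, h3⟩
    · refine ⟨n, by omega, m - n * l, ?_, ?_⟩
      · rw [Nat.succ_mul] at hm
        omega
      · by_cases hn0 : n = 0
        · subst hn0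
          simp
        · have : ¬ m ≤ n * l := fun h' => h ⟨h', by omega⟩
          omega

private theorem run_aux {X : Type} (f F : ℕ → X) {s₀ n l : ℕ} (hn : 0 < n)
    (h : ∀ i < n, ∀ r ≤ l, f (s₀ + i * l + r) = F r) :
    (f '' Set.Icc s₀ (s₀ + n * l)).ncard ≤ l + 1 := by
  have h1 : f '' Set.Icc s₀ (s₀ + n * l) ⊆ F '' ((Finset.range (l + 1) : Finset ℕ) : Set ℕ) := by
    rintro _ ⟨p, ⟨hp1, hp2⟩, rfl⟩
    obtain ⟨i, hi, r, hr, hm⟩ := run_split (l := l) (m := p - s₀) hn (by omega)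
    refine ⟨r, by simpa using Nat.lt_succ_of_le hr, ?_⟩
    rw [← h i hi r hr]
    congr 1
    omega
  calc (f '' Set.Icc s₀ (s₀ + n * l)).ncard
      ≤ (F '' ((Finset.range (l + 1) : Finset ℕ) : Set ℕ)).ncard :=
        Set.ncard_le_ncard h1 ((Finset.finite_toSet _).image _)
    _ ≤ (((Finset.range (l + 1) : Finset ℕ) : Set ℕ)).ncard :=
        Set.ncard_image_le (Finset.finite_toSet _)
    _ = l + 1 := by rw [Set.ncard_coe_finset, Finset.card_range]

private theorem token_aux {X G : Type} (f : ℕ → X) {s₀ i l b : ℕ} (s : Finset G)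
    (hb : b < s.card) (φ : G → X) (h : ∀ z ∈ s, ∃ r ≤ l, f (s₀ + i * l + r) = φ z)
    (hinj : ∀ z ∈ s, ∀ z' ∈ s, φ z = φ z' → z = z') :
    b < (f '' Set.Icc (s₀ + i * l) (s₀ + (i + 1) * l)).ncard := by
  classical
  have h1 : ((s.image φ : Finset X) : Set X) ⊆ f '' Set.Icc (s₀ + i * l) (s₀ + (i + 1) * l) := by
    intro a ha
    rw [Finset.mem_coe, Finset.mem_image] at ha
    obtain ⟨z, hz, rfl⟩ := ha
    obtain ⟨r, hr, he⟩ := h z hz
    refine ⟨s₀ + i * l + r, ⟨by omega, ?_⟩, he⟩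
    rw [Nat.succ_mul]
    omega
  have h2 : (s.image φ).card = s.card :=
    Finset.card_image_of_injOn fun z hz z' hz' e => hinj z hz z' hz' e
  calc b < s.card := hb
    _ = (((s.image φ : Finset X) : Set X)).ncard := by rw [Set.ncard_coe_finset, h2]
    _ ≤ _ := Set.ncard_le_ncard h1 ((Set.finite_Icc _ _).image _)

private theorem tw_rep {Y T : Type} (τ : Y → List T) (v : List Y) (m : ℕ) :
    tw τ (List.replicate m v).flatten = (List.replicate m (tw τ v)).flatten := by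
  induction m with
  | zero => simp
  | succ m ih => rw [List.replicate_succ, List.flatten_cons, tw_append, ih, List.replicate_succ,
      List.flatten_cons]

section
variable {G J T Y : Type} [Group G] {g : BG J T} {π : T → G} {S : J} {𝒮 𝒞 : Set J}

theorem linear_step (hG : ∀ x : G, IsOfFinOrder x) (hs : ∀ w, Yd g S w → ev π w ≠ 1) [Finite J]
    [Finite T] [Finite Y] {τ : Y → List T} {N : ℕ} {Γ : Subgroup G}
    (hT : Tame g S π τ 𝒮 N Γ) (hΓ : Γ.relIndex (Gt π τ) ≠ 0) (hne : ∀ y, τ y ≠ [])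
    (hinf : (Gt π τ : Set G).Infinite) (hcls : Cls g 𝒮 𝒞) (hlin : Lin g 𝒮 𝒞) :
    ∃ (τ₁ : Y → List T) (N₁ : ℕ) (Γ₁ : Subgroup G), (∀ y, τ₁ y ≠ []) ∧ Gt π τ₁ = Gt π τ ∧
      Γ₁.relIndex (Gt π τ₁) ≠ 0 ∧ Tame g S π τ₁ (𝒮 ∪ 𝒞) N₁ Γ₁ := by
  classical
  -- parameters
  obtain ⟨T₀, hT₀⟩ : ∃ T₀, ∀ y, (τ y).length ≤ T₀ := by
    obtain ⟨M, hM⟩ := (Set.finite_range fun y => (τ y).length).bddAbove
    exact ⟨M, fun y => hM ⟨y, rfl⟩⟩
  set N' := max N 1 with hN'
  set c := nW T N' * Nat.card J with hc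
  obtain ⟨e₀, h₀1, h₀L, h₀R⟩ := exists_tour hG π τ (max c N')
  obtain ⟨e₁, h₁1, h₁L, h₁R⟩ :=
    exists_tour hG π τ (c * ((tw τ e₀).length + 1) + (tw τ e₀).length)
  obtain ⟨e₂, h₂1, h₂L, h₂R⟩ :=
    exists_tour hG π τ (c * ((tw τ e₁).length + 1) + (tw τ e₁).length)
  set ee : ℕ → List Y := fun k => if k = 0 then e₀ else if k = 1 then e₁ else e₂ with hee
  set b : ℕ → ℕ := fun k => if k = 0 then max c N' else if k = 1 then
    c * ((tw τ e₀).length + 1) + (tw τ e₀).length else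
    c * ((tw τ e₁).length + 1) + (tw τ e₁).length with hb
  set E : ℕ → List T := fun k => tw τ (ee k) with hE
  set l : ℕ → ℕ := fun k => (E k).length with hl
  set n : ℕ → ℕ := fun k => if k = 0 then 4 * l 1 + 4 * l 2 + 20 else if k = 1 then
    2 * T₀ + 8 * l 2 + 20 else 4 with hn
  have hev : ∀ k, ev π (E k) = 1 := by
    intro k
    simp only [hE, hee]
    split_ifs
    · exact h₀1
    · exact h₁1
    · exact h₂1
  have tourL : ∀ k, ∀ H : Subgroup G, H.relIndex (Gt π τ) = 0 → ∃ s : Finset G, b k < s.card ∧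
        (∀ z ∈ s, ∃ r ≤ (E k).length, z = ev π ((E k).take r)) ∧
        ∀ z ∈ s, ∀ z' ∈ s, z * z'⁻¹ ∈ H → z = z' := by
    intro k
    simp only [hE, hee, hb]
    split_ifs
    · exact h₀L
    · exact h₁L
    · exact h₂L
  have tourR : ∀ k, ∀ H : Subgroup G, H.relIndex (Gt π τ) = 0 → ∃ s : Finset G, b k < s.card ∧
        (∀ z ∈ s, ∃ r ≤ (E k).length, z = ev π ((E k).drop r)) ∧
        ∀ z ∈ s, ∀ z' ∈ s, z⁻¹ * z' ∈ H → z = z' := by
    intro k
    simp only [hE, hee, hb]
    split_ifs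
    · exact h₀R
    · exact h₁R
    · exact h₂R
  have hbl : ∀ k, b k ≤ l k := by
    intro k
    have h0 : (⊥ : Subgroup G).relIndex (Gt π τ) = 0 := by
      rw [Subgroup.relIndex_bot_left]
      have : Infinite (Gt π τ) := hinf.to_subtype
      exact Nat.card_eq_zero_of_infinite
    obtain ⟨s, h1, h2, -⟩ := tourL k ⊥ h0
    have h3 : s ⊆ (Finset.range (l k + 1)).image fun r => ev π ((E k).take r) := by
      intro z hz
      obtain ⟨r, hr, e⟩ := h2 z hz
      exact Finset.mem_image.2 ⟨r, Finset.mem_range.2 (Nat.lt_succ_of_le hr), e.symm⟩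
    have h4 := (Finset.card_le_card h3).trans Finset.card_image_le
    rw [Finset.card_range] at h4
    omega
  have hb0 : b 0 = max c N' := by simp [hb]
  have hb1 : b 1 = c * (l 0 + 1) + l 0 := by simp [hb, hl, hE, hee]
  have hb2 : b 2 = c * (l 1 + 1) + l 1 := by simp [hb, hl, hE, hee]
  have hN1 : 1 ≤ N' := le_max_right _ _
  have hNN : N ≤ N' := le_max_left _ _
  have q0 := hbl 0
  have q1 := hbl 1
  have q2 := hbl 2
  have q3 : c ≤ max c N' := le_max_left _ _
  have q4 : N' ≤ max c N' := le_max_right _ _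
  obtain ⟨Λ, hΛ⟩ := mismatch N' T₀ c l n b hN1 (by omega) (by omega) (by omega) (by omega)
    (by omega) (by omega) (by simp [hn]) (by simp [hn]) (by simp [hn])
  obtain ⟨ΓV, hV1, hV2⟩ := value_level hG hs τ
  have hGt : Gt π (blk τ E n) = Gt π τ := Gt_blk n hev
  refine ⟨blk τ E n, max N' Λ, Γ ⊓ ΓV, ?_, hGt, ?_, ?_⟩
  · intro y h
    unfold blk at h
    simp only [List.append_eq_nil_iff] at h
    exact hne y h.1.1.1
  · rw [hGt]
    exact Subgroup.relIndex_inf_ne_zero hΓ hV1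
  intro u hu A hA α x ω hcx hx heq
  -- the word as a word of the old level
  obtain ⟨u', hu'⟩ : ∃ u', tw τ u' = tw (blk τ E n) u := by
    refine ⟨tw (fun y => [y] ++ (List.replicate (n 0) (ee 0)).flatten ++
      (List.replicate (n 1) (ee 1)).flatten ++ (List.replicate (n 2) (ee 2)).flatten) u, ?_⟩
    rw [tw_tw]
    congr 1
    funext y
    rw [tw_append, tw_append, tw_append, tw_rep, tw_rep, tw_rep]
    simp [blk, hE]
  have heq' : α ++ x ++ ω = tw τ u' := heq.trans hu'.symm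
  have huΓ : ev π (tw τ u') ∈ Γ := by
    rw [hu']
    exact hu.1
  have huV : ev π (tw τ u') ∈ ΓV := by
    rw [hu']
    exact hu.2
  rcases hA with hA | hA
  · exact (hT u' huΓ A hA α x ω hcx hx heq').trans (hNN.trans (le_max_left _ _))
  have hBd : Bd g 𝒮 N' A x := by
    intro B hB β y δ h1 h2 h3
    refine (hT u' huΓ B hB (α ++ β) y (δ ++ ω) (hcx.comp h1) h2 ?_).trans hNN
    rw [← heq', ← h3]
    simp [List.append_assoc]
  obtain ⟨hPL, hQR⟩ := hV2 u' huV A α x ω hcx hx heq'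
  obtain ⟨k, B, p, q, hp0, hq0, h1, h2, h3⟩ := spine hlin hA hx hBd
  obtain ⟨a, y, ha0, hyT, hast, haK, hblk⟩ := blocks π τ E n hev hT₀ u
  have hlen : (tw (blk τ E n) u).length = α.length + x.length + ω.length := by
    rw [← heq, List.length_append, List.length_append]
  have hst : ∀ i j, st y l n a (i + 1) j = st y l n a i j + n i * l i := by
    intro i j
    unfold st
    rw [Finset.sum_range_succ]
    omega
  have hnpos : ∀ i, 0 < n i := by
    intro i
    simp only [hn]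
    split_ifs <;> omega
  have hfin := hΛ u.length a y ha0 hyT hast
    (fun p q => dL hG g π A α (tw (blk τ E n) u) p q)
    (fun p q => dR hG g π A ω (tw (blk τ E n) u) p q) ?_ ?_ ?_ ?_ k
    (fun t => α.length + p t) (fun t => α.length + x.length - q t) ?_ ?_ ?_ ?_ ?_
  · rw [hp0, hq0] at hfin
    have : x.length ≤ Λ := by omega
    exact this.trans (le_max_right _ _)
  · -- monotone
    intro p q p' q' hp hq
    exact ⟨Set.ncard_le_ncard (Set.image_mono (Set.Icc_subset_Icc hp hq))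
        ((Set.finite_Icc _ _).image _),
      Set.ncard_le_ncard (Set.image_mono (Set.Icc_subset_Icc hp hq))
        ((Set.finite_Icc _ _).image _)⟩
  · -- points
    intro p
    constructor
    · simp only [dL]
      rw [Set.Icc_self, Set.image_singleton, Set.ncard_singleton]
    · simp only [dR]
      rw [Set.Icc_self, Set.image_singleton, Set.ncard_singleton]
  · -- runs
    intro j hj i hi
    obtain ⟨g₁, -, g₂, -, hgg⟩ := hblk j hj i (by omega)
    rw [hst]
    constructor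
    · refine run_aux (Lc hG g π A α (tw (blk τ E n) u))
        (fun r => Quotient.mk _ ((ev π α)⁻¹ * (g₁ * ev π ((E i).take r)))) (hnpos i) ?_
      intro i' hi' r hr
      unfold Lc
      rw [(hgg i' hi' r hr).1]
    · refine run_aux (Rc hG g π A ω (tw (blk τ E n) u))
        (fun r => ((ev π ((E i).drop r) * g₂ * (ev π ω)⁻¹ : G) : G ⧸ Qg hG g π A)) (hnpos i) ?_
      intro i' hi' r hr
      unfold Rc
      rw [(hgg i' hi' r hr).2]
  · -- tokens
    intro j hj i hi r hr
    obtain ⟨g₁, hg₁, g₂, hg₂, hgg⟩ := hblk j hj i hi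
    constructor
    · have hH : (cj ((ev π α)⁻¹ * g₁)⁻¹ (Pg hG g π A)).relIndex (Gt π τ) = 0 := by
        rw [mul_inv_rev, inv_inv, ← cj_cj, relIndex_cj ((Gt π τ).inv_mem hg₁)]
        exact hPL
      obtain ⟨s, hs1, hs2, hs3⟩ := tourL i _ hH
      refine token_aux (Lc hG g π A α (tw (blk τ E n) u)) s hs1
        (fun z => Quotient.mk _ ((ev π α)⁻¹ * (g₁ * z))) ?_ ?_
      · intro z hz
        obtain ⟨r', hr', rfl⟩ := hs2 z hz
        refine ⟨r', hr', ?_⟩
        unfold Lc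
        rw [(hgg r hr r' hr').1]
      · intro z hz z' hz' e
        rw [Quotient.eq, QuotientGroup.rightRel_apply] at e
        refine (hs3 z' hz' z hz ?_).symm
        rw [mem_cj]
        convert e using 1
        group
    · have hH : (cj (g₂ * (ev π ω)⁻¹) (Qg hG g π A)).relIndex (Gt π τ) = 0 := by
        rw [← cj_cj, relIndex_cj hg₂]
        exact hQR
      obtain ⟨s, hs1, hs2, hs3⟩ := tourR i _ hH
      refine token_aux (Rc hG g π A ω (tw (blk τ E n) u)) s hs1
        (fun z => ((z * g₂ * (ev π ω)⁻¹ : G) : G ⧸ Qg hG g π A)) ?_ ?_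
      · intro z hz
        obtain ⟨r', hr', rfl⟩ := hs2 z hz
        refine ⟨r', hr', ?_⟩
        unfold Rc
        rw [(hgg r hr r' hr').2]
      · intro z hz z' hz' e
        rw [QuotientGroup.eq] at e
        refine hs3 z hz z' hz' ?_
        rw [mem_cj]
        convert e using 1
        group
  · -- steps
    intro t ht
    obtain ⟨a1, a2, a3, a4⟩ := h2 t ht
    obtain ⟨-, b1, -⟩ := h1 t ht.le
    obtain ⟨-, b2, -⟩ := h1 (t + 1) ht
    refine ⟨by omega, by omega, by omega, by omega⟩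
  · obtain ⟨-, b1, -⟩ := h1 k le_rfl
    omega
  · obtain ⟨-, b1, -⟩ := h1 k le_rfl
    omega
  · rw [haK, hlen]
    omega
  · intro t₁ t₂ h12 h2k
    have hcount := count (hG := hG) (π := π) (g := g) (A := A) (𝒮 := 𝒮) (𝒞 := 𝒞) hcls hA
      (α := α) (x := x) (ω := ω) (N := N') (k := k) (B := B) (s := fun t => α.length + p t)
      (e := fun t => α.length + x.length - q t) ?_ ?_ h12 h2k
    · rw [heq] at hcount
      exact hcount
    · intro t ht
      obtain ⟨c1, c2, c3⟩ := h1 t ht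
      refine ⟨c1, by simp, ?_, ?_, ?_⟩
      · omega
      · rw [List.length_append]
        omega
      · have e1 : α.length + p t - α.length = p t := by omega
        have e2 : α.length + x.length - q t - α.length = x.length - q t := by omega
        simp only [e1, e2]
        exact c3
    · intro t ht
      obtain ⟨a1, a2, a3, a4⟩ := h2 t ht
      obtain ⟨-, b1, -⟩ := h1 t ht.le
      obtain ⟨-, b2, -⟩ := h1 (t + 1) ht
      refine ⟨by omega, by omega, by omega, by omega⟩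

end

end Pool.Helper49.TG
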