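import Mathlib

/-!
# TG-K: return words

`𝒢` is a factor-closed set of words over a finite alphabet containing arbitrarily long words.

Proof of `return_words`.  We may assume `1 ≤ Λ` (otherwise use `Λ = 1`).  For a finite set `F` of
words of length `2 Λ` say that `F` is good if for every `n` there is `w ∈ 𝒢` with `n ≤ |w|` all of
whose factors of length `2 Λ` lie in `F`.  The (finite) set of all words of length `2 Λ` is good.
Choose a good set `F` with the least number of elements.  `F` is not empty (a word of length `2 Λ`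
has itself as a factor).  Pick `q ∈ F`; `F \ {q}` is not good, so there is `R` such that every
`w ∈ 𝒢` with `R ≤ |w|` all of whose factors of length `2 Λ` lie in `F` has the factor `q` (we may
take `R ≥ 2 Λ`).  Write `q = q₁ ++ q₂`, `|q₁| = |q₂| = Λ`.  Let `Z` be the finite set of all words
`z ∈ 𝒢` of length at most `2 Λ + 2 R` which are of the form `q₂ ++ m` and of the form `m' ++ q₁`,
with `2 Λ ≤ |z|`, and such that moreover... nothing else.

(a) Let `v` be a factor of `z₁ ++ ⋯ ++ z_r`, `z_i ∈ Z`, with `|v| ≤ Λ`.  Since `|z_i| ≥ 2 Λ`, `v` is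
a factor of some `z_i`, or of some `z_i ++ z_{i+1}` crossing the boundary, and then it is a factor
of `q₁ ++ q₂ = q`, since the last `Λ` letters of `z_i` are `q₁` and the first `Λ` letters of
`z_{i+1}` are `q₂`.  `q ∈ 𝒢`: `q` is a factor of a word of `𝒢` by the choice of `R`.  So `v ∈ 𝒢`.
(b) Given `n`, take `w ∈ 𝒢` with `|w| ≥ (n + 2) (2 Λ + 2 R)` all of whose `2 Λ`-factors lie in `F`.
Every factor of `w` of length `≥ R` contains `q` (it is in `𝒢` and its `2 Λ`-factors lie in `F`).
So there are positions `p₀ < p₁ < ⋯ < p_{n+1}` at which `q` occurs in `w`, with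
`2 Λ ≤ p_{i+1} - p_i ≤ 2 Λ + R`, `p₀ ≤ R`: look for `q` in the factor of length `R` starting at
`p_i + 2 Λ`.  The factor `z_i` of `w` from `p_i + Λ` to `p_{i+1} + Λ` begins with `q₂` and ends with
`q₁` and lies in `Z`, and `z_0 ++ ⋯ ++ z_n` is a factor of `w`, so it lies in `𝒢`; its length is
`≥ 2 Λ (n + 1) ≥ n`.
(A convenient form of the induction: for every `n` and every `w ∈ 𝒢` whose `2 Λ`-factors lie in `F`,
with `|w| ≥ (n + 1) (2 Λ + R) + R`, there are `zs` of length `n`, `U`, `V` with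
`w = U ++ q₁ ++ zs.flatten ++ q₂ ++ V`.)
-/

set_option autoImplicit false

namespace Pool.Helper49.TG

private lemma infix_mem24 {Y : Type} {𝒢 : Set (List Y)}
    (hfac : ∀ u v w : List Y, u ++ v ++ w ∈ 𝒢 → v ∈ 𝒢) {v w : List Y} (h : v <:+: w)
    (hw : w ∈ 𝒢) : v ∈ 𝒢 := by
  obtain ⟨s, t, rfl⟩ := h
  exact hfac s v t hw

/-- the induction of part (b) -/
private lemma chain24 {Y : Type} {𝒢 : Set (List Y)}
    (hfac : ∀ u v w : List Y, u ++ v ++ w ∈ 𝒢 → v ∈ 𝒢) (F : Finset (List Y)) (L R : ℕ)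
    (q₁ q₂ : List Y) (hL : q₁.length + q₂.length = L)
    (hR : ∀ w ∈ 𝒢, R ≤ w.length → (∀ u, u <:+: w → u.length = L → u ∈ F) → q₁ ++ q₂ <:+: w)
    (Z : List Y → Prop)
    (hZ : ∀ z, z ∈ 𝒢 → L ≤ z.length → z.length ≤ L + R → q₂ <+: z → q₁ <:+ z → Z z) (n : ℕ) :
    ∀ w ∈ 𝒢, (∀ u, u <:+: w → u.length = L → u ∈ F) → n * (L + R) + R ≤ w.length →
      ∃ (zs : List (List Y)) (U V : List Y), zs.length = n ∧ (∀ z ∈ zs, Z z) ∧ U.length ≤ R ∧
        w = U ++ q₁ ++ zs.flatten ++ q₂ ++ V := by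
  have hq : ∀ w ∈ 𝒢, (∀ u, u <:+: w → u.length = L → u ∈ F) → R ≤ w.length →
      ∃ U V : List Y, U.length + L ≤ R ∧ w = U ++ (q₁ ++ q₂) ++ V := by
    intro w hw hF hRw
    have h1 : w.take R <:+: w := (List.take_prefix R w).isInfix
    have h2 : q₁ ++ q₂ <:+: w.take R := by
      refine hR _ (infix_mem24 hfac h1 hw) ?_ ?_
      · simp [hRw]
      · intro u hu
        exact hF u (hu.trans h1)
    obtain ⟨U, V, hUV⟩ := h2
    refine ⟨U, V ++ w.drop R, ?_, ?_⟩
    · have := congrArg List.length hUV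
      simp only [List.length_append, List.length_take] at this
      omega
    · conv_lhs => rw [← List.take_append_drop R w, ← hUV]
      simp
  induction n with
  | zero =>
    intro w hw hF hlen
    obtain ⟨U, V, hU, hw'⟩ := hq w hw hF (by simpa using hlen)
    refine ⟨[], U, V, rfl, by simp, by omega, ?_⟩
    rw [hw']
    simp
  | succ n ih =>
    intro w hw hF hlen
    obtain ⟨U, V, hU, hw'⟩ := hq w hw hF (by
      have : R ≤ (n + 1) * (L + R) + R := Nat.le_add_left _ _
      omega)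
    have hV : V <:+: w := ⟨U ++ (q₁ ++ q₂), [], by rw [hw']; simp⟩
    obtain ⟨zs, U', V', hn, hz, hU', hV'⟩ := ih V (infix_mem24 hfac hV hw)
      (fun u hu => hF u (hu.trans hV)) (by
        have h1 := congrArg List.length hw'
        simp only [List.length_append] at h1
        have h2 : (n + 1) * (L + R) = n * (L + R) + (L + R) := by ring
        rw [h2] at hlen
        omega)
    refine ⟨(q₂ ++ U' ++ q₁) :: zs, U, V', by simp [hn], ?_, by omega, ?_⟩
    · intro z hz'
      rcases List.mem_cons.1 hz' with rfl | hz'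
      · apply hZ
        · refine infix_mem24 hfac (w := w) ⟨U ++ q₁, zs.flatten ++ q₂ ++ V', ?_⟩ hw
          rw [hw', hV']
          simp
        · simp only [List.length_append]
          omega
        · simp only [List.length_append]
          omega
        · exact ⟨U' ++ q₁, by simp⟩
        · exact ⟨q₂ ++ U', by simp⟩
      · exact hz z hz'
    · rw [hw', hV']
      simp

/-- part (a) -/
private lemma factors24 {Y : Type} {𝒢 : Set (List Y)}
    (hfac : ∀ u v w : List Y, u ++ v ++ w ∈ 𝒢 → v ∈ 𝒢) (hnil : [] ∈ 𝒢) (Λ : ℕ)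
    (q₁ q₂ : List Y) (h1 : q₁.length = Λ) (h2 : q₂.length = Λ) (hq : q₁ ++ q₂ ∈ 𝒢)
    (zs : List (List Y)) (hzs : ∀ z ∈ zs, z ∈ 𝒢 ∧ q₂ <+: z ∧ q₁ <:+ z) :
    ∀ v : List Y, v <:+: zs.flatten → v.length ≤ Λ → v ∈ 𝒢 := by
  induction zs with
  | nil =>
    intro v hv _
    simp only [List.flatten_nil, List.infix_nil] at hv
    rw [hv]
    exact hnil
  | cons z zs ih =>
    intro v hv hvl
    rw [List.flatten_cons, List.infix_append_iff] at hv
    rcases hv with hv | hv | ⟨t₁, t₂, rfl, ht₁, ht₂⟩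
    · exact infix_mem24 hfac hv (hzs z (by simp)).1
    · exact ih (fun z hz => hzs z (by simp [hz])) v hv hvl
    · rw [List.length_append] at hvl
      have ha : t₁ <:+ q₁ :=
        List.suffix_of_suffix_length_le ht₁ (hzs z (by simp)).2.2 (by omega)
      rcases zs with _ | ⟨z', zs'⟩
      · simp only [List.flatten_nil, List.prefix_nil] at ht₂
        subst ht₂
        rw [List.append_nil]
        exact infix_mem24 hfac (ha.isInfix.trans (List.prefix_append q₁ q₂).isInfix) hq
      · have hb : t₂ <+: q₂ := by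
          refine List.prefix_of_prefix_length_le ht₂ ?_ (by omega)
          refine ((hzs z' (by simp)).2.1).trans ?_
          rw [List.flatten_cons]
          exact List.prefix_append _ _
        obtain ⟨s, hs⟩ := ha
        obtain ⟨t, ht⟩ := hb
        refine infix_mem24 hfac ⟨s, t, ?_⟩ hq
        rw [← hs, ← ht]
        simp

theorem return_words {Y : Type} [Finite Y] (𝒢 : Set (List Y))
    (hfac : ∀ u v w : List Y, u ++ v ++ w ∈ 𝒢 → v ∈ 𝒢)
    (hlong : ∀ n : ℕ, ∃ w ∈ 𝒢, n ≤ w.length) (Λ : ℕ) :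
    ∃ Z : Finset (List Y), (∀ z ∈ Z, z ≠ []) ∧
      (∀ zs : List (List Y), (∀ z ∈ zs, z ∈ Z) → ∀ u v w : List Y,
        u ++ v ++ w = zs.flatten → v.length ≤ Λ → v ∈ 𝒢) ∧
      (∀ n : ℕ, ∃ zs : List (List Y), (∀ z ∈ zs, z ∈ Z) ∧ zs.flatten ∈ 𝒢 ∧
        n ≤ zs.flatten.length) := by
  classical
  have hnil : ([] : List Y) ∈ 𝒢 := by
    obtain ⟨w, hw, -⟩ := hlong 0
    exact hfac [] [] w (by simpa using hw)
  set M : ℕ := max Λ 1 with hM
  have hM1 : 1 ≤ M := le_max_right _ _
  have hΛM : Λ ≤ M := le_max_left _ _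
  let Good : Finset (List Y) → Prop := fun F =>
    ∀ n : ℕ, ∃ w ∈ 𝒢, n ≤ w.length ∧ ∀ u, u <:+: w → u.length = 2 * M → u ∈ F
  have hA : Good (List.finite_length_eq Y (2 * M)).toFinset := by
    intro n
    obtain ⟨w, hw, hn⟩ := hlong n
    exact ⟨w, hw, hn, fun u _ hu => by simpa using hu⟩
  obtain ⟨F, hF, hmin⟩ := (wellFounded_lt (α := Finset (List Y))).has_min {F | Good F} ⟨_, hA⟩
  have hFne : F.Nonempty := by
    obtain ⟨w, _, hn, hw⟩ := hF (2 * M)
    exact ⟨w.take (2 * M), hw _ (List.take_prefix _ _).isInfix (by simp [hn])⟩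
  obtain ⟨q, hqF⟩ := hFne
  have hR : ∃ R : ℕ, ∀ w ∈ 𝒢, R ≤ w.length → (∀ u, u <:+: w → u.length = 2 * M → u ∈ F) →
      q <:+: w := by
    have h := hmin (F.erase q)
    have h2 : ¬ Good (F.erase q) := fun hg => h hg (Finset.erase_ssubset hqF)
    by_contra hcon
    push Not at hcon
    apply h2
    intro n
    obtain ⟨w, hw, hn, hwF, hq⟩ := hcon n
    refine ⟨w, hw, hn, fun u hu hul => Finset.mem_erase.2 ⟨?_, hwF u hu hul⟩⟩
    rintro rfl
    exact hq hu
  obtain ⟨R, hR⟩ := hR
  -- the length of `q`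
  by_cases hql : q.length = 2 * M
  swap
  · exfalso
    have h := hmin (F.erase q)
    refine h ?_ (Finset.erase_ssubset hqF)
    intro n
    obtain ⟨w, hw, hn, hwF⟩ := hF n
    refine ⟨w, hw, hn, fun u hu hul => Finset.mem_erase.2 ⟨?_, hwF u hu hul⟩⟩
    rintro rfl
    exact hql hul
  have hq𝒢 : q ∈ 𝒢 := by
    obtain ⟨w, hw, hn, hwF⟩ := hF R
    exact infix_mem24 hfac (hR w hw hn hwF) hw
  have hqq : q.take M ++ q.drop M = q := List.take_append_drop M q
  have hl1 : (q.take M).length = M := by simp [hql]; omega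
  have hl2 : (q.drop M).length = M := by simp [hql]; omega
  have hZfin : {z : List Y | z ∈ 𝒢 ∧ 2 * M ≤ z.length ∧ z.length ≤ 2 * M + R ∧
      q.drop M <+: z ∧ q.take M <:+ z}.Finite :=
    (List.finite_length_le Y (2 * M + R)).subset fun z hz => hz.2.2.1
  refine ⟨hZfin.toFinset, ?_, ?_, ?_⟩
  · intro z hz
    rw [Set.Finite.mem_toFinset] at hz
    rintro rfl
    have := hz.2.1
    simp only [List.length_nil] at this
    omega
  · intro zs hzs u v w huvw hv
    refine factors24 hfac hnil M (q.take M) (q.drop M) hl1 hl2 (by rw [hqq]; exact hq𝒢) zs ?_ v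
      ⟨u, w, huvw⟩ (hv.trans hΛM)
    intro z hz
    have := hzs z hz
    rw [Set.Finite.mem_toFinset] at this
    exact ⟨this.1, this.2.2.2.1, this.2.2.2.2⟩
  · intro n
    obtain ⟨w, hw, hlen, hwF⟩ := hF (n * (2 * M + R) + R)
    obtain ⟨zs, U, V, hn, hz, -, hwe⟩ := chain24 hfac F (2 * M) R (q.take M) (q.drop M)
      (by rw [hl1, hl2]; ring) (by rw [hqq]; exact hR)
      (fun z => z ∈ 𝒢 ∧ 2 * M ≤ z.length ∧ z.length ≤ 2 * M + R ∧
        q.drop M <+: z ∧ q.take M <:+ z) (fun z a b c d e => ⟨a, b, c, d, e⟩) n w hw hwF hlen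
    refine ⟨zs, fun z hzz => ?_, ?_, ?_⟩
    · rw [Set.Finite.mem_toFinset]
      exact hz z hzz
    · exact infix_mem24 hfac (w := w) ⟨U ++ q.take M, q.drop M ++ V, by rw [hwe]; simp⟩ hw
    · rw [← hn, List.length_flatten]
      have : ∀ l : List (List Y), (∀ z ∈ l, 2 * M ≤ z.length) →
          l.length ≤ (l.map List.length).sum := by
        intro l hl
        induction l with
        | nil => simp
        | cons a l ih =>
          have h1 := hl a (by simp)
          have h2 := ih (fun z hz => hl z (by simp [hz]))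
          simp only [List.length_cons, List.map_cons, List.sum_cons]
          omega
      exact this zs fun z hzz => (hz z hzz).2.1

end Pool.Helper49.TG
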