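import Pool.Agent.Helper49.TG.Basic

/-!
# TG-I: selection of a subgroup

`Q.relIndex H ≠ 0` means that `Q ∩ H` has finite index in `H`; `LF K`: every finitely generated
subgroup of `K` is finite.

* `select`: strong induction on the number (`Set.ncard`) of `Q ∈ 𝒬` with `Q.relIndex K₀ = 0`.
  - Suppose every `Q ∈ 𝒬` has `Q.relIndex K₀ ≠ 0` or `LF (Q ⊓ K₀)`.  Take
    `H = K₀ ⊓ ⨅ Q ∈ 𝒬, normalizer Q`.  It has finite index in `K₀` (`Subgroup.relIndex_iInf_ne_zero`
    for the finite type `𝒬`), hence is finitely generated (Schreier: `Subgroup.fg_of_index_ne_zero`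
    for the subgroup `H.subgroupOf K₀` of `K₀`, then map to `G`) and infinite.
    `Q.relIndex K₀ ≠ 0` implies `Q.relIndex H ≠ 0` (`Subgroup.relIndex_eq_zero_of_le_right`), and `LF`
    passes to smaller subgroups.
  - Otherwise there are `Q ∈ 𝒬` with `Q.relIndex K₀ = 0` and a finitely generated infinite
    `L ≤ Q ⊓ K₀`.  Apply the induction hypothesis to `L`: the normalizers have nonzero relative
    index in `L ≤ K₀`; `Q'.relIndex L = 0` implies `Q'.relIndex K₀ = 0`, and `Q` itself is not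
    counted any more (`L ≤ Q`), so the number is smaller.
* `lf_sup`: `K₁, K₂ ≤ H` normalized by `H` and locally finite; then `K₁ ⊔ K₂` is locally finite.
  Let `L ≤ K₁ ⊔ K₂` be finitely generated.  `L / (L ∩ K₁)` is isomorphic to a subgroup of
  `(K₁ ⊔ K₂) / K₁ ≅ K₂ / (K₁ ∩ K₂)`.  Concretely: for finitely many generators `x_i` of `L` write
  `x_i = k_i m_i`, `k_i ∈ K₁`, `m_i ∈ K₂` (`Subgroup.mul_normal` / `Subgroup.mem_sup`); the subgroup
  `F` generated by the `m_i` is finite, and `L ≤ K₁ F` (`K₁ F` is a subgroup as `F` normalizes `K₁`),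
  so `(L ∩ K₁)` has finite index in `L` (at most `|F|`); so `L ∩ K₁` is finitely generated
  (Schreier), hence finite, hence `L` is finite.
* `lf_family`: take `K = ⨆ K' ∈ 𝒦, K'` (induction over the finite set `𝒦` with `lf_sup`; `K = ⊥` for
  the empty family).  `K ≤ H`, `H` normalizes `K`, `LF K`.  If `K.relIndex H ≠ 0`, then `K` has finite
  index in the finitely generated group `H`, so it is finitely generated, hence finite, hence `H`
  is finite: contradiction.
-/

set_option autoImplicit false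

namespace Pool.Helper49.TG

variable {G : Type} [Group G]

private theorem lf_mono63 {K K' : Subgroup G} (h : LF K) (h' : K' ≤ K) : LF K' :=
  fun L hL hfg => h L (hL.trans h') hfg

private theorem fg_subgroupOf63 {L K : Subgroup G} (hLK : L ≤ K) (hL : L.FG) :
    (L.subgroupOf K).FG := by
  have h1 : Group.FG L := (Group.fg_iff_subgroup_fg L).mpr hL
  have h2 : Group.FG (L.subgroupOf K) :=
    Group.fg_of_surjective (f := (Subgroup.subgroupOfEquivOfLe hLK).symm.toMonoidHom)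
      (Subgroup.subgroupOfEquivOfLe hLK).symm.surjective
  exact (Group.fg_iff_subgroup_fg _).mp h2

private theorem fg_map63 {G' : Type} [Group G'] (f : G →* G') {K : Subgroup G} (hK : K.FG) :
    (K.map f).FG := by
  obtain ⟨S, hS⟩ := hK
  classical
  refine ⟨S.image f, ?_⟩
  rw [Finset.coe_image, ← MonoidHom.map_closure, hS]

private theorem schreier63 {H K : Subgroup G} (hHK : H ≤ K) (hK : K.FG)
    (hi : H.relIndex K ≠ 0) : H.FG := by
  have h1 : Group.FG K := (Group.fg_iff_subgroup_fg K).mpr hK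
  have h2 : (H.subgroupOf K).FiniteIndex := ⟨hi⟩
  have h3 : Group.FG (H.subgroupOf K) := Subgroup.fg_of_index_ne_zero _
  have h4 : (H.subgroupOf K).FG := (Group.fg_iff_subgroup_fg _).mp h3
  have h5 := fg_map63 K.subtype h4
  rwa [Subgroup.map_subgroupOf_eq_of_le hHK] at h5

private theorem card_mul63 {H K : Subgroup G} (hHK : H ≤ K) :
    Nat.card H * H.relIndex K = Nat.card K := by
  have := Subgroup.relIndex_mul_relIndex (⊥ : Subgroup G) H K bot_le hHK
  rwa [Subgroup.relIndex_bot_left, Subgroup.relIndex_bot_left] at this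

private theorem finite_of63 {H K : Subgroup G} (hHK : H ≤ K) (hi : H.relIndex K ≠ 0)
    (hH : (H : Set G).Finite) : (K : Set G).Finite := by
  have h1 : Finite H := hH.to_subtype
  have h2 : Nat.card H ≠ 0 := Nat.card_pos.ne'
  have h3 : Nat.card K ≠ 0 := by rw [← card_mul63 hHK]; exact Nat.mul_ne_zero h2 hi
  have h4 : Finite K := Nat.finite_of_card_ne_zero h3
  exact Set.toFinite _

private theorem lf_map63 {G' : Type} [Group G'] (f : G →* G') {K : Subgroup G} (h : LF K) :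
    LF (K.map f) := by
  classical
  rintro L hL ⟨S, hS⟩
  have hsub : ∀ s ∈ S, ∃ k ∈ K, f k = s := by
    intro s hs
    have : s ∈ K.map f := hL (by rw [← hS]; exact Subgroup.subset_closure hs)
    exact Subgroup.mem_map.mp this
  choose! k hk hfk using hsub
  have hfin := h (Subgroup.closure ((S.image k : Finset G) : Set G)) (by
    rw [Subgroup.closure_le]
    intro x hx
    simp only [Finset.coe_image, Set.mem_image, Finset.mem_coe] at hx
    obtain ⟨s, hs, rfl⟩ := hx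
    exact hk s hs) ⟨_, rfl⟩
  have : L = (Subgroup.closure ((S.image k : Finset G) : Set G)).map f := by
    rw [MonoidHom.map_closure, ← hS]
    congr 1
    ext x
    simp only [Finset.coe_image, Set.mem_image, Finset.mem_coe]
    constructor
    · intro hx
      exact ⟨k x, ⟨x, hx, rfl⟩, hfk x hx⟩
    · rintro ⟨_, ⟨s, hs, rfl⟩, rfl⟩
      rw [hfk s hs]
      exact hs
  rw [this, Subgroup.coe_map]
  exact hfin.image _

private theorem lf_subgroupOf63 {K H : Subgroup G} (h : LF K) : LF (K.subgroupOf H) := by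
  intro L hL hfg
  have h1 : L.map H.subtype ≤ K := by
    rintro x ⟨y, hy, rfl⟩
    exact Subgroup.mem_subgroupOf.mp (hL hy)
  have h2 := h _ h1 (fg_map63 _ hfg)
  rw [Subgroup.coe_map] at h2
  exact h2.of_finite_image (Subtype.val_injective.injOn)

private theorem lf_sup_normal63 {K₁ K₂ : Subgroup G} [K₁.Normal] (l₁ : LF K₁) (l₂ : LF K₂) :
    LF (K₁ ⊔ K₂) := by
  intro L hL hfg
  have h1 : L.map (QuotientGroup.mk' K₁) ≤ K₂.map (QuotientGroup.mk' K₁) := by
    refine (Subgroup.map_mono hL).trans ?_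
    rw [Subgroup.map_sup, sup_le_iff]
    refine ⟨?_, le_rfl⟩
    rintro _ ⟨y, hy, rfl⟩
    have : QuotientGroup.mk' K₁ y = 1 := by
      rw [QuotientGroup.mk'_apply, QuotientGroup.eq_one_iff]
      exact hy
    rw [this]
    exact one_mem _
  have h2 := lf_map63 (QuotientGroup.mk' K₁) l₂ _ h1 (fg_map63 _ hfg)
  have h3 : K₁.relIndex L ≠ 0 := by
    have := Subgroup.relIndex_ker (K := L) (QuotientGroup.mk' K₁)
    rw [QuotientGroup.ker_mk'] at this
    rw [this]
    have : Finite (L.map (QuotientGroup.mk' K₁)) := h2.to_subtype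
    exact Nat.card_pos.ne'
  have h4 : (K₁ ⊓ L).relIndex L ≠ 0 := by rwa [Subgroup.inf_relIndex_right]
  have h5 := schreier63 (inf_le_right : K₁ ⊓ L ≤ L) hfg h4
  exact finite_of63 inf_le_right h4 (l₁ _ inf_le_left h5)

private theorem select_aux63 {𝒬 : Set (Subgroup G)} (hfin : 𝒬.Finite) (n : ℕ) :
    ∀ K₀ : Subgroup G, K₀.FG → (K₀ : Set G).Infinite →
    (∀ Q ∈ 𝒬, (Subgroup.normalizer (Q : Set G)).relIndex K₀ ≠ 0) →
    ({Q ∈ 𝒬 | Q.relIndex K₀ = 0}).ncard ≤ n →
    ∃ H : Subgroup G, H ≤ K₀ ∧ H.FG ∧ (H : Set G).Infinite ∧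
      ∀ Q ∈ 𝒬, H ≤ Subgroup.normalizer (Q : Set G) ∧ (Q.relIndex H ≠ 0 ∨ LF (Q ⊓ H)) := by
  induction n using Nat.strong_induction_on with
  | _ n ih =>
    intro K₀ hfg hinf hn hcard
    by_cases hA : ∀ Q ∈ 𝒬, Q.relIndex K₀ ≠ 0 ∨ LF (Q ⊓ K₀)
    · have : Finite 𝒬 := hfin.to_subtype
      have h1 : (⨅ Q : 𝒬, Subgroup.normalizer ((Q : Subgroup G) : Set G)).relIndex K₀ ≠ 0 :=
        Subgroup.relIndex_iInf_ne_zero fun Q => hn Q Q.2
      set N := (⨅ Q : 𝒬, Subgroup.normalizer ((Q : Subgroup G) : Set G)) with hN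
      have h2 : (N ⊓ K₀).relIndex K₀ ≠ 0 := by rwa [Subgroup.inf_relIndex_right]
      refine ⟨N ⊓ K₀, inf_le_right, schreier63 inf_le_right hfg h2, ?_, ?_⟩
      · intro hf
        exact hinf (finite_of63 inf_le_right h2 hf)
      · intro Q hQ
        refine ⟨inf_le_left.trans (iInf_le (fun Q : 𝒬 => Subgroup.normalizer
          ((Q : Subgroup G) : Set G)) ⟨Q, hQ⟩), ?_⟩
        rcases hA Q hQ with h | h
        · left
          intro h0
          exact h (Subgroup.relIndex_eq_zero_of_le_right inf_le_right h0)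
        · right
          exact lf_mono63 h (inf_le_inf_left _ inf_le_right)
    · push Not at hA
      obtain ⟨Q, hQ, hQ0, hQl⟩ := hA
      have hex : ∃ L : Subgroup G, L ≤ Q ⊓ K₀ ∧ L.FG ∧ (L : Set G).Infinite := by
        by_contra hc
        push Not at hc
        exact hQl fun L hL hf => hc L hL hf
      obtain ⟨L, hL, hLfg, hLinf⟩ := hex
      have hLK : L ≤ K₀ := hL.trans inf_le_right
      have hsub : {Q' ∈ 𝒬 | Q'.relIndex L = 0} ⊂ {Q' ∈ 𝒬 | Q'.relIndex K₀ = 0} := by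
        refine ⟨?_, ?_⟩
        · rintro Q' ⟨hQ', h0⟩
          exact ⟨hQ', Subgroup.relIndex_eq_zero_of_le_right hLK h0⟩
        · intro hc
          have := (hc ⟨hQ, hQ0⟩ : Q ∈ {Q' ∈ 𝒬 | Q'.relIndex L = 0}).2
          rw [Subgroup.relIndex_eq_one.mpr (hL.trans inf_le_left)] at this
          exact one_ne_zero this
      have hlt := Set.ncard_lt_ncard hsub (hfin.subset (Set.sep_subset _ _))
      obtain ⟨H, hH, hHfg, hHinf, hHQ⟩ := ih _ (lt_of_lt_of_le hlt hcard) L hLfg hLinf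
        (fun Q' hQ' h0 => hn Q' hQ' (Subgroup.relIndex_eq_zero_of_le_right hLK h0)) le_rfl
      exact ⟨H, hH.trans hLK, hHfg, hHinf, hHQ⟩

theorem select {K₀ : Subgroup G} (hfg : K₀.FG) (hinf : (K₀ : Set G).Infinite)
    {𝒬 : Set (Subgroup G)} (hfin : 𝒬.Finite)
    (hn : ∀ Q ∈ 𝒬, (Subgroup.normalizer (Q : Set G)).relIndex K₀ ≠ 0) :
    ∃ H : Subgroup G, H ≤ K₀ ∧ H.FG ∧ (H : Set G).Infinite ∧
      ∀ Q ∈ 𝒬, H ≤ Subgroup.normalizer (Q : Set G) ∧ (Q.relIndex H ≠ 0 ∨ LF (Q ⊓ H)) :=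
  select_aux63 hfin _ K₀ hfg hinf hn le_rfl

private theorem normal_of63 {H K : Subgroup G} (h : K ≤ H)
    (n : H ≤ Subgroup.normalizer (K : Set G)) : (K.subgroupOf H).Normal :=
  (Subgroup.normal_subgroupOf_iff_le_normalizer h).mpr n

theorem lf_sup {H K₁ K₂ : Subgroup G} (h₁ : K₁ ≤ H) (h₂ : K₂ ≤ H)
    (n₁ : H ≤ Subgroup.normalizer (K₁ : Set G)) (n₂ : H ≤ Subgroup.normalizer (K₂ : Set G))
    (l₁ : LF K₁) (l₂ : LF K₂) : LF (K₁ ⊔ K₂) := by
  have hn := normal_of63 h₁ n₁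
  have h3 : LF (K₁.subgroupOf H ⊔ K₂.subgroupOf H) :=
    lf_sup_normal63 (lf_subgroupOf63 l₁) (lf_subgroupOf63 l₂)
  have h4 := lf_map63 H.subtype h3
  rwa [Subgroup.map_sup, Subgroup.map_subgroupOf_eq_of_le h₁,
    Subgroup.map_subgroupOf_eq_of_le h₂] at h4

private theorem sup_normalizer63 {H K₁ K₂ : Subgroup G} (h₁ : K₁ ≤ H) (h₂ : K₂ ≤ H)
    (n₁ : H ≤ Subgroup.normalizer (K₁ : Set G)) (n₂ : H ≤ Subgroup.normalizer (K₂ : Set G)) :
    H ≤ Subgroup.normalizer ((K₁ ⊔ K₂ : Subgroup G) : Set G) := by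
  have a := normal_of63 h₁ n₁
  have b := normal_of63 h₂ n₂
  rw [← Subgroup.normal_subgroupOf_iff_le_normalizer (sup_le h₁ h₂),
    Subgroup.subgroupOf_sup h₁ h₂]
  infer_instance

theorem lf_family {H : Subgroup G} (hfg : H.FG) (hinf : (H : Set G).Infinite)
    {𝒦 : Set (Subgroup G)} (hfin : 𝒦.Finite)
    (h : ∀ K ∈ 𝒦, K ≤ H ∧ H ≤ Subgroup.normalizer (K : Set G) ∧ LF K) :
    ∃ K : Subgroup G, K ≤ H ∧ H ≤ Subgroup.normalizer (K : Set G) ∧ K.relIndex H = 0 ∧
      ∀ K' ∈ 𝒦, K' ≤ K := by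
  have key : ∃ K : Subgroup G, K ≤ H ∧ H ≤ Subgroup.normalizer (K : Set G) ∧ LF K ∧
      ∀ K' ∈ 𝒦, K' ≤ K := by
    induction 𝒦, hfin using Set.Finite.induction_on with
    | empty =>
      refine ⟨⊥, bot_le, ?_, ?_, by simp⟩
      · rw [← Subgroup.normal_subgroupOf_iff_le_normalizer bot_le, Subgroup.bot_subgroupOf]
        infer_instance
      · intro L hL _
        rw [le_bot_iff.mp hL]
        simp
    | @insert K' s _ _ ih =>
      obtain ⟨K, hK, hKn, hKl, hKs⟩ := ih fun K hK => h K (Set.mem_insert_of_mem _ hK)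
      obtain ⟨hK', hKn', hKl'⟩ := h K' (Set.mem_insert _ _)
      refine ⟨K' ⊔ K, sup_le hK' hK, sup_normalizer63 hK' hK hKn' hKn,
        lf_sup hK' hK hKn' hKn hKl' hKl, ?_⟩
      intro K'' hK''
      rcases Set.mem_insert_iff.mp hK'' with rfl | hs
      · exact le_sup_left
      · exact (hKs _ hs).trans le_sup_right
  obtain ⟨K, hK, hKn, hKl, hKs⟩ := key
  refine ⟨K, hK, hKn, ?_, hKs⟩
  by_contra hi
  exact hinf (finite_of63 hK hi (hKl K le_rfl (schreier63 hK hfg hi)))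

end Pool.Helper49.TG
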