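import Pool.Agent.Helper49.TG.Value
import Pool.Agent.Helper49.TG.Spine
import Pool.Agent.Helper49.TG.RichBasic
import Pool.Agent.Helper49.TG.Select
import Pool.Agent.Helper49.TG.Geo
import Pool.Agent.Helper49.TG.Return
import Pool.Agent.Helper49.TG.Explore

/-!
# TG-O: the step for nonlinear (rich) classes
-/

set_option autoImplicit false

namespace Pool.Helper49.TG

section aux
variable {G J T Y : Type} [Group G]

theorem cj_le_normalizer {a : G} {M P : Subgroup G}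
    (h : M ≤ Subgroup.normalizer (P : Set G)) : cj a M ≤ Subgroup.normalizer (cj a P : Set G) := by
  intro x hx
  rw [mem_cj] at hx
  have h1 := h hx
  rw [Subgroup.mem_normalizer_iff] at h1 ⊢
  intro y
  rw [mem_cj, mem_cj, h1]
  have : a⁻¹ * x * a * (a⁻¹ * y * a) * (a⁻¹ * x * a)⁻¹ = a⁻¹ * (x * y * x⁻¹) * a := by group
  rw [this]

theorem inf_normalizer {H R : Subgroup G} (h : H ≤ Subgroup.normalizer (R : Set G)) :
    H ≤ Subgroup.normalizer ((R ⊓ H : Subgroup G) : Set G) := by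
  intro x hx
  have h1 := h hx
  rw [Subgroup.mem_normalizer_iff] at h1 ⊢
  intro y
  rw [Subgroup.mem_inf, Subgroup.mem_inf, h1]
  constructor
  · rintro ⟨h2, h3⟩
    exact ⟨h2, H.mul_mem (H.mul_mem hx h3) (H.inv_mem hx)⟩
  · rintro ⟨h2, h3⟩
    refine ⟨h2, ?_⟩
    have := H.mul_mem (H.mul_mem (H.inv_mem hx) h3) hx
    simpa [mul_assoc] using this

theorem exists_unif {ι : Type} [Finite ι] {p : ι → ℕ → Prop}
    (hmono : ∀ i C C', p i C → C ≤ C' → p i C') (h : ∀ i, ∃ C, p i C) : ∃ C, ∀ i, p i C := by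
  classical
  cases nonempty_fintype ι
  choose C hC using h
  refine ⟨Finset.univ.sup C, fun i => hmono i _ _ (hC i) (Finset.le_sup (Finset.mem_univ i))⟩

theorem exists_len {Y T : Type} [Finite Y] (τ : Y → List T) :
    ∃ T₀ : ℕ, 1 ≤ T₀ ∧ ∀ y, (τ y).length ≤ T₀ := by
  obtain ⟨C, hC⟩ := exists_unif (ι := Y) (p := fun y C => (τ y).length ≤ C)
    (fun _ _ _ h h' => h.trans h') (fun y => ⟨_, le_rfl⟩)
  exact ⟨C + 1, by omega, fun y => (hC y).trans (Nat.le_succ C)⟩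

theorem tw_length_le {τ : Y → List T} {T₀ : ℕ} (h : ∀ y, (τ y).length ≤ T₀) (u : List Y) :
    (tw τ u).length ≤ u.length * T₀ := by
  induction u with
  | nil => simp
  | cons a u ih =>
    rw [tw_cons, List.length_append, List.length_cons]
    have := h a
    nlinarith

theorem length_le_tw {τ : Y → List T} (h : ∀ y, τ y ≠ []) (u : List Y) :
    u.length ≤ (tw τ u).length := by
  induction u with
  | nil => simp
  | cons a u ih =>
    rw [tw_cons, List.length_append, List.length_cons]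
    have := List.length_pos_iff.2 (h a)
    omega

theorem tw_ne_nil {X : Type} {τ : Y → List T} (h : ∀ y, τ y ≠ []) {σ : List Y} (hσ : σ ≠ []) :
    tw τ σ ≠ [] := by
  intro h1
  have := length_le_tw h σ
  rw [h1, List.length_nil] at this
  exact hσ (List.length_eq_zero_iff.1 (Nat.le_zero.1 this))

theorem finite_suffixes [Finite Y] (τ : Y → List T) :
    {σ : List T | σ = [] ∨ ∃ y, σ <:+ τ y}.Finite := by
  have : {σ : List T | σ = [] ∨ ∃ y, σ <:+ τ y} = {[]} ∪ ⋃ y, {σ | σ <:+ τ y} := by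
    ext σ
    simp
  rw [this]
  refine (Set.finite_singleton _).union (Set.finite_iUnion fun y => ?_)
  refine (List.finite_toSet (τ y).tails).subset fun σ hσ => ?_
  exact (List.mem_tails _ _).2 hσ

theorem finite_inits [Finite Y] (τ : Y → List T) :
    {σ : List T | σ = [] ∨ ∃ y, σ <+: τ y}.Finite := by
  have : {σ : List T | σ = [] ∨ ∃ y, σ <+: τ y} = {[]} ∪ ⋃ y, {σ | σ <+: τ y} := by
    ext σ
    simp
  rw [this]
  refine (Set.finite_singleton _).union (Set.finite_iUnion fun y => ?_)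
  refine (List.finite_toSet (τ y).inits).subset fun σ hσ => ?_
  exact (List.mem_inits _ _).2 hσ

theorem Gt_fg [Finite Y] (π : T → G) (τ : Y → List T) : (Gt π τ).FG :=
  (Subgroup.fg_iff _).2 ⟨_, rfl, Set.finite_range _⟩

theorem relIndex_ne_of_le_right {H K L : Subgroup G} (hKL : K ≤ L) (h : H.relIndex L ≠ 0) :
    H.relIndex K ≠ 0 := fun h' => h (Subgroup.relIndex_eq_zero_of_le_right hKL h')

theorem relIndex_ne_of_le_left {H K L : Subgroup G} (hHK : H ≤ K) (h : H.relIndex L ≠ 0) :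
    K.relIndex L ≠ 0 := fun h' => h (Subgroup.relIndex_eq_zero_of_le_left hHK h')

/-- Refinement of a tame level. -/
theorem Tame.refine {X : Type} {g : BG J T} {S : J} {π : T → G} {τ : Y → List T} {𝒮 : Set J}
    {N : ℕ} {Γ : Subgroup G} (h : Tame g S π τ 𝒮 N Γ) (σ : X → List Y) {τ₁ : X → List T}
    (hτ : ∀ x, τ₁ x = tw τ (σ x)) {u : List X} (hu : ev π (tw τ₁ u) ∈ Γ) {A : J} (hA : A ∈ 𝒮)
    {α x ω : List T} (h1 : Cx g S A α ω) (h2 : Yd g A x) (h3 : α ++ x ++ ω = tw τ₁ u) :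
    x.length ≤ N := by
  have e : tw τ₁ u = tw τ (tw σ u) := by
    rw [tw_tw]
    congr 1
    funext x
    exact hτ x
  rw [e] at hu h3
  exact h _ hu A hA α x ω h1 h2 h3

end aux

section
variable {G J T Y : Type} [Group G] {g : BG J T} {π : T → G} {S : J} {𝒮 𝒞 : Set J}

/-- Words with value in a fixed coset. -/
theorem coset_bound (hG : ∀ x : G, IsOfFinOrder x) {A : J} (hr : Rich g A) {τ : Y → List T}
    {K : Subgroup G} (hn : Gt π τ ≤ Subgroup.normalizer (K : Set G)) (f e₀ : G)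
    (hK : cj f⁻¹ (Pg hG g π A) ⊓ Gt π τ ≤ K) :
    ∃ C : ℕ, ∀ u ∈ geo π τ K, (∃ y, Yd g A y ∧ f * ev π (tw τ u) * e₀ = ev π y) →
      u.length ≤ C := by
  by_cases h : ∃ u₀ : List Y, ∃ y, Yd g A y ∧ f * ev π (tw τ u₀) * e₀ = ev π y
  · obtain ⟨u₀, y₀, hy₀, hv₀⟩ := h
    refine ⟨u₀.length, fun u hu ⟨y, hy, hv⟩ => hu u₀ ?_⟩
    have h1 := rich_coset (π := π) hG hr hy hy₀
    rw [← hv, ← hv₀] at h1
    have h2 : ev π (tw τ u) * (ev π (tw τ u₀))⁻¹ ∈ K := by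
      refine hK (Subgroup.mem_inf.2 ⟨?_, (Gt π τ).mul_mem (ev_tw_mem π τ u)
        ((Gt π τ).inv_mem (ev_tw_mem π τ u₀))⟩)
      rw [mem_cj, mem_Pg]
      convert h1 using 1
      group
    have h3 : (ev π (tw τ u₀))⁻¹ ∈ Subgroup.normalizer (K : Set G) :=
      hn ((Gt π τ).inv_mem (ev_tw_mem π τ u₀))
    rw [Subgroup.mem_normalizer_iff] at h3
    have h4 := (h3 _).1 h2
    have h5 : (ev π (tw τ u₀))⁻¹ * (ev π (tw τ u) * (ev π (tw τ u₀))⁻¹) * (ev π (tw τ u₀))⁻¹⁻¹ =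
        (ev π (tw τ u₀))⁻¹ * ev π (tw τ u) := by group
    rwa [h5] at h4
  · exact ⟨0, fun u _ hu => absurd ⟨u, hu⟩ h⟩

theorem rich_step (hG : ∀ x : G, IsOfFinOrder x) (hs : ∀ w, Yd g S w → ev π w ≠ 1) [Finite J]
    [Finite T] [Finite Y] {τ : Y → List T} {N : ℕ} {Γ : Subgroup G}
    (hT : Tame g S π τ 𝒮 N Γ) (hΓ : Γ.relIndex (Gt π τ) ≠ 0) (hne : ∀ y, τ y ≠ [])
    (hinf : (Gt π τ : Set G).Infinite) (hcls : Cls g 𝒮 𝒞) (hrich : ∀ A ∈ 𝒞, Rich g A) :
    ∃ (Y₁ : Type) (_ : Finite Y₁) (τ₁ : Y₁ → List T) (N₁ : ℕ) (Γ₁ : Subgroup G),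
      (∀ y, τ₁ y ≠ []) ∧ (Gt π τ₁ : Set G).Infinite ∧ Γ₁.relIndex (Gt π τ₁) ≠ 0 ∧
      Tame g S π τ₁ (𝒮 ∪ 𝒞) N₁ Γ₁ := by
  classical
  obtain ⟨e, Ne, he, hexp⟩ := explore hG hT hcls hrich
  obtain ⟨τ', hτ'⟩ : ∃ τ' : Y → List T, τ' = fun y => tw τ (y :: e) := ⟨_, rfl⟩
  rw [← hτ'] at hexp
  have hτ'y : ∀ y, τ' y = tw τ (y :: e) := fun y => by rw [hτ']
  have hτ'ne : ∀ y, τ' y ≠ [] := fun y => by
    rw [hτ'y]
    exact tw_ne_nil (X := Y) hne (List.cons_ne_nil _ _)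
  have hGt' : Gt π τ' = Gt π τ := by
    unfold Gt
    congr 1
    ext a
    constructor
    · rintro ⟨y, rfl⟩
      exact ⟨y, by simp only [hτ'y, tw_cons, ev_append, he, mul_one]⟩
    · rintro ⟨y, rfl⟩
      exact ⟨y, by simp only [hτ'y, tw_cons, ev_append, he, mul_one]⟩
  -- the family of conjugates
  set K₀ := Gt π τ with hK₀
  let 𝒬 : Set (Subgroup G) := {R | ∃ A ∈ 𝒞, ∃ b ∈ K₀, ∃ σ : List T,
    (σ = [] ∨ ∃ y, σ <:+ τ' y) ∧ (cj (ev π σ)⁻¹ (Ml hG g π A)).relIndex K₀ ≠ 0 ∧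
      R = cj b (cj (ev π σ)⁻¹ (Pg hG g π A))}
  have hnorm : ∀ (A : J) (a : G), cj a (Ml hG g π A) ≤
      Subgroup.normalizer (cj a (Pg hG g π A) : Set G) :=
    fun A a => cj_le_normalizer (Ml_le_normalizer hG A)
  have h𝒬fin : 𝒬.Finite := by
    have h1 : 𝒬 ⊆ ⋃ A : J, ⋃ σ ∈ {σ : List T | σ = [] ∨ ∃ y, σ <:+ τ' y},
        {R | (cj (ev π σ)⁻¹ (Ml hG g π A)).relIndex K₀ ≠ 0 ∧
          ∃ b ∈ K₀, R = cj b (cj (ev π σ)⁻¹ (Pg hG g π A))} := by
      rintro R ⟨A, hA, b, hb, σ, hσ, h2, rfl⟩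
      simp only [Set.mem_iUnion]
      exact ⟨A, σ, hσ, h2, b, hb, rfl⟩
    refine Set.Finite.subset (Set.finite_iUnion fun A => ?_) h1
    refine (finite_suffixes τ').biUnion fun σ _ => ?_
    by_cases h2 : (cj (ev π σ)⁻¹ (Ml hG g π A)).relIndex K₀ ≠ 0
    · refine (finite_conj (hnorm A _) h2).subset ?_
      rintro R ⟨-, b, hb, rfl⟩
      exact ⟨b, hb, rfl⟩
    · refine Set.Finite.subset Set.finite_empty ?_
      rintro R ⟨h3, -⟩
      exact (h2 h3).elim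
  have h𝒬n : ∀ Q ∈ 𝒬, (Subgroup.normalizer (Q : Set G)).relIndex K₀ ≠ 0 := by
    rintro Q ⟨A, hA, b, hb, σ, hσ, h2, rfl⟩
    exact norm_cj hb (relIndex_ne_of_le_left (hnorm A _) h2)
  obtain ⟨H, hHK, hHfg, hHinf, hH⟩ := select (Gt_fg π τ) hinf h𝒬fin h𝒬n
  let 𝒦 : Set (Subgroup G) := {R | ∃ Q ∈ 𝒬, LF (Q ⊓ H) ∧ R = Q ⊓ H}
  have h𝒦fin : 𝒦.Finite := by
    refine (h𝒬fin.image fun Q => Q ⊓ H).subset ?_
    rintro R ⟨Q, hQ, -, rfl⟩
    exact ⟨Q, hQ, rfl⟩
  obtain ⟨K, hKH, hKn, hKidx, hKall⟩ := lf_family hHfg hHinf h𝒦fin (by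
    rintro R ⟨Q, hQ, h1, rfl⟩
    exact ⟨inf_le_right, inf_normalizer (hH Q hQ).1, h1⟩)
  have hYne : Nonempty Y := by
    by_contra h1
    rw [not_nonempty_iff] at h1
    apply hinf
    have : K₀ = ⊥ := by
      rw [hK₀]
      unfold Gt
      rw [Set.range_eq_empty, Subgroup.closure_empty]
    rw [this]
    exact Set.finite_singleton _
  obtain ⟨m', σ, hσne, hσH⟩ := exists_level (π := π) (τ := τ') hG (H := H) (by
    rw [hGt']
    exact hHK) hHfg
  obtain ⟨τ₂, hτ₂⟩ : ∃ τ₂ : Fin m' → List T, τ₂ = fun i => tw τ' (σ i) := ⟨_, rfl⟩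
  rw [← hτ₂] at hσH
  have hτ₂i : ∀ i, τ₂ i = tw τ' (σ i) := fun i => by rw [hτ₂]
  have hτ₂ne : ∀ i, τ₂ i ≠ [] := fun i => by
    rw [hτ₂i]
    exact tw_ne_nil (X := Y) hτ'ne (hσne i)
  have hKn' : Gt π τ₂ ≤ Subgroup.normalizer (K : Set G) := by
    rw [hσH]
    exact hKn
  -- the uniform bound on the geodesic words with value in a given coset
  have hSu := finite_suffixes τ₂
  have hIn := finite_inits τ₂
  haveI : Finite {σ : List T | σ = [] ∨ ∃ y, σ <:+ τ₂ y} := hSu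
  haveI : Finite {σ : List T | σ = [] ∨ ∃ y, σ <+: τ₂ y} := hIn
  obtain ⟨C, hC⟩ := exists_unif (ι := J × {σ : List T | σ = [] ∨ ∃ y, σ <:+ τ₂ y} ×
      {σ : List T | σ = [] ∨ ∃ y, σ <+: τ₂ y})
    (p := fun i C => i.1 ∈ 𝒞 → cj (ev π i.2.1.1)⁻¹ (Pg hG g π i.1) ⊓ Gt π τ₂ ≤ K →
      ∀ u ∈ geo π τ₂ K,
        (∃ y, Yd g i.1 y ∧ ev π i.2.1.1 * ev π (tw τ₂ u) * ev π i.2.2.1 = ev π y) →
          u.length ≤ C)
    (fun i C C' h1 h2 h3 h4 u hu h5 => (h1 h3 h4 u hu h5).trans h2)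
    (by
      intro i
      by_cases h1 : i.1 ∈ 𝒞 ∧ cj (ev π i.2.1.1)⁻¹ (Pg hG g π i.1) ⊓ Gt π τ₂ ≤ K
      · obtain ⟨C, hC⟩ := coset_bound (π := π) hG (hrich _ h1.1) hKn' (ev π i.2.1.1)
          (ev π i.2.2.1) h1.2
        exact ⟨C, fun _ _ => hC⟩
      · exact ⟨0, fun h2 h3 => absurd ⟨h2, h3⟩ h1⟩)
  obtain ⟨T₂, hT₂1, hT₂⟩ := exists_len τ₂
  obtain ⟨m₀, hm₀⟩ : ∃ m₀ : ℕ, m₀ = N + Ne + (C + 3) * T₂ := ⟨_, rfl⟩
  have hgl : ∀ n, ∃ w ∈ geo π τ₂ K, n ≤ w.length := fun n =>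
    geo_long hG hKn' (by rw [hσH]; exact hKidx) n
  obtain ⟨Z, hZne, hZfac, hZlong⟩ := return_words (geo π τ₂ K)
    (fun u v w h => geo_factor hKn' h) hgl (2 * m₀)
  obtain ⟨τ₁, hτ₁⟩ : ∃ τ₁ : {z // z ∈ Z} → List T, τ₁ = fun z => tw τ₂ z.1 := ⟨_, rfl⟩
  have hτ₁z : ∀ z, τ₁ z = tw τ₂ z.1 := fun z => by rw [hτ₁]
  obtain ⟨ΓV, hΓV, hval⟩ := value_level (π := π) (g := g) (S := S) hG hs τ₂
  have hGt₁ : Gt π τ₁ ≤ H := by
    rw [← hσH]
    unfold Gt
    rw [Subgroup.closure_le]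
    rintro _ ⟨z, rfl⟩
    simp only [hτ₁z]
    exact ev_tw_mem π τ₂ z.1
  refine ⟨{z // z ∈ Z}, inferInstance, τ₁, N + m₀, Γ ⊓ ΓV, ?_, ?_, ?_, ?_⟩
  · intro z
    rw [hτ₁z]
    exact tw_ne_nil (X := Y) hτ₂ne (hZne z.1 z.2)
  · -- infinitely many values
    intro hfin
    haveI : Finite (Gt π τ₁ : Set G) := hfin
    obtain ⟨C', hC'⟩ := exists_unif (ι := (Gt π τ₁ : Set G))
      (p := fun a C => ∀ u ∈ geo π τ₂ K, a.1⁻¹ * ev π (tw τ₂ u) ∈ K → u.length ≤ C)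
      (fun a C C' h1 h2 u hu h3 => (h1 u hu h3).trans h2)
      (fun a => geo_bound π τ₂ K a.1)
    obtain ⟨zs, hzs, hgeo, hlen⟩ := hZlong (C' + 1)
    have h1 : ev π (tw τ₂ zs.flatten) ∈ Gt π τ₁ := by
      have h2 : tw τ₂ zs.flatten = tw τ₁ (zs.pmap (fun z hz => ⟨z, hz⟩) hzs) := by
        clear hgeo hlen
        induction zs with
        | nil => rfl
        | cons a zs ih =>
          rw [List.flatten_cons, tw_append, ih (fun z hz => hzs z (List.mem_cons_of_mem _ hz)),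
            List.pmap_cons, tw_cons, hτ₁z]
      rw [h2]
      exact ev_tw_mem π τ₁ _
    have h2 := hC' ⟨_, h1⟩ zs.flatten hgeo (by simpa using K.one_mem)
    omega
  · exact Subgroup.relIndex_inf_ne_zero (relIndex_ne_of_le_right (hGt₁.trans hHK) hΓ)
      (relIndex_ne_of_le_right (by rw [hσH]; exact hGt₁) hΓV)
  · -- tameness
    intro v hv A hA α x ω hc hx hw
    -- the word at the various levels
    have e₂ : tw τ₁ v = tw τ₂ (v.map Subtype.val).flatten := by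
      clear hv hw
      induction v with
      | nil => rfl
      | cons a v ih =>
        rw [tw_cons, ih, List.map_cons, List.flatten_cons, tw_append, hτ₁z]
    have e₁ : tw τ₁ v = tw τ' (tw σ (v.map Subtype.val).flatten) := by
      rw [e₂, tw_tw, ← hτ₂]
    have e₀ : tw τ₁ v = tw τ (tw (fun y => y :: e) (tw σ (v.map Subtype.val).flatten)) := by
      rw [e₁, tw_tw τ (fun y => y :: e), ← hτ']
    have hbd : ∀ B ∈ 𝒮, ∀ α' y ω', Cx g S B α' ω' → Yd g B y → α' ++ y ++ ω' = tw τ₁ v →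
        y.length ≤ N := by
      intro B hB α' y ω' h1 h2 h3
      rw [e₀] at h3 hv
      exact hT _ hv.1 B hB α' y ω' h1 h2 h3
    rcases hA with hA | hA
    · exact (hbd A hA α x ω hc hx hw).trans (Nat.le_add_right _ _)
    · by_contra hlen
      push Not at hlen
      have hb : Bd g 𝒮 N A x := by
        intro B hB β y δ h1 h2 h3
        refine hbd B hB (α ++ β) y (δ ++ ω) (hc.comp h1) h2 ?_
        rw [← hw, ← h3]
        simp [List.append_assoc]
      have hT₂C : 3 * T₂ ≤ (C + 3) * T₂ := Nat.mul_le_mul_right _ (by omega)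
      obtain ⟨B, hB, β, y, δ, h1, h2, h3, h4, h5⟩ := window hcls (m := m₀) (by omega) (by omega)
        hA hx hb (by omega)
      have hc' : Cx g S B (α ++ β) (δ ++ ω) := hc.comp h1
      have hw' : (α ++ β) ++ y ++ (δ ++ ω) = tw τ₁ v := by
        rw [← hw, ← h3]
        simp [List.append_assoc]
      set α' := α ++ β with hα'
      set ω' := δ ++ ω with hω'
      clear_value α' ω'
      -- exploring
      have hM : (cj (ev π α') (Ml hG g π B)).relIndex K₀ ≠ 0 := by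
        refine hexp (tw σ (v.map Subtype.val).flatten) ?_ B hB α' y ω' hc' h2 ?_ (by omega)
        · rw [← e₁]
          exact hv.1
        · rw [← e₁]
          exact hw'
      -- the value trick
      have hP : (cj (ev π α') (Pg hG g π B)).relIndex H = 0 := by
        have := (hval (v.map Subtype.val).flatten (by rw [← e₂]; exact hv.2) B α' y ω' hc' h2
          (by rw [← e₂]; exact hw')).1
        rwa [hσH] at this
      -- the factor
      have hw₂ : tw τ₂ (v.map Subtype.val).flatten = α' ++ (y ++ ω') := by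
        rw [← e₂, ← hw', List.append_assoc]
      obtain ⟨v₁, v', σ₁, g1, g2, g3, g4⟩ := split_ceil hw₂
      have hσ₁len : σ₁.length ≤ T₂ := by
        rcases g4 with rfl | ⟨i, hi⟩
        · simp
        · exact hi.length_le.trans (hT₂ i)
      obtain ⟨y₁, g5, g6⟩ : ∃ y₁, y = σ₁ ++ y₁ ∧ y₁ ++ ω' = tw τ₂ v' := by
        rcases List.append_eq_append_iff.1 g3 with ⟨z, hz1, hz2⟩ | ⟨z, hz1, hz2⟩
        · exfalso
          have : y.length ≤ T₂ := by
            rw [hz1, List.length_append] at hσ₁len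
            omega
          omega
        · exact ⟨z, hz1, hz2.symm⟩
      obtain ⟨v₂, v₃, σ₂, g7, g8, g9, g10⟩ := split_floor g6.symm
      have hσ₂len : σ₂.length ≤ T₂ := by
        rcases g10 with rfl | ⟨i, hi⟩
        · simp
        · exact hi.length_le.trans (hT₂ i)
      have hylen : y.length = σ₁.length + ((tw τ₂ v₂).length + σ₂.length) := by
        rw [g5, g8, List.length_append, List.length_append]
      have hv₂len : v₂.length ≤ 2 * m₀ := by
        have := length_le_tw hτ₂ne v₂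
        omega
      have hv₂C : C < v₂.length := by
        have h6 := tw_length_le hT₂ v₂
        by_contra h7
        push Not at h7
        have h8 : v₂.length * T₂ ≤ C * T₂ := Nat.mul_le_mul_right _ h7
        have h9 : (C + 3) * T₂ = C * T₂ + 3 * T₂ := by ring
        omega
      have hgeo : v₂ ∈ geo π τ₂ K := by
        refine hZfac (v.map Subtype.val) ?_ v₁ v₂ v₃ ?_ hv₂len
        · intro z hz
          rw [List.mem_map] at hz
          obtain ⟨z', -, rfl⟩ := hz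
          exact z'.2
        · rw [g1, g7, List.append_assoc]
      -- the conjugate is in the family
      have hbH : ev π (tw τ₂ v₁) ∈ H := by
        have := ev_tw_mem π τ₂ v₁
        rwa [hσH] at this
      have hevα : ev π α' = ev π (tw τ₂ v₁) * (ev π σ₁)⁻¹ := by
        rw [← g2, ev_append, mul_inv_cancel_right]
      obtain ⟨σ', u₂, g11, g12⟩ : ∃ (σ' : List T) (u₂ : List Y),
          (σ' = [] ∨ ∃ y, σ' <:+ τ' y) ∧ σ₁ = σ' ++ tw τ' u₂ := by
        rcases g4 with rfl | ⟨i, ρ, hρ⟩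
        · exact ⟨[], [], Or.inl rfl, rfl⟩
        · rw [hτ₂i] at hρ
          obtain ⟨-, u₂, σ', -, -, q3, q4⟩ := split_ceil hρ.symm
          exact ⟨σ', u₂, q4, q3⟩
      have hg' : ev π (tw τ' u₂) ∈ K₀ := by
        have := ev_tw_mem π τ' u₂
        rwa [hGt'] at this
      have hσ₁inv : (ev π σ₁)⁻¹ = (ev π (tw τ' u₂))⁻¹ * (ev π σ')⁻¹ := by
        rw [g12, ev_append, mul_inv_rev]
      have hR : cj (ev π σ₁)⁻¹ (Pg hG g π B) ∈ 𝒬 := by
        refine ⟨B, hB, (ev π (tw τ' u₂))⁻¹, K₀.inv_mem hg', σ', g11, ?_, ?_⟩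
        · intro h6
          apply hM
          rw [hevα, hσ₁inv, ← mul_assoc, ← cj_cj, relIndex_cj
            (K₀.mul_mem (hHK hbH) (K₀.inv_mem hg'))]
          exact h6
        · rw [cj_cj, hσ₁inv]
      have hRidx : (cj (ev π σ₁)⁻¹ (Pg hG g π B)).relIndex H = 0 := by
        rw [hevα, ← cj_cj, relIndex_cj hbH] at hP
        exact hP
      have hLF : LF (cj (ev π σ₁)⁻¹ (Pg hG g π B) ⊓ H) := by
        rcases (hH _ hR).2 with h6 | h6
        · exact (h6 hRidx).elim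
        · exact h6
      have hRK : cj (ev π σ₁)⁻¹ (Pg hG g π B) ⊓ Gt π τ₂ ≤ K := by
        rw [hσH]
        exact hKall _ ⟨_, hR, hLF, rfl⟩
      have := hC (B, ⟨σ₁, g4⟩, ⟨σ₂, g10⟩) hB hRK v₂ hgeo ⟨y, h2, by
        rw [g5, g8]
        simp [mul_assoc]⟩
      omega

end

end Pool.Helper49.TG
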