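import Pool.Agent.Helper49.TG.LinearStep
import Pool.Agent.Helper49.TG.RichStep
import Pool.Agent.Helper49.TG.CNF
import Pool.Agent.Helper49.WR.Defs

/-!
# TG: finitely generated torsion co-context-free groups are finite
-/

set_option autoImplicit false

namespace Pool.Helper49.TG

open Pool.Helper49.WR (CoCF)

section classes
variable {J T : Type} (g : BG J T)

/-- The nonterminals reachable from `A`. -/
def reach (A : J) : Set J := {B | ∃ β δ, Cx g A B β δ}

theorem reach_refl (A : J) : A ∈ reach g A := ⟨[], [], Cx.nil⟩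

theorem reach_trans {A B : J} (h : B ∈ reach g A) : reach g B ⊆ reach g A := by
  obtain ⟨β, δ, h⟩ := h
  rintro C ⟨β', δ', h'⟩
  exact ⟨_, _, h.comp h'⟩

theorem exists_class [Finite J] (𝒮 : Set J) (hne : 𝒮 ≠ Set.univ) :
    ∃ 𝒞 : Set J, (∃ A, A ∈ 𝒞 ∧ A ∉ 𝒮) ∧ Cls g 𝒮 𝒞 := by
  classical
  have hex : ∃ n : ℕ, ∃ A, A ∉ 𝒮 ∧ (reach g A \ 𝒮).ncard = n := by
    obtain ⟨A, hA⟩ := (Set.ne_univ_iff_exists_notMem 𝒮).1 hne
    exact ⟨_, A, hA, rfl⟩
  obtain ⟨A, hA, hcard⟩ := Nat.find_spec hex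
  have hmin : ∀ B, B ∉ 𝒮 → (reach g A \ 𝒮).ncard ≤ (reach g B \ 𝒮).ncard := by
    intro B hB
    rw [hcard]
    exact Nat.find_min' hex ⟨B, hB, rfl⟩
  have heq : ∀ B ∈ reach g A \ 𝒮, reach g B \ 𝒮 = reach g A \ 𝒮 := by
    rintro B ⟨h1, h2⟩
    exact Set.eq_of_subset_of_ncard_le
      (Set.diff_subset_diff_left (reach_trans g h1)) (hmin B h2) (Set.toFinite _)
  refine ⟨reach g A \ 𝒮, ⟨A, ⟨reach_refl g A, hA⟩, hA⟩, ?_, ?_⟩
  · intro B hB C hC
    rw [← heq B hB] at hC
    exact hC.1
  · intro B hB C D u v hr hu hv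
    have h1 : C ∈ reach g A := reach_trans g hB.1 ⟨_, _, Cx.left hr Cx.nil hv⟩
    have h2 : D ∈ reach g A := reach_trans g hB.1 ⟨_, _, Cx.right hr hu Cx.nil⟩
    constructor
    · by_cases h : C ∈ 𝒮
      · exact Or.inl h
      · exact Or.inr ⟨h1, h⟩
    · by_cases h : D ∈ 𝒮
      · exact Or.inl h
      · exact Or.inr ⟨h2, h⟩

end classes

section main
variable {G J T : Type} [Group G]

/-- All nonterminals can be made tame. -/
theorem exists_tame (hG : ∀ x : G, IsOfFinOrder x) (hinf : (Set.univ : Set G).Infinite) [Finite J]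
    [Finite T] {g : BG J T} {π : T → G} {S : J} (hs : ∀ w, Yd g S w → ev π w ≠ 1)
    (hπ : Gt π (fun t : T => [t]) = ⊤) (k : ℕ) :
    ∃ (𝒮 : Set J) (Y : Type) (_ : Finite Y) (τ : Y → List T) (N : ℕ) (Γ : Subgroup G),
      (k ≤ 𝒮.ncard ∨ 𝒮 = Set.univ) ∧ (∀ y, τ y ≠ []) ∧ (Gt π τ : Set G).Infinite ∧
      Γ.relIndex (Gt π τ) ≠ 0 ∧ Tame g S π τ 𝒮 N Γ := by
  classical
  induction k with
  | zero =>
    refine ⟨∅, T, inferInstance, fun t => [t], 0, ⊤, Or.inl (Nat.zero_le _), fun y => by simp,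
      ?_, ?_, fun u _ A hA => hA.elim⟩
    · rw [hπ]
      simpa using hinf
    · rw [Subgroup.relIndex_top_left]
      exact one_ne_zero
  | succ k ih =>
    obtain ⟨𝒮, Y, hY, τ, N, Γ, h1, h2, h3, h4, h5⟩ := ih
    by_cases huniv : 𝒮 = Set.univ
    · exact ⟨𝒮, Y, hY, τ, N, Γ, Or.inr huniv, h2, h3, h4, h5⟩
    · obtain ⟨𝒞, ⟨A, hA, hA'⟩, hcls⟩ := exists_class g 𝒮 huniv
      have hcard : k + 1 ≤ (𝒮 ∪ 𝒞).ncard := by
        have h6 : k ≤ 𝒮.ncard := h1.resolve_right huniv
        have h7 : 𝒮 ⊂ 𝒮 ∪ 𝒞 := by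
          refine ⟨Set.subset_union_left, fun h => hA' (h (Or.inr hA))⟩
        have h8 := Set.ncard_lt_ncard h7 (Set.toFinite _)
        omega
      by_cases hlin : Lin g 𝒮 𝒞
      · obtain ⟨τ₁, N₁, Γ₁, q1, q2, q3, q4⟩ := linear_step hG hs h5 h4 h2 h3 hcls hlin
        refine ⟨𝒮 ∪ 𝒞, Y, hY, τ₁, N₁, Γ₁, Or.inl hcard, q1, ?_, q3, q4⟩
        rw [q2]
        exact h3
      · obtain ⟨Y₁, hY₁, τ₁, N₁, Γ₁, q1, q2, q3, q4⟩ :=
          rich_step hG hs h5 h4 h2 h3 hcls (rich_of_not_lin hcls hlin)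
        exact ⟨𝒮 ∪ 𝒞, Y₁, hY₁, τ₁, N₁, Γ₁, Or.inl hcard, q1, q2, q3, q4⟩

/-- A subgroup of finite relative index of an infinite group contains an element `≠ 1`. -/
theorem exists_ne_one {Γ K : Subgroup G} (h : Γ.relIndex K ≠ 0) (hinf : (K : Set G).Infinite) :
    ∃ a ∈ Γ, a ∈ K ∧ a ≠ 1 := by
  by_contra hcon
  push Not at hcon
  have h1 : (⊥ : Subgroup G).relIndex K ≠ 0 := by
    have h2 : (Γ ⊓ K).relIndex K ≠ 0 := by
      rwa [Subgroup.inf_relIndex_right]
    have h3 : Γ ⊓ K = ⊥ := by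
      rw [Subgroup.eq_bot_iff_forall]
      intro a ha
      exact hcon a ha.1 ha.2
    rwa [h3] at h2
  rw [Subgroup.relIndex_bot_left] at h1
  exact hinf (Nat.finite_of_card_ne_zero h1)

theorem finite_of_grammar (hG : ∀ x : G, IsOfFinOrder x) [Finite J] [Finite T] {g : BG J T}
    {π : T → G} {S : J} (hs : ∀ w, Yd g S w ↔ ev π w ≠ 1)
    (hπ : Gt π (fun t : T => [t]) = ⊤) : Finite G := by
  classical
  by_contra hfin
  have hinf : (Set.univ : Set G).Infinite := by
    rw [Set.infinite_univ_iff]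
    exact not_finite_iff_infinite.1 hfin
  obtain ⟨𝒮, Y, hY, τ, N, Γ, h1, h2, h3, h4, h5⟩ :=
    exists_tame hG hinf (fun w hw => (hs w).1 hw) hπ (Nat.card J + 1)
  have huniv : 𝒮 = Set.univ := by
    rcases h1 with h1 | h1
    · exfalso
      have := Set.ncard_le_card 𝒮
      omega
    · exact h1
  obtain ⟨a, ha, ha', hne⟩ := exists_ne_one h4 h3
  obtain ⟨u, hu⟩ := exists_word hG π τ ha'
  have hYne : Nonempty Y := by
    by_contra h6
    rw [not_nonempty_iff] at h6
    apply h3
    have : Gt π τ = ⊥ := by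
      unfold Gt
      rw [Set.range_eq_empty, Subgroup.closure_empty]
    rw [this]
    exact Set.finite_singleton _
  obtain ⟨y⟩ := hYne
  obtain ⟨v, hv⟩ : ∃ v : List Y,
      v = (List.replicate (N + 1) (List.replicate (orderOf (ev π (τ y))) y)).flatten := ⟨_, rfl⟩
  have hrep : ∀ n : ℕ, ev π (tw τ (List.replicate n y)) = ev π (τ y) ^ n := by
    intro n
    induction n with
    | zero => simp
    | succ n ih => rw [List.replicate_succ, tw_cons, ev_append, ih, pow_succ']
  have hvv : ev π (tw τ v) = 1 := by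
    rw [hv]
    generalize N + 1 = M
    induction M with
    | zero => simp
    | succ M ih =>
      rw [List.replicate_succ, List.flatten_cons, tw_append, ev_append, hrep, pow_orderOf_eq_one,
        one_mul]
      exact ih
  have hvl : N + 1 ≤ v.length := by
    have h6 : 0 < orderOf (ev π (τ y)) := (hG _).orderOf_pos
    have h7 : v.length = (N + 1) * orderOf (ev π (τ y)) := by
      rw [hv, List.length_flatten]
      simp
    rw [h7]
    exact Nat.le_mul_of_pos_right _ h6
  have hval : ev π (tw τ (u ++ v)) = a := by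
    rw [tw_append, ev_append, hu, hvv, mul_one]
  have hd : Yd g S (tw τ (u ++ v)) := (hs _).2 (by rw [hval]; exact hne)
  have h6 := h5 (u ++ v) (by rw [hval]; exact ha) S (by rw [huniv]; trivial) [] _ [] Cx.nil hd
    (by simp)
  have h7 := length_le_tw h2 (u ++ v)
  rw [List.length_append] at h7
  omega

/-- Torsion subgroups of co-context-free groups are locally finite. -/
theorem locally_finite (hcf : CoCF G) {H : Subgroup G} (hfg : H.FG)
    (htor : ∀ x ∈ H, IsOfFinOrder x) : (H : Set G).Finite := by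
  classical
  obtain ⟨n, f, hf, hL⟩ := hcf
  obtain ⟨J, hJ, g, S, hg⟩ := exists_BG hL
  have hgv : ∀ w, Yd g S w ↔ ev f w ≠ 1 := fun w => hg w
  -- words for generators of `H`
  obtain ⟨s, hs⟩ := hfg
  have hword : ∀ a : G, ∃ w : List (Fin n), ev f w = a := fun a => hf a
  choose wd hwd using hword
  -- make the words nonempty
  by_cases hn : H = ⊥
  · rw [hn]
    exact Set.finite_singleton _
  have hne : ∃ a ∈ s, a ≠ 1 := by
    by_contra hcon
    push Not at hcon
    apply hn
    rw [← hs, Subgroup.closure_eq_bot_iff]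
    intro a ha
    exact hcon a ha
  let s' : Finset G := s.filter fun a => a ≠ 1
  have hs' : Subgroup.closure (s' : Set G) = H := by
    rw [← hs]
    apply le_antisymm
    · exact Subgroup.closure_mono fun a ha => (Finset.mem_filter.1 ha).1
    · rw [Subgroup.closure_le]
      intro a ha
      by_cases h1 : a = 1
      · rw [h1]
        exact Subgroup.one_mem _
      · exact Subgroup.subset_closure (by simp [s', h1]; exact ha)
  let τ : {a // a ∈ s'} → List (Fin n) := fun a => wd a.1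
  have hτ : ∀ a, τ a ≠ [] := by
    intro a h1
    have h2 : ev f (wd a.1) = a.1 := hwd a.1
    have h3 : wd a.1 = [] := h1
    rw [h3, ev_nil] at h2
    have h4 := a.2
    simp only [s', Finset.mem_filter] at h4
    exact h4.2 h2.symm
  obtain ⟨J', hJ', g', S', hg'⟩ := inv_hom g S τ hτ
  have hHfin : Finite H := by
    let π : {a // a ∈ s'} → H := fun a => ⟨a.1, by
      rw [← hs']
      exact Subgroup.subset_closure a.2⟩
    have hev : ∀ v, ((ev π v : H) : G) = ev f (tw τ v) := by
      intro v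
      induction v with
      | nil => simp
      | cons a v ih =>
        rw [ev_cons, tw_cons, ev_append, Subgroup.coe_mul, ih]
        congr 1
        exact (hwd a.1).symm
    refine finite_of_grammar (g := g') (S := S') (π := π) ?_ ?_ ?_
    · intro x
      have h1 := htor x.1 x.2
      rw [isOfFinOrder_iff_pow_eq_one] at h1 ⊢
      obtain ⟨k, hk, h1⟩ := h1
      exact ⟨k, hk, Subtype.ext (by simpa using h1)⟩
    · intro w
      rw [hg', hgv, ← hev, Ne, Ne, OneMemClass.coe_eq_one]
    · unfold Gt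
      have h1 : (Set.range fun y : {a // a ∈ s'} => ev π [y]) = Subtype.val ⁻¹' (s' : Set G) := by
        ext x
        constructor
        · rintro ⟨y, rfl⟩
          simp [π]
        · intro hx
          exact ⟨⟨x.1, hx⟩, by simp [π]⟩
      rw [h1]
      have h2 : (s' : Set G) ⊆ (H : Set G) := by
        rw [← hs']
        exact Subgroup.subset_closure
      rw [eq_top_iff]
      rintro ⟨x, hx⟩ -
      have h3 : (Subgroup.closure (Subtype.val ⁻¹' (s' : Set G)) : Subgroup H).map H.subtype =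
          H := by
        rw [MonoidHom.map_closure]
        have : (H.subtype '' (Subtype.val ⁻¹' (s' : Set G)) : Set G) = s' := by
          ext z
          constructor
          · rintro ⟨w, hw, rfl⟩
            exact hw
          · intro hz
            exact ⟨⟨z, h2 hz⟩, hz, rfl⟩
        rw [this, hs']
      have h4 : x ∈ (Subgroup.closure (Subtype.val ⁻¹' (s' : Set G)) : Subgroup H).map
          H.subtype := by
        rw [h3]
        exact hx
      obtain ⟨w, hw, hwx⟩ := h4
      have : w = ⟨x, hx⟩ := Subtype.ext hwx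
      rwa [← this]
  exact Set.toFinite _

end main

end Pool.Helper49.TG
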