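import Pool.Agent.Helper49.TG.GrpConj

/-!
# TG-B: the value trick

* `value_left`: if `W := ev π (α ++ x ++ ω)` were in `cj (ev π α) P` then (`mem_cj`)
  `a⁻¹ W a ∈ P`, `a = ev π α`, hence `p := (a⁻¹ W a)⁻¹ ∈ P`: there is a loop `Cx g A A β δ` with
  `ev π β = p`, `ev π δ = 1`.  The word `α ++ (β ++ x ++ δ) ++ ω` is derived from `S`
  (`Cx.plug` twice) and has value `a p (ev π x) (ev π ω) = W⁻¹ W = 1`: contradiction with `hs`.
* `value_right`: the same on the right: `q := ev π ω * W⁻¹ * (ev π ω)⁻¹`, word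
  `α ++ (β ++ x ++ δ) ++ ω` with `ev π β = 1`, `ev π δ = q`.
* `split_ceil`, `split_floor`: cut the word `tw τ u = α ++ ρ` at the next (previous) boundary:
  induction on `u` (generalizing `α`, `ρ`), with `List.append_eq_append_iff`.
* `value_level`: `Γ` is the group of `exists_core_iInf` for the finite family of the subgroups
  `cj (ev π σ)⁻¹ (Pg hG g π A)` and `cj (ev π σ) (Qg hG g π A)`, where `σ` is a member of the finite
  set of the words that are `[]` or a contiguous part of a word `τ y` (it is enough that the set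
  contains `[]`, all `σ` with `σ <:+ τ y` and all `σ` with `σ <+: τ y`), and `K = Gt π τ`.
  Let `w = tw τ u = α ++ x ++ ω`, `W = ev π w ∈ Γ`.  By `split_ceil` `α ++ σ = tw τ u₁`, so
  `ev π α = b * (ev π σ)⁻¹` with `b = ev π (tw τ u₁) ∈ K`, and
  `cj (ev π α) P = cj b (cj (ev π σ)⁻¹ P)` has the relative index of `cj (ev π σ)⁻¹ P`
  (`relIndex_cj`).  If it were `≠ 0` then `b⁻¹ W b ∈ cj (ev π σ)⁻¹ P` by the property of `Γ`, that is
  `W ∈ cj (ev π α) P`, against `value_left`.  On the right: `split_floor` for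
  `(α ++ x) ++ ω`: `α ++ x = tw τ u₁ ++ σ`, `tw τ u₂ = σ ++ ω`, so `(ev π ω)⁻¹ = b⁻¹ * ev π σ` with
  `b = ev π (tw τ u₂)`.
-/

set_option autoImplicit false

namespace Pool.Helper49.TG

section
variable {G J T Y : Type} [Group G] {hG : ∀ x : G, IsOfFinOrder x} {g : BG J T} {π : T → G} {S : J}

theorem value_left (hs : ∀ w, Yd g S w → ev π w ≠ 1) {A : J} {α x ω : List T}
    (hc : Cx g S A α ω) (hx : Yd g A x) :
    ev π (α ++ x ++ ω) ∉ cj (ev π α) (Pg hG g π A) := by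
  intro hmem
  rw [mem_cj] at hmem
  have hp := (Pg hG g π A).inv_mem hmem
  obtain ⟨β, δ, hl, hβ, hδ⟩ := hp
  refine hs (α ++ (β ++ x ++ δ) ++ ω) (hc.plug (hl.plug hx)) ?_
  simp only [ev_append] at hβ ⊢
  rw [hβ, hδ]
  group

theorem value_right (hs : ∀ w, Yd g S w → ev π w ≠ 1) {A : J} {α x ω : List T}
    (hc : Cx g S A α ω) (hx : Yd g A x) :
    ev π (α ++ x ++ ω) ∉ cj (ev π ω)⁻¹ (Qg hG g π A) := by
  intro hmem
  rw [mem_cj] at hmem
  have hp := (Qg hG g π A).inv_mem hmem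
  obtain ⟨β, δ, hl, hβ, hδ⟩ := hp
  refine hs (α ++ (β ++ x ++ δ) ++ ω) (hc.plug (hl.plug hx)) ?_
  simp only [ev_append] at hδ ⊢
  rw [hβ, hδ]
  group

theorem split_ceil {τ : Y → List T} {u : List Y} {α ρ : List T} (h : tw τ u = α ++ ρ) :
    ∃ (u₁ u₂ : List Y) (σ : List T), u = u₁ ++ u₂ ∧ α ++ σ = tw τ u₁ ∧ ρ = σ ++ tw τ u₂ ∧
      (σ = [] ∨ ∃ y, σ <:+ τ y) := by
  induction u generalizing α with
  | nil =>
    rw [tw_nil] at h
    obtain ⟨rfl, rfl⟩ := List.append_eq_nil_iff.mp h.symm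
    exact ⟨[], [], [], rfl, rfl, rfl, Or.inl rfl⟩
  | cons y u ih =>
    rw [tw_cons] at h
    rcases List.append_eq_append_iff.mp h with ⟨as, h1, h2⟩ | ⟨bs, h1, h2⟩
    · obtain ⟨u₁, u₂, σ, e1, e2, e3, e4⟩ := ih h2
      refine ⟨y :: u₁, u₂, σ, by rw [e1]; rfl, ?_, e3, e4⟩
      rw [h1, tw_cons, List.append_assoc, e2]
    · refine ⟨[y], u, bs, rfl, ?_, h2, Or.inr ⟨y, α, h1.symm⟩⟩
      rw [tw_cons, tw_nil, List.append_nil, h1]

theorem split_floor {τ : Y → List T} {u : List Y} {α ρ : List T} (h : tw τ u = α ++ ρ) :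
    ∃ (u₁ u₂ : List Y) (σ : List T), u = u₁ ++ u₂ ∧ α = tw τ u₁ ++ σ ∧ tw τ u₂ = σ ++ ρ ∧
      (σ = [] ∨ ∃ y, σ <+: τ y) := by
  induction u generalizing α with
  | nil =>
    rw [tw_nil] at h
    obtain ⟨rfl, rfl⟩ := List.append_eq_nil_iff.mp h.symm
    exact ⟨[], [], [], rfl, rfl, rfl, Or.inl rfl⟩
  | cons y u ih =>
    have h' := h
    rw [tw_cons] at h
    rcases List.append_eq_append_iff.mp h with ⟨as, h1, h2⟩ | ⟨bs, h1, h2⟩
    · obtain ⟨u₁, u₂, σ, e1, e2, e3, e4⟩ := ih h2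
      refine ⟨y :: u₁, u₂, σ, by rw [e1]; rfl, ?_, e3, e4⟩
      rw [h1, tw_cons, List.append_assoc, ← e2]
    · exact ⟨[], y :: u, α, rfl, rfl, h', Or.inr ⟨y, bs, h1.symm⟩⟩

private theorem finite_parts_h54 [Finite Y] (τ : Y → List T) :
    {σ : List T | σ = [] ∨ (∃ y, σ <:+ τ y) ∨ ∃ y, σ <+: τ y}.Finite := by
  have h1 : (⋃ y, {σ : List T | σ ∈ (τ y).tails}).Finite :=
    Set.finite_iUnion fun y => List.finite_toSet _
  have h2 : (⋃ y, {σ : List T | σ ∈ (τ y).inits}).Finite :=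
    Set.finite_iUnion fun y => List.finite_toSet _
  refine ((Set.finite_singleton ([] : List T)).union (h1.union h2)).subset ?_
  rintro σ (h | ⟨y, hy⟩ | ⟨y, hy⟩)
  · exact Or.inl h
  · exact Or.inr (Or.inl (Set.mem_iUnion.mpr ⟨y, List.mem_tails _ _ |>.mpr hy⟩))
  · exact Or.inr (Or.inr (Set.mem_iUnion.mpr ⟨y, List.mem_inits _ _ |>.mpr hy⟩))

theorem value_level (hG : ∀ x : G, IsOfFinOrder x) (hs : ∀ w, Yd g S w → ev π w ≠ 1) [Finite J]
    [Finite Y] (τ : Y → List T) :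
    ∃ Γ : Subgroup G, Γ.relIndex (Gt π τ) ≠ 0 ∧ ∀ u, ev π (tw τ u) ∈ Γ →
      ∀ A α x ω, Cx g S A α ω → Yd g A x → α ++ x ++ ω = tw τ u →
        (cj (ev π α) (Pg hG g π A)).relIndex (Gt π τ) = 0 ∧
        (cj (ev π ω)⁻¹ (Qg hG g π A)).relIndex (Gt π τ) = 0 := by
  have hF : Finite {σ : List T | σ = [] ∨ (∃ y, σ <:+ τ y) ∨ ∃ y, σ <+: τ y} :=
    (finite_parts_h54 τ).to_subtype
  obtain ⟨Γ, hΓ, hcore⟩ := exists_core_iInf
    (fun i : (J × {σ : List T | σ = [] ∨ (∃ y, σ <:+ τ y) ∨ ∃ y, σ <+: τ y}) ⊕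
        (J × {σ : List T | σ = [] ∨ (∃ y, σ <:+ τ y) ∨ ∃ y, σ <+: τ y}) =>
      Sum.elim (fun j => cj (ev π (j.2 : List T))⁻¹ (Pg hG g π j.1))
        (fun j => cj (ev π (j.2 : List T)) (Qg hG g π j.1)) i) (Gt π τ)
  refine ⟨Γ, hΓ, ?_⟩
  intro u hu A α x ω hc hx he
  constructor
  · have h1 : tw τ u = α ++ (x ++ ω) := by rw [← he, List.append_assoc]
    obtain ⟨u₁, u₂, σ, -, hα, -, hσ⟩ := split_ceil h1
    by_contra hne
    have ha : ev π α = ev π (tw τ u₁) * (ev π σ)⁻¹ := by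
      rw [← hα, ev_append, mul_inv_cancel_right]
    have hb : ev π (tw τ u₁) ∈ Gt π τ := ev_tw_mem π τ u₁
    have hidx : (cj (ev π σ)⁻¹ (Pg hG g π A)).relIndex (Gt π τ) ≠ 0 := by
      rw [← relIndex_cj hb, cj_cj, ← ha]
      exact hne
    have hmem := hcore (Sum.inl (A, ⟨σ, hσ.elim Or.inl fun h => Or.inr (Or.inl h)⟩)) hidx
      (ev π (tw τ u)) hu _ hb
    refine value_left (hG := hG) hs hc hx ?_
    rw [he, ha, ← cj_cj, mem_cj]
    exact hmem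
  · have h1 : tw τ u = (α ++ x) ++ ω := he.symm
    obtain ⟨u₁, u₂, σ, -, -, hω, hσ⟩ := split_floor h1
    by_contra hne
    have ha : (ev π ω)⁻¹ = (ev π (tw τ u₂))⁻¹ * ev π σ := by
      rw [hω, ev_append, mul_inv_rev, inv_mul_cancel_right]
    have hb : (ev π (tw τ u₂))⁻¹ ∈ Gt π τ := (Gt π τ).inv_mem (ev_tw_mem π τ u₂)
    have hidx : (cj (ev π σ) (Qg hG g π A)).relIndex (Gt π τ) ≠ 0 := by
      rw [← relIndex_cj hb, cj_cj, ← ha]
      exact hne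
    have hmem := hcore (Sum.inr (A, ⟨σ, hσ.elim Or.inl fun h => Or.inr (Or.inr h)⟩)) hidx
      (ev π (tw τ u)) hu _ hb
    refine value_right (hG := hG) hs hc hx ?_
    rw [he, ha, ← cj_cj, mem_cj]
    exact hmem

end

end Pool.Helper49.TG
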